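import Pool.Agent.AutoConv.C685.L0
import Pool.Agent.AutoConv.C685.L1
import Pool.Agent.AutoConv.C685.L2
import Pool.Agent.AutoConv.C685.L3
import Pool.Agent.AutoConv.C685.L4
import Pool.Agent.AutoConv.C685.L5
import Pool.Agent.AutoConv.C685.L6
import Pool.Agent.AutoConv.C685.L7
import Pool.Agent.AutoConv.C685.L8

namespace Pool.Agent.AutoConv.C685

theorem R1071 : Refuted2 MM P1071 := Refuted2.split l1071 R1072 R1073
theorem R1069 : Refuted2 MM P1069 := Refuted2.split l1069 R1070 R1071
theorem R1066 : Refuted2 MM P1066 := Refuted2.split l1066 R1067 R1068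
theorem R1064 : Refuted2 MM P1064 := Refuted2.split l1064 R1065 R1066
theorem R1063 : Refuted2 MM P1063 := Refuted2.split l1063 R1064 R1069
theorem R1060 : Refuted2 MM P1060 := Refuted2.split l1060 R1061 R1062
theorem R1059 : Refuted2 MM P1059 := Refuted2.split l1059 R1060 R1063
theorem R1056 : Refuted2 MM P1056 := Refuted2.split l1056 R1057 R1058
theorem R1054 : Refuted2 MM P1054 := Refuted2.split l1054 R1055 R1056
theorem R1052 : Refuted2 MM P1052 := Refuted2.split l1052 R1053 R1054
theorem R1048 : Refuted2 MM P1048 := Refuted2.split l1048 R1049 R1050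
theorem R1047 : Refuted2 MM P1047 := Refuted2.split l1047 R1048 R1051
theorem R1046 : Refuted2 MM P1046 := Refuted2.split l1046 R1047 R1052
theorem R1043 : Refuted2 MM P1043 := Refuted2.split l1043 R1044 R1045
theorem R1040 : Refuted2 MM P1040 := Refuted2.split l1040 R1041 R1042
theorem R1037 : Refuted2 MM P1037 := Refuted2.split l1037 R1038 R1039
theorem R1035 : Refuted2 MM P1035 := Refuted2.split l1035 R1036 R1037
theorem R1034 : Refuted2 MM P1034 := Refuted2.split l1034 R1035 R1040
theorem R1033 : Refuted2 MM P1033 := Refuted2.split l1033 R1034 R1043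
theorem R1030 : Refuted2 MM P1030 := Refuted2.split l1030 R1031 R1032
theorem R1028 : Refuted2 MM P1028 := Refuted2.split l1028 R1029 R1030
theorem R1027 : Refuted2 MM P1027 := Refuted2.split l1027 R1028 R1033
theorem R1023 : Refuted2 MM P1023 := Refuted2.split l1023 R1024 R1025
theorem R1022 : Refuted2 MM P1022 := Refuted2.split l1022 R1023 R1026
theorem R1019 : Refuted2 MM P1019 := Refuted2.split l1019 R1020 R1021
theorem R1017 : Refuted2 MM P1017 := Refuted2.split l1017 R1018 R1019
theorem R1016 : Refuted2 MM P1016 := Refuted2.split l1016 R1017 R1022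
theorem R1013 : Refuted2 MM P1013 := Refuted2.split l1013 R1014 R1015
theorem R1011 : Refuted2 MM P1011 := Refuted2.split l1011 R1012 R1013
theorem R1009 : Refuted2 MM P1009 := Refuted2.split l1009 R1010 R1011
theorem R1008 : Refuted2 MM P1008 := Refuted2.split l1008 R1009 R1016
theorem R1004 : Refuted2 MM P1004 := Refuted2.split l1004 R1005 R1006
theorem R1003 : Refuted2 MM P1003 := Refuted2.split l1003 R1004 R1007
theorem R1000 : Refuted2 MM P1000 := Refuted2.split l1000 R1001 R1002
theorem R998 : Refuted2 MM P998 := Refuted2.split l998 R999 R1000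
theorem R995 : Refuted2 MM P995 := Refuted2.split l995 R996 R997
theorem R993 : Refuted2 MM P993 := Refuted2.split l993 R994 R995
theorem R992 : Refuted2 MM P992 := Refuted2.split l992 R993 R998
theorem R991 : Refuted2 MM P991 := Refuted2.split l991 R992 R1003
theorem R990 : Refuted2 MM P990 := Refuted2.split l990 R991 R1008
theorem R986 : Refuted2 MM P986 := Refuted2.split l986 R987 R988
theorem R985 : Refuted2 MM P985 := Refuted2.split l985 R986 R989
theorem R983 : Refuted2 MM P983 := Refuted2.split l983 R984 R985
theorem R981 : Refuted2 MM P981 := Refuted2.split l981 R982 R983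
theorem R979 : Refuted2 MM P979 := Refuted2.split l979 R980 R981
theorem R976 : Refuted2 MM P976 := Refuted2.split l976 R977 R978
theorem R974 : Refuted2 MM P974 := Refuted2.split l974 R975 R976
theorem R971 : Refuted2 MM P971 := Refuted2.split l971 R972 R973
theorem R970 : Refuted2 MM P970 := Refuted2.split l970 R971 R974
theorem R968 : Refuted2 MM P968 := Refuted2.split l968 R969 R970
theorem R967 : Refuted2 MM P967 := Refuted2.split l967 R968 R979
theorem R966 : Refuted2 MM P966 := Refuted2.split l966 R967 R990
theorem R963 : Refuted2 MM P963 := Refuted2.split l963 R964 R965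
theorem R961 : Refuted2 MM P961 := Refuted2.split l961 R962 R963
theorem R959 : Refuted2 MM P959 := Refuted2.split l959 R960 R961
theorem R956 : Refuted2 MM P956 := Refuted2.split l956 R957 R958
theorem R955 : Refuted2 MM P955 := Refuted2.split l955 R956 R959
theorem R952 : Refuted2 MM P952 := Refuted2.split l952 R953 R954
theorem R950 : Refuted2 MM P950 := Refuted2.split l950 R951 R952
theorem R948 : Refuted2 MM P948 := Refuted2.split l948 R949 R950
theorem R947 : Refuted2 MM P947 := Refuted2.split l947 R948 R955
theorem R944 : Refuted2 MM P944 := Refuted2.split l944 R945 R946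
theorem R942 : Refuted2 MM P942 := Refuted2.split l942 R943 R944
theorem R940 : Refuted2 MM P940 := Refuted2.split l940 R941 R942
theorem R939 : Refuted2 MM P939 := Refuted2.split l939 R940 R947
theorem R938 : Refuted2 MM P938 := Refuted2.split l938 R939 R966
theorem R937 : Refuted2 MM P937 := Refuted2.split l937 R938 R1027
theorem R932 : Refuted2 MM P932 := Refuted2.split l932 R933 R934
theorem R930 : Refuted2 MM P930 := Refuted2.split l930 R931 R932
theorem R929 : Refuted2 MM P929 := Refuted2.split l929 R930 R935
theorem R928 : Refuted2 MM P928 := Refuted2.split l928 R929 R936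
theorem R924 : Refuted2 MM P924 := Refuted2.split l924 R925 R926
theorem R923 : Refuted2 MM P923 := Refuted2.split l923 R924 R927
theorem R919 : Refuted2 MM P919 := Refuted2.split l919 R920 R921
theorem R918 : Refuted2 MM P918 := Refuted2.split l918 R919 R922
theorem R915 : Refuted2 MM P915 := Refuted2.split l915 R916 R917
theorem R913 : Refuted2 MM P913 := Refuted2.split l913 R914 R915
theorem R911 : Refuted2 MM P911 := Refuted2.split l911 R912 R913
theorem R910 : Refuted2 MM P910 := Refuted2.split l910 R911 R918
theorem R909 : Refuted2 MM P909 := Refuted2.split l909 R910 R923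
theorem R908 : Refuted2 MM P908 := Refuted2.split l908 R909 R928
theorem R907 : Refuted2 MM P907 := Refuted2.split l907 R908 R937
theorem R904 : Refuted2 MM P904 := Refuted2.split l904 R905 R906
theorem R902 : Refuted2 MM P902 := Refuted2.split l902 R903 R904
theorem R901 : Refuted2 MM P901 := Refuted2.split l901 R902 R907
theorem R897 : Refuted2 MM P897 := Refuted2.split l897 R898 R899
theorem R895 : Refuted2 MM P895 := Refuted2.split l895 R896 R897
theorem R893 : Refuted2 MM P893 := Refuted2.split l893 R894 R895
theorem R892 : Refuted2 MM P892 := Refuted2.split l892 R893 R900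
theorem R890 : Refuted2 MM P890 := Refuted2.split l890 R891 R892
theorem R887 : Refuted2 MM P887 := Refuted2.split l887 R888 R889
theorem R884 : Refuted2 MM P884 := Refuted2.split l884 R885 R886
theorem R882 : Refuted2 MM P882 := Refuted2.split l882 R883 R884
theorem R881 : Refuted2 MM P881 := Refuted2.split l881 R882 R887
theorem R879 : Refuted2 MM P879 := Refuted2.split l879 R880 R881
theorem R878 : Refuted2 MM P878 := Refuted2.split l878 R879 R890
theorem R875 : Refuted2 MM P875 := Refuted2.split l875 R876 R877
theorem R873 : Refuted2 MM P873 := Refuted2.split l873 R874 R875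
theorem R871 : Refuted2 MM P871 := Refuted2.split l871 R872 R873
theorem R868 : Refuted2 MM P868 := Refuted2.split l868 R869 R870
theorem R865 : Refuted2 MM P865 := Refuted2.split l865 R866 R867
theorem R864 : Refuted2 MM P864 := Refuted2.split l864 R865 R868
theorem R863 : Refuted2 MM P863 := Refuted2.split l863 R864 R871
theorem R861 : Refuted2 MM P861 := Refuted2.split l861 R862 R863
theorem R858 : Refuted2 MM P858 := Refuted2.split l858 R859 R860
theorem R857 : Refuted2 MM P857 := Refuted2.split l857 R858 R861
theorem R854 : Refuted2 MM P854 := Refuted2.split l854 R855 R856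
theorem R852 : Refuted2 MM P852 := Refuted2.split l852 R853 R854
theorem R850 : Refuted2 MM P850 := Refuted2.split l850 R851 R852
theorem R849 : Refuted2 MM P849 := Refuted2.split l849 R850 R857
theorem R847 : Refuted2 MM P847 := Refuted2.split l847 R848 R849
theorem R846 : Refuted2 MM P846 := Refuted2.split l846 R847 R878
theorem R843 : Refuted2 MM P843 := Refuted2.split l843 R844 R845
theorem R840 : Refuted2 MM P840 := Refuted2.split l840 R841 R842
theorem R839 : Refuted2 MM P839 := Refuted2.split l839 R840 R843
theorem R838 : Refuted2 MM P838 := Refuted2.split l838 R839 R846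
theorem R834 : Refuted2 MM P834 := Refuted2.split l834 R835 R836
theorem R833 : Refuted2 MM P833 := Refuted2.split l833 R834 R837
theorem R832 : Refuted2 MM P832 := Refuted2.split l832 R833 R838
theorem R829 : Refuted2 MM P829 := Refuted2.split l829 R830 R831
theorem R826 : Refuted2 MM P826 := Refuted2.split l826 R827 R828
theorem R823 : Refuted2 MM P823 := Refuted2.split l823 R824 R825
theorem R822 : Refuted2 MM P822 := Refuted2.split l822 R823 R826
theorem R821 : Refuted2 MM P821 := Refuted2.split l821 R822 R829
theorem R819 : Refuted2 MM P819 := Refuted2.split l819 R820 R821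
theorem R817 : Refuted2 MM P817 := Refuted2.split l817 R818 R819
theorem R815 : Refuted2 MM P815 := Refuted2.split l815 R816 R817
theorem R812 : Refuted2 MM P812 := Refuted2.split l812 R813 R814
theorem R810 : Refuted2 MM P810 := Refuted2.split l810 R811 R812
theorem R808 : Refuted2 MM P808 := Refuted2.split l808 R809 R810
theorem R806 : Refuted2 MM P806 := Refuted2.split l806 R807 R808
theorem R804 : Refuted2 MM P804 := Refuted2.split l804 R805 R806
theorem R801 : Refuted2 MM P801 := Refuted2.split l801 R802 R803
theorem R799 : Refuted2 MM P799 := Refuted2.split l799 R800 R801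
theorem R797 : Refuted2 MM P797 := Refuted2.split l797 R798 R799
theorem R795 : Refuted2 MM P795 := Refuted2.split l795 R796 R797
theorem R793 : Refuted2 MM P793 := Refuted2.split l793 R794 R795
theorem R791 : Refuted2 MM P791 := Refuted2.split l791 R792 R793
theorem R790 : Refuted2 MM P790 := Refuted2.split l790 R791 R804
theorem R789 : Refuted2 MM P789 := Refuted2.split l789 R790 R815
theorem R788 : Refuted2 MM P788 := Refuted2.split l788 R789 R832
theorem R787 : Refuted2 MM P787 := Refuted2.split l787 R788 R901
theorem R784 : Refuted2 MM P784 := Refuted2.split l784 R785 R786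
theorem R782 : Refuted2 MM P782 := Refuted2.split l782 R783 R784
theorem R779 : Refuted2 MM P779 := Refuted2.split l779 R780 R781
theorem R778 : Refuted2 MM P778 := Refuted2.split l778 R779 R782
theorem R775 : Refuted2 MM P775 := Refuted2.split l775 R776 R777
theorem R773 : Refuted2 MM P773 := Refuted2.split l773 R774 R775
theorem R772 : Refuted2 MM P772 := Refuted2.split l772 R773 R778
theorem R770 : Refuted2 MM P770 := Refuted2.split l770 R771 R772
theorem R768 : Refuted2 MM P768 := Refuted2.split l768 R769 R770
theorem R766 : Refuted2 MM P766 := Refuted2.split l766 R767 R768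
theorem R763 : Refuted2 MM P763 := Refuted2.split l763 R764 R765
theorem R761 : Refuted2 MM P761 := Refuted2.split l761 R762 R763
theorem R759 : Refuted2 MM P759 := Refuted2.split l759 R760 R761
theorem R757 : Refuted2 MM P757 := Refuted2.split l757 R758 R759
theorem R754 : Refuted2 MM P754 := Refuted2.split l754 R755 R756
theorem R753 : Refuted2 MM P753 := Refuted2.split l753 R754 R757
theorem R751 : Refuted2 MM P751 := Refuted2.split l751 R752 R753
theorem R749 : Refuted2 MM P749 := Refuted2.split l749 R750 R751
theorem R748 : Refuted2 MM P748 := Refuted2.split l748 R749 R766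
theorem R743 : Refuted2 MM P743 := Refuted2.split l743 R744 R745
theorem R741 : Refuted2 MM P741 := Refuted2.split l741 R742 R743
theorem R740 : Refuted2 MM P740 := Refuted2.split l740 R741 R746
theorem R738 : Refuted2 MM P738 := Refuted2.split l738 R739 R740
theorem R736 : Refuted2 MM P736 := Refuted2.split l736 R737 R738
theorem R735 : Refuted2 MM P735 := Refuted2.split l735 R736 R747
theorem R733 : Refuted2 MM P733 := Refuted2.split l733 R734 R735
theorem R730 : Refuted2 MM P730 := Refuted2.split l730 R731 R732
theorem R729 : Refuted2 MM P729 := Refuted2.split l729 R730 R733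
theorem R725 : Refuted2 MM P725 := Refuted2.split l725 R726 R727
theorem R724 : Refuted2 MM P724 := Refuted2.split l724 R725 R728
theorem R720 : Refuted2 MM P720 := Refuted2.split l720 R721 R722
theorem R719 : Refuted2 MM P719 := Refuted2.split l719 R720 R723
theorem R717 : Refuted2 MM P717 := Refuted2.split l717 R718 R719
theorem R714 : Refuted2 MM P714 := Refuted2.split l714 R715 R716
theorem R713 : Refuted2 MM P713 := Refuted2.split l713 R714 R717
theorem R710 : Refuted2 MM P710 := Refuted2.split l710 R711 R712
theorem R709 : Refuted2 MM P709 := Refuted2.split l709 R710 R713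
theorem R707 : Refuted2 MM P707 := Refuted2.split l707 R708 R709
theorem R704 : Refuted2 MM P704 := Refuted2.split l704 R705 R706
theorem R703 : Refuted2 MM P703 := Refuted2.split l703 R704 R707
theorem R702 : Refuted2 MM P702 := Refuted2.split l702 R703 R724
theorem R701 : Refuted2 MM P701 := Refuted2.split l701 R702 R729
theorem R700 : Refuted2 MM P700 := Refuted2.split l700 R701 R748
theorem R699 : Refuted2 MM P699 := Refuted2.split l699 R700 R787
theorem R698 : Refuted2 MM P698 := Refuted2.split l698 R699 R1046
theorem R697 : Refuted2 MM P697 := Refuted2.split l697 R698 R1059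
theorem R694 : Refuted2 MM P694 := Refuted2.split l694 R695 R696
theorem R692 : Refuted2 MM P692 := Refuted2.split l692 R693 R694
theorem R690 : Refuted2 MM P690 := Refuted2.split l690 R691 R692
theorem R688 : Refuted2 MM P688 := Refuted2.split l688 R689 R690
theorem R685 : Refuted2 MM P685 := Refuted2.split l685 R686 R687
theorem R683 : Refuted2 MM P683 := Refuted2.split l683 R684 R685
theorem R680 : Refuted2 MM P680 := Refuted2.split l680 R681 R682
theorem R678 : Refuted2 MM P678 := Refuted2.split l678 R679 R680
theorem R676 : Refuted2 MM P676 := Refuted2.split l676 R677 R678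
theorem R674 : Refuted2 MM P674 := Refuted2.split l674 R675 R676
theorem R672 : Refuted2 MM P672 := Refuted2.split l672 R673 R674
theorem R669 : Refuted2 MM P669 := Refuted2.split l669 R670 R671
theorem R668 : Refuted2 MM P668 := Refuted2.split l668 R669 R672
theorem R665 : Refuted2 MM P665 := Refuted2.split l665 R666 R667
theorem R662 : Refuted2 MM P662 := Refuted2.split l662 R663 R664
theorem R660 : Refuted2 MM P660 := Refuted2.split l660 R661 R662
theorem R658 : Refuted2 MM P658 := Refuted2.split l658 R659 R660
theorem R657 : Refuted2 MM P657 := Refuted2.split l657 R658 R665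
theorem R654 : Refuted2 MM P654 := Refuted2.split l654 R655 R656
theorem R651 : Refuted2 MM P651 := Refuted2.split l651 R652 R653
theorem R649 : Refuted2 MM P649 := Refuted2.split l649 R650 R651
theorem R647 : Refuted2 MM P647 := Refuted2.split l647 R648 R649
theorem R646 : Refuted2 MM P646 := Refuted2.split l646 R647 R654
theorem R643 : Refuted2 MM P643 := Refuted2.split l643 R644 R645
theorem R640 : Refuted2 MM P640 := Refuted2.split l640 R641 R642
theorem R639 : Refuted2 MM P639 := Refuted2.split l639 R640 R643
theorem R638 : Refuted2 MM P638 := Refuted2.split l638 R639 R646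
theorem R637 : Refuted2 MM P637 := Refuted2.split l637 R638 R657
theorem R634 : Refuted2 MM P634 := Refuted2.split l634 R635 R636
theorem R631 : Refuted2 MM P631 := Refuted2.split l631 R632 R633
theorem R630 : Refuted2 MM P630 := Refuted2.split l630 R631 R634
theorem R627 : Refuted2 MM P627 := Refuted2.split l627 R628 R629
theorem R624 : Refuted2 MM P624 := Refuted2.split l624 R625 R626
theorem R623 : Refuted2 MM P623 := Refuted2.split l623 R624 R627
theorem R622 : Refuted2 MM P622 := Refuted2.split l622 R623 R630
theorem R621 : Refuted2 MM P621 := Refuted2.split l621 R622 R637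
theorem R620 : Refuted2 MM P620 := Refuted2.split l620 R621 R668
theorem R619 : Refuted2 MM P619 := Refuted2.split l619 R620 R683
theorem R616 : Refuted2 MM P616 := Refuted2.split l616 R617 R618
theorem R614 : Refuted2 MM P614 := Refuted2.split l614 R615 R616
theorem R609 : Refuted2 MM P609 := Refuted2.split l609 R610 R611
theorem R608 : Refuted2 MM P608 := Refuted2.split l608 R609 R612
theorem R607 : Refuted2 MM P607 := Refuted2.split l607 R608 R613
theorem R606 : Refuted2 MM P606 := Refuted2.split l606 R607 R614
theorem R605 : Refuted2 MM P605 := Refuted2.split l605 R606 R619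
theorem R601 : Refuted2 MM P601 := Refuted2.split l601 R602 R603
theorem R599 : Refuted2 MM P599 := Refuted2.split l599 R600 R601
theorem R597 : Refuted2 MM P597 := Refuted2.split l597 R598 R599
theorem R596 : Refuted2 MM P596 := Refuted2.split l596 R597 R604
theorem R592 : Refuted2 MM P592 := Refuted2.split l592 R593 R594
theorem R590 : Refuted2 MM P590 := Refuted2.split l590 R591 R592
theorem R589 : Refuted2 MM P589 := Refuted2.split l589 R590 R595
theorem R588 : Refuted2 MM P588 := Refuted2.split l588 R589 R596
theorem R584 : Refuted2 MM P584 := Refuted2.split l584 R585 R586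
theorem R581 : Refuted2 MM P581 := Refuted2.split l581 R582 R583
theorem R579 : Refuted2 MM P579 := Refuted2.split l579 R580 R581
theorem R578 : Refuted2 MM P578 := Refuted2.split l578 R579 R584
theorem R576 : Refuted2 MM P576 := Refuted2.split l576 R577 R578
theorem R573 : Refuted2 MM P573 := Refuted2.split l573 R574 R575
theorem R571 : Refuted2 MM P571 := Refuted2.split l571 R572 R573
theorem R570 : Refuted2 MM P570 := Refuted2.split l570 R571 R576
theorem R569 : Refuted2 MM P569 := Refuted2.split l569 R570 R587
theorem R565 : Refuted2 MM P565 := Refuted2.split l565 R566 R567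
theorem R562 : Refuted2 MM P562 := Refuted2.split l562 R563 R564
theorem R561 : Refuted2 MM P561 := Refuted2.split l561 R562 R565
theorem R559 : Refuted2 MM P559 := Refuted2.split l559 R560 R561
theorem R557 : Refuted2 MM P557 := Refuted2.split l557 R558 R559
theorem R555 : Refuted2 MM P555 := Refuted2.split l555 R556 R557
theorem R554 : Refuted2 MM P554 := Refuted2.split l554 R555 R568
theorem R552 : Refuted2 MM P552 := Refuted2.split l552 R553 R554
theorem R551 : Refuted2 MM P551 := Refuted2.split l551 R552 R569
theorem R550 : Refuted2 MM P550 := Refuted2.split l550 R551 R588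
theorem R547 : Refuted2 MM P547 := Refuted2.split l547 R548 R549
theorem R543 : Refuted2 MM P543 := Refuted2.split l543 R544 R545
theorem R542 : Refuted2 MM P542 := Refuted2.split l542 R543 R546
theorem R539 : Refuted2 MM P539 := Refuted2.split l539 R540 R541
theorem R537 : Refuted2 MM P537 := Refuted2.split l537 R538 R539
theorem R536 : Refuted2 MM P536 := Refuted2.split l536 R537 R542
theorem R535 : Refuted2 MM P535 := Refuted2.split l535 R536 R547
theorem R532 : Refuted2 MM P532 := Refuted2.split l532 R533 R534
theorem R530 : Refuted2 MM P530 := Refuted2.split l530 R531 R532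
theorem R529 : Refuted2 MM P529 := Refuted2.split l529 R530 R535
theorem R528 : Refuted2 MM P528 := Refuted2.split l528 R529 R550
theorem R527 : Refuted2 MM P527 := Refuted2.split l527 R528 R605
theorem R526 : Refuted2 MM P526 := Refuted2.split l526 R527 R688
theorem R523 : Refuted2 MM P523 := Refuted2.split l523 R524 R525
theorem R522 : Refuted2 MM P522 := Refuted2.split l522 R523 R526
theorem R518 : Refuted2 MM P518 := Refuted2.split l518 R519 R520
theorem R517 : Refuted2 MM P517 := Refuted2.split l517 R518 R521
theorem R515 : Refuted2 MM P515 := Refuted2.split l515 R516 R517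
theorem R512 : Refuted2 MM P512 := Refuted2.split l512 R513 R514
theorem R509 : Refuted2 MM P509 := Refuted2.split l509 R510 R511
theorem R508 : Refuted2 MM P508 := Refuted2.split l508 R509 R512
theorem R505 : Refuted2 MM P505 := Refuted2.split l505 R506 R507
theorem R503 : Refuted2 MM P503 := Refuted2.split l503 R504 R505
theorem R502 : Refuted2 MM P502 := Refuted2.split l502 R503 R508
theorem R499 : Refuted2 MM P499 := Refuted2.split l499 R500 R501
theorem R497 : Refuted2 MM P497 := Refuted2.split l497 R498 R499
theorem R496 : Refuted2 MM P496 := Refuted2.split l496 R497 R502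
theorem R493 : Refuted2 MM P493 := Refuted2.split l493 R494 R495
theorem R491 : Refuted2 MM P491 := Refuted2.split l491 R492 R493
theorem R487 : Refuted2 MM P487 := Refuted2.split l487 R488 R489
theorem R486 : Refuted2 MM P486 := Refuted2.split l486 R487 R490
theorem R483 : Refuted2 MM P483 := Refuted2.split l483 R484 R485
theorem R480 : Refuted2 MM P480 := Refuted2.split l480 R481 R482
theorem R479 : Refuted2 MM P479 := Refuted2.split l479 R480 R483
theorem R478 : Refuted2 MM P478 := Refuted2.split l478 R479 R486
theorem R477 : Refuted2 MM P477 := Refuted2.split l477 R478 R491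
theorem R476 : Refuted2 MM P476 := Refuted2.split l476 R477 R496
theorem R475 : Refuted2 MM P475 := Refuted2.split l475 R476 R515
theorem R469 : Refuted2 MM P469 := Refuted2.split l469 R470 R471
theorem R467 : Refuted2 MM P467 := Refuted2.split l467 R468 R469
theorem R466 : Refuted2 MM P466 := Refuted2.split l466 R467 R472
theorem R465 : Refuted2 MM P465 := Refuted2.split l465 R466 R473
theorem R464 : Refuted2 MM P464 := Refuted2.split l464 R465 R474
theorem R461 : Refuted2 MM P461 := Refuted2.split l461 R462 R463
theorem R458 : Refuted2 MM P458 := Refuted2.split l458 R459 R460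
theorem R457 : Refuted2 MM P457 := Refuted2.split l457 R458 R461
theorem R455 : Refuted2 MM P455 := Refuted2.split l455 R456 R457
theorem R453 : Refuted2 MM P453 := Refuted2.split l453 R454 R455
theorem R452 : Refuted2 MM P452 := Refuted2.split l452 R453 R464
theorem R451 : Refuted2 MM P451 := Refuted2.split l451 R452 R475
theorem R448 : Refuted2 MM P448 := Refuted2.split l448 R449 R450
theorem R443 : Refuted2 MM P443 := Refuted2.split l443 R444 R445
theorem R442 : Refuted2 MM P442 := Refuted2.split l442 R443 R446
theorem R441 : Refuted2 MM P441 := Refuted2.split l441 R442 R447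
theorem R440 : Refuted2 MM P440 := Refuted2.split l440 R441 R448
theorem R439 : Refuted2 MM P439 := Refuted2.split l439 R440 R451
theorem R435 : Refuted2 MM P435 := Refuted2.split l435 R436 R437
theorem R434 : Refuted2 MM P434 := Refuted2.split l434 R435 R438
theorem R432 : Refuted2 MM P432 := Refuted2.split l432 R433 R434
theorem R431 : Refuted2 MM P431 := Refuted2.split l431 R432 R439
theorem R428 : Refuted2 MM P428 := Refuted2.split l428 R429 R430
theorem R427 : Refuted2 MM P427 := Refuted2.split l427 R428 R431
theorem R424 : Refuted2 MM P424 := Refuted2.split l424 R425 R426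
theorem R422 : Refuted2 MM P422 := Refuted2.split l422 R423 R424
theorem R419 : Refuted2 MM P419 := Refuted2.split l419 R420 R421
theorem R416 : Refuted2 MM P416 := Refuted2.split l416 R417 R418
theorem R415 : Refuted2 MM P415 := Refuted2.split l415 R416 R419
theorem R412 : Refuted2 MM P412 := Refuted2.split l412 R413 R414
theorem R411 : Refuted2 MM P411 := Refuted2.split l411 R412 R415
theorem R410 : Refuted2 MM P410 := Refuted2.split l410 R411 R422
theorem R407 : Refuted2 MM P407 := Refuted2.split l407 R408 R409
theorem R406 : Refuted2 MM P406 := Refuted2.split l406 R407 R410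
theorem R403 : Refuted2 MM P403 := Refuted2.split l403 R404 R405
theorem R400 : Refuted2 MM P400 := Refuted2.split l400 R401 R402
theorem R399 : Refuted2 MM P399 := Refuted2.split l399 R400 R403
theorem R398 : Refuted2 MM P398 := Refuted2.split l398 R399 R406
theorem R395 : Refuted2 MM P395 := Refuted2.split l395 R396 R397
theorem R393 : Refuted2 MM P393 := Refuted2.split l393 R394 R395
theorem R391 : Refuted2 MM P391 := Refuted2.split l391 R392 R393
theorem R389 : Refuted2 MM P389 := Refuted2.split l389 R390 R391
theorem R387 : Refuted2 MM P387 := Refuted2.split l387 R388 R389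
theorem R384 : Refuted2 MM P384 := Refuted2.split l384 R385 R386
theorem R381 : Refuted2 MM P381 := Refuted2.split l381 R382 R383
theorem R379 : Refuted2 MM P379 := Refuted2.split l379 R380 R381
theorem R377 : Refuted2 MM P377 := Refuted2.split l377 R378 R379
theorem R375 : Refuted2 MM P375 := Refuted2.split l375 R376 R377
theorem R374 : Refuted2 MM P374 := Refuted2.split l374 R375 R384
theorem R373 : Refuted2 MM P373 := Refuted2.split l373 R374 R387
theorem R372 : Refuted2 MM P372 := Refuted2.split l372 R373 R398
theorem R369 : Refuted2 MM P369 := Refuted2.split l369 R370 R371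
theorem R368 : Refuted2 MM P368 := Refuted2.split l368 R369 R372
theorem R363 : Refuted2 MM P363 := Refuted2.split l363 R364 R365
theorem R362 : Refuted2 MM P362 := Refuted2.split l362 R363 R366
theorem R361 : Refuted2 MM P361 := Refuted2.split l361 R362 R367
theorem R356 : Refuted2 MM P356 := Refuted2.split l356 R357 R358
theorem R355 : Refuted2 MM P355 := Refuted2.split l355 R356 R359
theorem R354 : Refuted2 MM P354 := Refuted2.split l354 R355 R360
theorem R353 : Refuted2 MM P353 := Refuted2.split l353 R354 R361
theorem R348 : Refuted2 MM P348 := Refuted2.split l348 R349 R350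
theorem R346 : Refuted2 MM P346 := Refuted2.split l346 R347 R348
theorem R344 : Refuted2 MM P344 := Refuted2.split l344 R345 R346
theorem R343 : Refuted2 MM P343 := Refuted2.split l343 R344 R351
theorem R342 : Refuted2 MM P342 := Refuted2.split l342 R343 R352
theorem R341 : Refuted2 MM P341 := Refuted2.split l341 R342 R353
theorem R338 : Refuted2 MM P338 := Refuted2.split l338 R339 R340
theorem R333 : Refuted2 MM P333 := Refuted2.split l333 R334 R335
theorem R332 : Refuted2 MM P332 := Refuted2.split l332 R333 R336
theorem R331 : Refuted2 MM P331 := Refuted2.split l331 R332 R337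
theorem R330 : Refuted2 MM P330 := Refuted2.split l330 R331 R338
theorem R329 : Refuted2 MM P329 := Refuted2.split l329 R330 R341
theorem R325 : Refuted2 MM P325 := Refuted2.split l325 R326 R327
theorem R323 : Refuted2 MM P323 := Refuted2.split l323 R324 R325
theorem R321 : Refuted2 MM P321 := Refuted2.split l321 R322 R323
theorem R319 : Refuted2 MM P319 := Refuted2.split l319 R320 R321
theorem R316 : Refuted2 MM P316 := Refuted2.split l316 R317 R318
theorem R315 : Refuted2 MM P315 := Refuted2.split l315 R316 R319
theorem R314 : Refuted2 MM P314 := Refuted2.split l314 R315 R328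
theorem R311 : Refuted2 MM P311 := Refuted2.split l311 R312 R313
theorem R310 : Refuted2 MM P310 := Refuted2.split l310 R311 R314
theorem R309 : Refuted2 MM P309 := Refuted2.split l309 R310 R329
theorem R306 : Refuted2 MM P306 := Refuted2.split l306 R307 R308
theorem R304 : Refuted2 MM P304 := Refuted2.split l304 R305 R306
theorem R301 : Refuted2 MM P301 := Refuted2.split l301 R302 R303
theorem R300 : Refuted2 MM P300 := Refuted2.split l300 R301 R304
theorem R296 : Refuted2 MM P296 := Refuted2.split l296 R297 R298
theorem R295 : Refuted2 MM P295 := Refuted2.split l295 R296 R299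
theorem R291 : Refuted2 MM P291 := Refuted2.split l291 R292 R293
theorem R290 : Refuted2 MM P290 := Refuted2.split l290 R291 R294
theorem R289 : Refuted2 MM P289 := Refuted2.split l289 R290 R295
theorem R288 : Refuted2 MM P288 := Refuted2.split l288 R289 R300
theorem R283 : Refuted2 MM P283 := Refuted2.split l283 R284 R285
theorem R281 : Refuted2 MM P281 := Refuted2.split l281 R282 R283
theorem R280 : Refuted2 MM P280 := Refuted2.split l280 R281 R286
theorem R279 : Refuted2 MM P279 := Refuted2.split l279 R280 R287
theorem R276 : Refuted2 MM P276 := Refuted2.split l276 R277 R278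
theorem R274 : Refuted2 MM P274 := Refuted2.split l274 R275 R276
theorem R273 : Refuted2 MM P273 := Refuted2.split l273 R274 R279
theorem R270 : Refuted2 MM P270 := Refuted2.split l270 R271 R272
theorem R267 : Refuted2 MM P267 := Refuted2.split l267 R268 R269
theorem R266 : Refuted2 MM P266 := Refuted2.split l266 R267 R270
theorem R262 : Refuted2 MM P262 := Refuted2.split l262 R263 R264
theorem R261 : Refuted2 MM P261 := Refuted2.split l261 R262 R265
theorem R259 : Refuted2 MM P259 := Refuted2.split l259 R260 R261
theorem R258 : Refuted2 MM P258 := Refuted2.split l258 R259 R266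
theorem R255 : Refuted2 MM P255 := Refuted2.split l255 R256 R257
theorem R253 : Refuted2 MM P253 := Refuted2.split l253 R254 R255
theorem R251 : Refuted2 MM P251 := Refuted2.split l251 R252 R253
theorem R250 : Refuted2 MM P250 := Refuted2.split l250 R251 R258
theorem R249 : Refuted2 MM P249 := Refuted2.split l249 R250 R273
theorem R248 : Refuted2 MM P248 := Refuted2.split l248 R249 R288
theorem R247 : Refuted2 MM P247 := Refuted2.split l247 R248 R309
theorem R244 : Refuted2 MM P244 := Refuted2.split l244 R245 R246
theorem R241 : Refuted2 MM P241 := Refuted2.split l241 R242 R243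
theorem R239 : Refuted2 MM P239 := Refuted2.split l239 R240 R241
theorem R238 : Refuted2 MM P238 := Refuted2.split l238 R239 R244
theorem R234 : Refuted2 MM P234 := Refuted2.split l234 R235 R236
theorem R233 : Refuted2 MM P233 := Refuted2.split l233 R234 R237
theorem R231 : Refuted2 MM P231 := Refuted2.split l231 R232 R233
theorem R230 : Refuted2 MM P230 := Refuted2.split l230 R231 R238
theorem R229 : Refuted2 MM P229 := Refuted2.split l229 R230 R247
theorem R228 : Refuted2 MM P228 := Refuted2.split l228 R229 R368
theorem R227 : Refuted2 MM P227 := Refuted2.split l227 R228 R427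
theorem R224 : Refuted2 MM P224 := Refuted2.split l224 R225 R226
theorem R222 : Refuted2 MM P222 := Refuted2.split l222 R223 R224
theorem R219 : Refuted2 MM P219 := Refuted2.split l219 R220 R221
theorem R218 : Refuted2 MM P218 := Refuted2.split l218 R219 R222
theorem R215 : Refuted2 MM P215 := Refuted2.split l215 R216 R217
theorem R212 : Refuted2 MM P212 := Refuted2.split l212 R213 R214
theorem R211 : Refuted2 MM P211 := Refuted2.split l211 R212 R215
theorem R206 : Refuted2 MM P206 := Refuted2.split l206 R207 R208
theorem R205 : Refuted2 MM P205 := Refuted2.split l205 R206 R209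
theorem R204 : Refuted2 MM P204 := Refuted2.split l204 R205 R210
theorem R200 : Refuted2 MM P200 := Refuted2.split l200 R201 R202
theorem R197 : Refuted2 MM P197 := Refuted2.split l197 R198 R199
theorem R194 : Refuted2 MM P194 := Refuted2.split l194 R195 R196
theorem R193 : Refuted2 MM P193 := Refuted2.split l193 R194 R197
theorem R192 : Refuted2 MM P192 := Refuted2.split l192 R193 R200
theorem R191 : Refuted2 MM P191 := Refuted2.split l191 R192 R203
theorem R187 : Refuted2 MM P187 := Refuted2.split l187 R188 R189
theorem R186 : Refuted2 MM P186 := Refuted2.split l186 R187 R190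
theorem R185 : Refuted2 MM P185 := Refuted2.split l185 R186 R191
theorem R184 : Refuted2 MM P184 := Refuted2.split l184 R185 R204
theorem R181 : Refuted2 MM P181 := Refuted2.split l181 R182 R183
theorem R178 : Refuted2 MM P178 := Refuted2.split l178 R179 R180
theorem R175 : Refuted2 MM P175 := Refuted2.split l175 R176 R177
theorem R174 : Refuted2 MM P174 := Refuted2.split l174 R175 R178
theorem R173 : Refuted2 MM P173 := Refuted2.split l173 R174 R181
theorem R172 : Refuted2 MM P172 := Refuted2.split l172 R173 R184
theorem R169 : Refuted2 MM P169 := Refuted2.split l169 R170 R171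
theorem R166 : Refuted2 MM P166 := Refuted2.split l166 R167 R168
theorem R165 : Refuted2 MM P165 := Refuted2.split l165 R166 R169
theorem R163 : Refuted2 MM P163 := Refuted2.split l163 R164 R165
theorem R159 : Refuted2 MM P159 := Refuted2.split l159 R160 R161
theorem R158 : Refuted2 MM P158 := Refuted2.split l158 R159 R162
theorem R157 : Refuted2 MM P157 := Refuted2.split l157 R158 R163
theorem R156 : Refuted2 MM P156 := Refuted2.split l156 R157 R172
theorem R155 : Refuted2 MM P155 := Refuted2.split l155 R156 R211
theorem R152 : Refuted2 MM P152 := Refuted2.split l152 R153 R154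
theorem R149 : Refuted2 MM P149 := Refuted2.split l149 R150 R151
theorem R145 : Refuted2 MM P145 := Refuted2.split l145 R146 R147
theorem R144 : Refuted2 MM P144 := Refuted2.split l144 R145 R148
theorem R143 : Refuted2 MM P143 := Refuted2.split l143 R144 R149
theorem R142 : Refuted2 MM P142 := Refuted2.split l142 R143 R152
theorem R141 : Refuted2 MM P141 := Refuted2.split l141 R142 R155
theorem R137 : Refuted2 MM P137 := Refuted2.split l137 R138 R139
theorem R136 : Refuted2 MM P136 := Refuted2.split l136 R137 R140
theorem R132 : Refuted2 MM P132 := Refuted2.split l132 R133 R134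
theorem R131 : Refuted2 MM P131 := Refuted2.split l131 R132 R135
theorem R130 : Refuted2 MM P130 := Refuted2.split l130 R131 R136
theorem R129 : Refuted2 MM P129 := Refuted2.split l129 R130 R141
theorem R128 : Refuted2 MM P128 := Refuted2.split l128 R129 R218
theorem R127 : Refuted2 MM P127 := Refuted2.split l127 R128 R227
theorem R126 : Refuted2 MM P126 := Refuted2.split l126 R127 R522
theorem R125 : Refuted2 MM P125 := Refuted2.split l125 R126 R697
theorem R122 : Refuted2 MM P122 := Refuted2.split l122 R123 R124
theorem R120 : Refuted2 MM P120 := Refuted2.split l120 R121 R122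
theorem R118 : Refuted2 MM P118 := Refuted2.split l118 R119 R120
theorem R116 : Refuted2 MM P116 := Refuted2.split l116 R117 R118
theorem R113 : Refuted2 MM P113 := Refuted2.split l113 R114 R115
theorem R110 : Refuted2 MM P110 := Refuted2.split l110 R111 R112
theorem R109 : Refuted2 MM P109 := Refuted2.split l109 R110 R113
theorem R107 : Refuted2 MM P107 := Refuted2.split l107 R108 R109
theorem R104 : Refuted2 MM P104 := Refuted2.split l104 R105 R106
theorem R102 : Refuted2 MM P102 := Refuted2.split l102 R103 R104
theorem R100 : Refuted2 MM P100 := Refuted2.split l100 R101 R102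
theorem R99 : Refuted2 MM P99 := Refuted2.split l99 R100 R107
theorem R97 : Refuted2 MM P97 := Refuted2.split l97 R98 R99
theorem R95 : Refuted2 MM P95 := Refuted2.split l95 R96 R97
theorem R94 : Refuted2 MM P94 := Refuted2.split l94 R95 R116
theorem R91 : Refuted2 MM P91 := Refuted2.split l91 R92 R93
theorem R89 : Refuted2 MM P89 := Refuted2.split l89 R90 R91
theorem R86 : Refuted2 MM P86 := Refuted2.split l86 R87 R88
theorem R85 : Refuted2 MM P85 := Refuted2.split l85 R86 R89
theorem R84 : Refuted2 MM P84 := Refuted2.split l84 R85 R94
theorem R81 : Refuted2 MM P81 := Refuted2.split l81 R82 R83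
theorem R79 : Refuted2 MM P79 := Refuted2.split l79 R80 R81
theorem R77 : Refuted2 MM P77 := Refuted2.split l77 R78 R79
theorem R73 : Refuted2 MM P73 := Refuted2.split l73 R74 R75
theorem R72 : Refuted2 MM P72 := Refuted2.split l72 R73 R76
theorem R69 : Refuted2 MM P69 := Refuted2.split l69 R70 R71
theorem R68 : Refuted2 MM P68 := Refuted2.split l68 R69 R72
theorem R66 : Refuted2 MM P66 := Refuted2.split l66 R67 R68
theorem R63 : Refuted2 MM P63 := Refuted2.split l63 R64 R65
theorem R62 : Refuted2 MM P62 := Refuted2.split l62 R63 R66
theorem R59 : Refuted2 MM P59 := Refuted2.split l59 R60 R61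
theorem R55 : Refuted2 MM P55 := Refuted2.split l55 R56 R57
theorem R54 : Refuted2 MM P54 := Refuted2.split l54 R55 R58
theorem R50 : Refuted2 MM P50 := Refuted2.split l50 R51 R52
theorem R49 : Refuted2 MM P49 := Refuted2.split l49 R50 R53
theorem R48 : Refuted2 MM P48 := Refuted2.split l48 R49 R54
theorem R45 : Refuted2 MM P45 := Refuted2.split l45 R46 R47
theorem R43 : Refuted2 MM P43 := Refuted2.split l43 R44 R45
theorem R42 : Refuted2 MM P42 := Refuted2.split l42 R43 R48
theorem R41 : Refuted2 MM P41 := Refuted2.split l41 R42 R59
theorem R38 : Refuted2 MM P38 := Refuted2.split l38 R39 R40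
theorem R35 : Refuted2 MM P35 := Refuted2.split l35 R36 R37
theorem R34 : Refuted2 MM P34 := Refuted2.split l34 R35 R38
theorem R33 : Refuted2 MM P33 := Refuted2.split l33 R34 R41
theorem R30 : Refuted2 MM P30 := Refuted2.split l30 R31 R32
theorem R29 : Refuted2 MM P29 := Refuted2.split l29 R30 R33
theorem R28 : Refuted2 MM P28 := Refuted2.split l28 R29 R62
theorem R24 : Refuted2 MM P24 := Refuted2.split l24 R25 R26
theorem R23 : Refuted2 MM P23 := Refuted2.split l23 R24 R27
theorem R22 : Refuted2 MM P22 := Refuted2.split l22 R23 R28
theorem R21 : Refuted2 MM P21 := Refuted2.split l21 R22 R77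
theorem R18 : Refuted2 MM P18 := Refuted2.split l18 R19 R20
theorem R16 : Refuted2 MM P16 := Refuted2.split l16 R17 R18
theorem R13 : Refuted2 MM P13 := Refuted2.split l13 R14 R15
theorem R12 : Refuted2 MM P12 := Refuted2.split l12 R13 R16
theorem R7 : Refuted2 MM P7 := Refuted2.split l7 R8 R9
theorem R6 : Refuted2 MM P6 := Refuted2.split l6 R7 R10
theorem R5 : Refuted2 MM P5 := Refuted2.split l5 R6 R11
theorem R4 : Refuted2 MM P4 := Refuted2.split l4 R5 R12
theorem R3 : Refuted2 MM P3 := Refuted2.split l3 R4 R21
theorem R2 : Refuted2 MM P2 := Refuted2.split l2 R3 R84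
theorem R1 : Refuted2 MM P1 := Refuted2.split l1 R2 R125

theorem no_good2 : ∀ m, ¬ Good2 32 MM m :=
  no_good2_of_root l0 (by decide +kernel) R1

end Pool.Agent.AutoConv.C685
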