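import Pool.Agent.AutoConv.Tree3

namespace Pool.Agent.AutoConv.C685

/-- the bound. -/
noncomputable abbrev MM : ℝ := ((685 : ℕ) : ℝ) / ((1000 : ℕ) : ℝ)

def l0 : ℕ := 0x398ec3dc0685d268ca3a8fc400f738cc42706c0e000f2394d933cc7709c0304c5b36d9ba3f982414068
def l1 : ℕ := 0xd1193dadb348d0f51d8f74e0f8be3f8fe439bed8091cc651a06c1d87f244a8318dc3ccf84008e0773b
def l2 : ℕ := 0x22e3321c033ce6c00134611705a1907721c760a3e4ea753d837ae1783de374e07f116ca432c880c79c
def l3 : ℕ := 0x317c0315cf773e87b7f23d1f67e3fbff8ffff800bfe00c0400c0801812064230a0451b0a1330f03c8e1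
def l4 : ℕ := 0x32aebbdef4fd4ed7a7e8ba6eafb7ee7e2fc80a00bdff4be3007f803c57074200ac2c0d4451086f20900
def l5 : ℕ := 0x300da78dea3a3e9ba6ec3c9f23e3f7fc2f07c6f8bf9fcc00fc7f4f87bdfa3de0201c0cc481bc91338f6
def l6 : ℕ := 0x31ed5381e7fa6e778fdeb69e4f70ee3f70600cfbfc6e9799e5fb3fcff20341c0480300c1c13ca938d00
def l7 : ℕ := 0x300d6b7fe038ee9fccf6bd9fb7dfd935fd038fec3d00802a0d032003a2dabb8eb3e40907424cda32cfd
def l12 : ℕ := 0x6104404fcbcdee7bce7fa2eb3f2190af368a101378c030ee7c0a158ac14041fe7f6f97cdf43dd0142c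
def l13 : ℕ := 0x3cb2309c1f48f0b7f8f5fabe638ce93da02440043eae4c381747220c9621c752445d05be1dcbdefb100
def l16 : ℕ := 0x3d5c0337f5bb3ef7b0e878fe53bdf8796ee3c3fc8300143b030651abce2b8762747c2206a1e89038c48
def l18 : ℕ := 0x4bf4bb3fcb78de728d6bcf24cfa400aa1d7f301beafef54c1b72debadf5bf6013a8e2792f83d81ef9f
def l21 : ℕ := 0x300c1707c477bdbfacf881b15c8222c7f144270540efcbf9f0b6de0b79eaff3060511f0ca3d8cd350ca
def l22 : ℕ := 0x34af705211c640ec00f37a3e3398ed7d8fec1e0b41b01032164521745f1805b1582b090210045414900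
def l23 : ℕ := 0x3f5fcfb802739d7323e0bd80243d1a07b29cbc0f39fc0b00d53f307839104471905a18805e3bef04499
def l24 : ℕ := 0x66f2b98fe7f2f67a5ccb35f447d330dd1dbf3f577accba9f0fcff7c2b260c340069f0b7ae7fba03c59
def l28 : ℕ := 0x3ebefbc106b9ae5b41cfb7af30141f89e27c8b05b7dc032aed8081b09d270992183a02bbdf082b280ae
def l29 : ℕ := 0x34def86a2448c24498fab97d7f73defb3f93cb150511f875218781bc6c1a0520382dfac3e0508e400ac
def l30 : ℕ := 0xe10c03077dae8f881086714bd1e7f72dafe2f4c36060911f44f17005f3c011f8b034821fdfb9de900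
def l33 : ℕ := 0x3160f05c1846315441103c2e474cd336cea8311f4651906e1c07f1ac580b021024361f4560e09820d00
def l34 : ℕ := 0x3e5e700c003e2ea78fee411fe3f8f0b96e63a2e5c2f0e0721144d0d82212c4723cc62343c03fe2edd00
def l35 : ℕ := 0x3ad00376e3f4bef39f198c72a3efedb83de4d334c29c0354fc7fd02bf0f5f81e681737c7c08871d27c7
def l38 : ℕ := 0x300327bee0360d0f6015c823588e11be8e4be31abd3017e7f7bdbdc348deb9dfb49a4004dccbdfd1085
def l41 : ℕ := 0x17d0f6ee63a8dd764defe1fd419ffbf7007e1effdef57c0f302f184632606a400b920c2e1381c12080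
def l42 : ℕ := 0x34813c4d0c8430e8420fb9cdbf73e6fde02c3d0e44512c310b4330d4360d835f6bf80a02d13c4016d00
def l43 : ℕ := 0x17f68350f0400ebfae3f7fe33a3040591e46a123aac9f80ee82427900390b90ebc1e5be3f345716c30
def l45 : ℕ := 0x3d12145006835fffced8f1bf58642d892e8b00d079a2c83f01bf0f2bf910c8f2bc82f8381ce374ed0ab
def l48 : ℕ := 0x3b507879228b00ffcbce31ee1bea11038f87abe83ea0b0820c04c0603a2949540078fd3b5e63f5188c4
def l49 : ℕ := 0x3bfdc752f2f00e1f5de47dd013fc06be9fc425f43f3e93e7f386efcc481d86c288b2204ad0c46c1c0b2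
def l50 : ℕ := 0x397ee7f00b0862f453febacdf38fe4402254f01400efebe8fe8060641d0b80ae3b00e27dd310fe337f8
def l54 : ℕ := 0x3eae0320e670ce9fc80442cfc37fdf392f986210001e07ba0b892224b61a43c0447834100318a620bf6
def l55 : ℕ := 0x19fd7f21647127838fa388dbf7ffe4612d4db15384d67befb40714c9618416f8b00c1764184e520799
def l59 : ℕ := 0x19e87c4ea796dc3a2018631942feff4ac1f43e985e340e530801f0398f404a30d003807d0afed05032
def l62 : ℕ := 0x34fee86211c4612431fb3d5f03a1e9b98eb3d70585d18c6f1844f1244310045134411301bfcc3c1ed00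
def l63 : ℕ := 0x3c816078fcf01c5b03d37df1c096308a130842efb93e7717dd7b5f2fdcfb4010985019001c1bb7dcd00
def l66 : ℕ := 0x327f744d25ca02b4a402b8fd5f54daf9bf57fe1ec280f48c298a1280922087d0740ffe04f0ecbd40099
def l68 : ℕ := 0x3350bc7b1d48d18c2afafafe3f8ae67b1f54070b42f0fc702287d210801e46616c4706c0afd86224100
def l69 : ℕ := 0x3c122897fc82ffc42ac430712100320ab1633ef175bfb428f07d9f7be3ef0570b41dc574fddf760b063
def l72 : ℕ := 0x4f34ffaecf53d930cd3fcd25d003b4c615fcbe5b28cf338eb3c4fb7f8fbc260e045d6369d4383df450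
def l73 : ℕ := 0x3fce037efbfa1f7fd40582eff3a0d4f51e07f30f45d09049100290e02d0a8532fd003d0b303816f388d
def l77 : ℕ := 0x314e13fa13427097f1f3bb8eb3adf03e307c270e832fb43d0986918c751b05e13c430e8300706c24d00
def l79 : ℕ := 0x300cf3d60c87c26046fdfcbebba7dfb84dabde0e877208a03a4d02ec841e8470d832fcc53210a6350f9
def l81 : ℕ := 0x300d9818167fefd776d5ba6fb41b1305d19c840c813f7bc40382e168872108c2a48f29453f4874258ce
def l84 : ℕ := 0x303e5782e1374da365dbbb30aca7390cc2443f0a804f63b3d3f33d036ff4454210751c07123c8c1e100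
def l85 : ℕ := 0x310cff87ef7d0f4fccf8bcff4bd1f53dcf87edffffffe4120a8210881e07c240b8340bc320f8792fd00
def l86 : ℕ := 0x31fdc37ee0f95e8fb5ea7c3ed7d2f3bcaeffadf6fe3f8c2afafdefa3c6f77f30a3f5fd40f0909130100
def l89 : ℕ := 0x35dc4fbbf9bf702c3a0e450f7793e1fa8ef81f0ac33024671a0681705c16003f5421104490f08c2d500
def l91 : ℕ := 0x381c0388000370ffd7ec395fb7e0f8bf20485e09c12fc0190bc2d0bc401a09920869114520647f1b8bb
def l94 : ℕ := 0x9710836fdf98d3b52e68081ccb2344f13589b1402ff836dcab00cb7b7f180a208af284740b3fa12b82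
def l95 : ℕ := 0x311c7f5ae33b8f6bf0ff804013fdfd3f100c1b08007fc808098350ac1003019098261286b2189d39900
def l97 : ℕ := 0x300cc72adcbb60041d0a42b09c3c0e423094361542a004100b42b08bfa1044e138601a099310c235ce7
def l99 : ℕ := 0x9e20851f9f7aceb33d9f97f13fa168bd400f621bf0c8718c675eee41c11c65244c22d865f57accff5a
def l100 : ℕ := 0x316c9b9efb007034180480cfffe8ffc1e0e84b1083a0541d09c391547b1944410c3d1605e1687326d00
def l102 : ℕ := 0x396c035ae4badf07d301046310f931c91097f3ff4000205209c07ebb6ff244617cb12e0b61f0732fc59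
def l104 : ℕ := 0x3001c391e9372f17f30788216c5115023013f4f4ff117ff0ff7d7f3406ed7ca0241911430228a4f3c82
def l107 : ℕ := 0x348d83da02c10fdfdfeffb5f47f10dc64210600a82dfe3fff981b0b46b170901f464124170542816500
def l109 : ℕ := 0xddedc06f47e4f2c492649e263e5ed799d0f35d83dd25856f5797ddf86c0317c5777033e5f87cade75b
def l110 : ℕ := 0x333c036ee3371eb02921491173c3edbf115c510f858004350945b1486a02ffe0fc58218851a47e2c4f4
def l113 : ℕ := 0x1ec47c1e0c1bf03b6e2fd9240e73ecf4187b0f838b2bfc8ce35ac9300cd81936c740a7df3282415835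
def l116 : ℕ := 0x32accb73e87b5ef7c6f5fe8fe404050070501b0d40df97f10241505c160702505c2a0f4551b49639500
def l118 : ℕ := 0x300dd78aeebcbf7be8fc804030300c0511545511031fc813ffc0504821144381144c16c74258a7280e3
def l120 : ℕ := 0x389c036fe9fd8fcc1b0fc5113010017f20240d0480b07c180ec360b82901c01078260d43917c7024c82
def l122 : ℕ := 0x323e0f00cf76b0186629cbc304ab16802e578ce28022589f14fd2edbd5e5b79ed7d906c933f4c00f857
def l125 : ℕ := 0x3c0dcf25c0317d438ff03e90443b190832347d1501bf4fa8e2381e3ba1edfd0fc8141a4b83ccdf2a870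
def l126 : ℕ := 0x300debb4ffc240a02c11c651c86412c41134500c7f7f2fabecbafe8385dc76ede784ddb67e3bec0f8af
def l127 : ℕ := 0x318f5c001486a1481efc3cae836fd6f72f0c02073f7f7c0c0c478270951f06915423fcfd3f843115500
def l128 : ℕ := 0x33fcfb74dbf8be9bbff53e9fd002038190682406fe6fcbeffdbeaf93dff73dff73f6038290686125500
def l129 : ℕ := 0x320e02afa7e1f4fcef3bc4f179fdbb3cc0310d57e4134aa344da334bd2a0a0214992507e3accd28ff6
def l130 : ℕ := 0x380e9ba5f779de2778dc775d9b6ceac011105f103f1eb381e4bb30482e1443f0ac5911c5a0c46b23500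
def l131 : ℕ := 0x355e2f91e87a9efbbfee3c2f13daf3fc3fa7d8fffe6f53e7f6feef83e5fc3effb7e6fa8060bc8329500
def l132 : ℕ := 0x370ddf94e0390e139cebbc2f63c6f93f1ee80af8be9f43d0fd7d5f3fddf13c4f97dc04c000ac7b2f900
def l136 : ℕ := 0x8fa3daf20773610028846f5394e57e0fac2305ffcf0bb70385b1b87c1741ef0357d7bad0583f09b82
def l137 : ℕ := 0x3e2c4b60fa4872b0c30838dc7ba8d6b4502ffff7786e7fb30b500290da308a3293d6ec4211a87e38820
def l141 : ℕ := 0x1003b4650ebeaedf94e2b95ea3b3eebc6f1fc1eebdb05bfd07c401a89029cb2328d2328be1bc52feb2c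
def l142 : ℕ := 0x316e9b9ff6bbfe7386de77cdf784f801117c6211bece1390e639de940b1084c1fc6510c3aec82f1cd00
def l143 : ℕ := 0x302e0b9ff47b4e8fa7e7390e4f8bee3e70c03c09fe1ec7b6ed3c1f33ea07c34198531184ff401e21500
def l144 : ℕ := 0x347d2b6aeab9ee536ee0b8ee53d0f6fe2048350c7d9e4396ea3b3f33edffc220f04f0b419f7c6f24500
def l145 : ℕ := 0x352dcba2e7396e97c4e8b98e97a3f20010b014fdfc9ecfb6f0bdaf38020441610c180986cfb4251b500
def l149 : ℕ := 0x81c93cbee878400fa1af85c5b33de7f40a03a0183f05bf60abea108722449a053b6ee3ce2204c247fc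
def l152 : ℕ := 0x70d33acf24543990017b92da757e57fb0dc2300c24ffc1404415120781a06ef7784e77fc1b05428fda
def l155 : ℕ := 0x304e2371d8f40c7f18ca352dcfc4058471a46513416f5face5394ec80e1506e284c433cb6278a132500
def l156 : ℕ := 0x31c0b3e6eb368d1f45d4371d97a2f3ff4003fefdffcff7ecfdff80dc5825094350f1400de22c7428082
def l157 : ℕ := 0x8fd5bbce67e10dc66163f0f6382deb75e338eebff71ec691a44c27c3f19c25ffbd3fc46f24d0033820
def l158 : ℕ := 0x36bd7762e0b93eb3bcf0bc4f3fd6f1fe009c380fff6f13cdf33c5f07d0ee7e9f67d3f48140188d24d00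
def l159 : ℕ := 0x2c13c1bfd3e9fa417168771b0881f0840c7cbe6c11244641040efa7d4e97a1e27e2fa0000683614700
def l163 : ℕ := 0x39cdbb89d5799eefdaf7fbafbfa8e5385def84e83fc0dc561ac941e48c108680d83d1c0b1340e440093
def l165 : ℕ := 0x30c034be70442c47815bc2d4f01c0356f2c7b31077e37b1eb8440987c2a49c15802e4ba702c5f240b7
def l166 : ℕ := 0xbbf1bf5d573bd079d0484c304ed390dd11f88cf3ac1f0af213d9fc397c03a8cd7a9fc4912b8e63276c
def l169 : ℕ := 0x1eecccf35c49e4397048772cc35f3754c7723e3bf2178802e8450700fff7c8dc7a52e500033e5e541d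
def l172 : ℕ := 0x3efc6787f4c1b1205f0d7f3eef7dd6b33d376ae8c061406d2589f2447f1802d0e8220d4171a4ca4007c
def l173 : ℕ := 0x300eaf8be7fcc04c340a82f0abfef73e6048270a4280d3f0fc7ddfdbd4eebc4ed3bbeefd0f301c1808f
def l174 : ℕ := 0x100027d2f6ba9e3fa4f2c000c02d0d8501602dfd40000ff3faff9ff3cdfb396f9c120f83f17c5e01758
def l175 : ℕ := 0x92dcbc4f6fe00144409bf4f5b8adbbb60ac862efe9c03adfd8071942f037f4f8be20941e04412f8c12
def l178 : ℕ := 0x300cbb51c67b0f2ffc158110dc2111bcdfdc211c044f780df4823e9397e4b60dcf76e339cf4c2b260bf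
def l181 : ℕ := 0x3a31683e12407cf307e507f400d41bff0f038df14121488e1444304bb5cb38dfe066173f30848502817
def l184 : ℕ := 0xcbca72ec375ee03aeff40b16816fabff090470b81df9bbdff4140e3efe4bbff300e0b8543a500243bf
def l185 : ℕ := 0x301f338cd6f76e2409180631983afc382cf34ae68572f895348c507ffde679bd9ff421ca3400cd310b8
def l186 : ℕ := 0x300def6ce63dbe8fb6fb3ef1983307c231809e2200fee7b7eafa1e8f9ce47a6e7fa1e5f91ec81bfd8ce
def l187 : ℕ := 0x300e2799eafcaf2be00240c11025078271647e1cc2bf93d3f13b7ecfaceb3a4e9fa1e83b0f43ee08886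
def l191 : ℕ := 0x361dc354ebbe7fc3d6fc3f30d3e7f6c252d500323a1e6388e33a0ebbafe6fade9faceb39ae97e0e9c8c
def l192 : ℕ := 0x303d9b7fe3fedfcfe7ff3ef08ff0fc4422dd0031fb5e6b99e5b97e5399e779ce5f91e4799e939deac9e
def l193 : ℕ := 0x300e57b0f33c4edfc4fa00617815ffc2622cc52e3c2f2fccf23c6ef3b4ec39aea7adeffc0ea7a0ed870
def l194 : ℕ := 0x300df385e6fe0fdc0004fed04fcffb045334fa2f7c5ed3ade97a7e8face939be879ee7fa3ebfaded85c
def l197 : ℕ := 0x3f9ed386eb3c726ce3123b3c03a01847711000f908001ff9fb3cde9ff50e833f338fed7ebfd02116fd9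
def l200 : ℕ := 0x3fedf78e7bea26cce13388c037e0984f0cc1ffec32ff7e0f73c0efc261bc89f7b86ec81505c0f10bcb
def l204 : ℕ := 0x34fd7ba2f83d5f7fcaedbfdfa80e0b445280c72f7b5e2f6ee378ce5389dff98e9b9cdfb7dda368e1900
def l205 : ℕ := 0x300dab90f7f9ae9bb3eb817fd43e1c45a2207e21bcaf1fd3f53bae8f9cdeb70e47a8ee3aee7f8de6cdf
def l206 : ℕ := 0x339e476bd6bf9188700b7c8d678efd0883b10030bf3e8f81da36fe63a6f7be0e9b6cd735de2764e40bb
def l211 : ℕ := 0x3acc035ee57fb1a47a14818f6ba2e3f71e2794ea81219c67244a218447053ea0c41ff742d1288c3904f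
def l212 : ℕ := 0x300eebb1f33eb118691984b0a401f0bc3f9820094090c4110e01cfd3e1f7fe8f13d5f6fd3eefbf05894
def l215 : ℕ := 0x3de0100c18fc8d2728efcb9400ba05f99f13d604858068630fc36eb795dfb4d06c370d421f4c2408bf1
def l218 : ℕ := 0x8308c50f8b8ed334cd83c1fe40df9b9bcaf00c6fea2389d2c0a423c7b1cc7e2f0cc2e085290b23d3e0
def l219 : ℕ := 0x39fcdc3cfcc81244d5274bf0f42702be9dff27c3406394ea1ac5d0e7b0ed39ec0311daf6ee5bcc3eff7
def l222 : ℕ := 0x1001241ee2f5cd174dd836beb7ed02bfdf079bef3e2fe81f07031160601c09932cc42b8922cc8f0e3c5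
def l224 : ℕ := 0x65de010e602c310e52f7d3d0345d5387d035fef7e1054732c0b4400fb33c70023e0fd85629c8716c08
def l227 : ℕ := 0x335c773fd0f9beabd1eaba5ec7d30002e1405a0f3f5f43bcf1bd6fa0020802e0380e0d44c1c4ae34100
def l228 : ℕ := 0x33ac0382ddb4cd236af13e80d04a1443100beaf8ff70cc2a04bd2e53b7e4bcefd4491dc771a86d2c8fe
def l229 : ℕ := 0x100c3d6f8c130cc4d10c32ff7d4e3b47c1b00d442531cdb3608713429057fafd8181b0a633cdb193d9
def l230 : ℕ := 0xe51204616c9e310d22009711000fafe1fe41304ff5033ff0901a0540af63abec37dd7f5ee3b8ed0700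
def l231 : ℕ := 0x3650ecaf3c5003387b13ff9fbfe0ee394e0382ed8031407b1c87b108260800df6b95d8716c4348f788a
def l233 : ℕ := 0x3a0d379af7c391906708409dfb0ec3f44eac1f0fbe9f382a1f4cd288b319c1204ffc0bc402d0be4003a
def l234 : ℕ := 0xa3fc3baf9bbdebf8cd2f72de3d51a8f43f0de223c3cab00c0f4af6c351b447117e3f33c6fbc14fc7ab
def l238 : ℕ := 0x317d1351db790ecbbbebf9fe73adf47f604c2809c04f4fe0fb80a09c5317863154351286e20cb32f100
def l239 : ℕ := 0x3daeab94f0f9bdd369c0354ce7ba0f8872bc9f0c7f3e6301c278ff8425268c8214440001b0f87436474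
def l241 : ℕ := 0x359f5817147dedc758defe20c414f9789d3f74fa7ccfa87732c6a0842707c3917cae4007d01fef14cd6
def l244 : ℕ := 0xf92483efcba9f13eafdff30644f1d47d1502afd3fffd7d3eab91e53b7f9c0702c0509849047bfdc300
def l247 : ℕ := 0x342ffb89dbb67c0307cbb53ec005044330a01afbfd8017c1f3fb802fee1689d2c0f33b8bb22c821ecd7
def l248 : ℕ := 0x30dcdb5deafd4f6bdff07a0e73a8f3bff0b4410d005f27cdf48080ec591945e11827068291408f31900
def l249 : ℕ := 0x384da377e3f60ecbe2f3fa7e277aedbe4fe40e0ec05ef7fcfd3f512c8a200651b4520c48c2348d4008e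
def l250 : ℕ := 0x35df0fc70c3d2dab00cb0110b45d12bb6d873edd4050c4b327c9100c14f5bee2f4ba338c718886328a2
def l251 : ℕ := 0x43ed38ac87a10a46f2fc99fa39ed2b81f381d09850107fc03c4a2404b123accfb53ebc563fd00363d0
def l253 : ℕ := 0x3d92001ee87aedb774dcf61f2c381c430f1f2cd37d9110b50dc4bf24120644a25cd6400c226820eb840
def l255 : ℕ := 0x100e70080b86e16bb4ef79cf8fa9efffefd7f5e6bddfafdaf940602803ff466384b9fcbbbfe0030c362
def l258 : ℕ := 0x84e9f82d7b950188c14be2dff3eecbfcfd3dff282908431027f1f909e2b43efff5c0c46c3e50023fad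
def l259 : ℕ := 0x337c579ee07a5ebb99ec7aaeef90ddf8ff4c120d004f500911c8d21c7c14c6b14c7418c4c1cc8426500
def l261 : ℕ := 0x348dfb53e3772ed062123d9f00092490033484087fef179fdbb6bd6fa5f43b2e9b71e53e0f742b0e830
def l262 : ℕ := 0xd6e906e1a46b21f98ecfc7fe80e0ab5ed9300ce4722d427038120380d1b0ca0e8390a830123f52fb92
def l266 : ℕ := 0x3b20a7ec0c02f024471d4a125428fc3b2ebbc3024340a84c1183c0ffdee0300e1f68f47e4fcc220d3fd
def l267 : ℕ := 0x300ec765e038afb064f6fd6ea7ff260b8334cd31797e97e2f3bdad93e0ef3acf5b3bdf797dbf94ffc92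
def l270 : ℕ := 0x304e8f40d5380f284905beae2442105003c8e426384e0fcde77b7e4fbef1792f274ae7b8de2f73ec8b3
def l273 : ℕ := 0x3e8fe05700faedc738d1fcd1347c1a3fde936cdcfcd11c4a1e423fd3cff47fd258d240081047fdf1c26
def l274 : ℕ := 0x3fc09bddd8f33dfb8c00c2012851023a9ddb54d9810248871b4720b400fffbbf745a3a900314a302836
def l276 : ℕ := 0x300e1fccf43f8e2f90e43ee1c8b834cce2a05cf6bd3f6b8ddff7bdd77bdbba2f0bcdfbb9ae1baae28c7
def l279 : ℕ := 0x300e6f4cc4bdfe7c07090110e8a0244ea3ccd8097e4e6f5ad1339d3b4fd676cd7746dd797f7bfbddcf6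
def l280 : ℕ := 0x300cabace3bcbdd7a6fc40817ca4270d2360dc10fd4e077ce4783d9b6cd8b6bdf778def7fd7763f54dc
def l281 : ℕ := 0x311ff8240e393d9f8b064cd3d09af6b5dd4374ff02211cc2304b818f89c4300d5c161c082190341308f
def l283 : ℕ := 0xebf60761009a09001f8bcafc3d1f0f58cd300da05b210270741f058140b46a1545c15c1e1b4762ef75
def l288 : ℕ := 0x3d8f8c660077dddb4aec4431705000f95d7b54f17ef0009b2346b04be0f13c90d0cc400c609fe1f7c43
def l289 : ℕ := 0x321c7349d2f85eaff70e0661bc3efaba3dfb8df27f60ec7622c6e0c3d6e839dee8091447328cb237500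
def l290 : ℕ := 0x31df8c10e0f5dd6b78e305d3150039cb11bc0008bcdf6bc9dc770d7b57d634edefbd0542ae8b54ce48e
def l291 : ℕ := 0x3b1ec0541b043fe3e8ef37de9bb506436007aac53af060260e7f4fc3f7fdc061c90020fa2e1b7f09872
def l295 : ℕ := 0x32ce30351944703f89ccb00c6f7f0387f334bc23010ddf4ec8f84f8c803ace73607b017b4e5bd412cd7
def l296 : ℕ := 0xa211fa30a88b2f0921cfd9d3725c0328dabb3fa42821c9e3009527ca0264a41d437ea050288d22ffac
def l300 : ℕ := 0x36206c9d31cae04bcbe47a1f5010070080341804bf3e93e703010f0bca0344e1f85205362c0333f2c87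
def l301 : ℕ := 0xacc947522cd60f821fe7f9e2f2dd8372eab96f44351842012c3804414048261d8b40abe80e43940386
def l304 : ℕ := 0x38c0b4671647229c4401390d578cfdfe5edf96d04134002100bd5f3c1518c610143ef37e0fcbd407497
def l306 : ℕ := 0x31a4006b0fc4a104830c830f4fd8d2756d8bd80945512c270d02710c1805fd2fffdd1a0631301af20d3
def l309 : ℕ := 0xe63a8960f3c2e2f85e5ff81549e23866093f1f33dc037eaf7bb6e8b96f3c010c46811850f1b75c032a
def l310 : ℕ := 0x3e8e8fa0ebbea12cae3c50032059f535ec8b31e1ffa1b8cc36ca10aba8cf301c3751ec8131446214c26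
def l311 : ℕ := 0x3000943a230ac22466097e10283412c450380500ff0f4c10023c9eafccf7812f3795d3310cb78aef4ee
def l314 : ℕ := 0x7ed390e0ba0fe41a0381b1047234d00374a00e3c6e2b6cd571cd7379db37cdd767de7b2eebcce03fb
def l315 : ℕ := 0x3000305b304af1b05f13fb3e87a1ecc1f0b0390241a097f2f73a4ff02007838f1fbce2f72d2b97f88e0
def l316 : ℕ := 0x352309629c7021bfcf4410fcfb4e2712c030ced07f1805712c300c4560fc7d21485180871607c26bda
def l319 : ℕ := 0x7818c2af2f80d9fa606cb1400e71abbbcc70fd7bfe25ce233845e5717c2356f5c5e228820afd8e678d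
def l321 : ℕ := 0x3a82c47e2e068067fa037e4f73a3ce335c032ae54ab2147e1f47a1dc752247e2507b1c47913c480149c
def l323 : ℕ := 0x3e21ec7c2246f0e401023caf579fc971cc0341f246c2187b1f0801f4781d4a92c4731847b1705a1845f
def l325 : ℕ := 0x10de4be3307decb22ef0d50f364cfb00ed82712fdee7bd30745e0c850f27b418cf7237afe73cd32803
def l329 : ℕ := 0x17fa75ed4b86f40320d83efcfbee8f93eb3b3f982a0e4451206e1a828047c5f3bc81a48c400d32bbda
def l330 : ℕ := 0xf30281704f91ea375c2339c477f0708a3c0c00cbc2cbf00cbfb306c9a400b12ffff1e86a0d01af876e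
def l331 : ℕ := 0x1ad3b00cff9d0247211c56023f6248853cc9d1e3e5dd765d8b6edb773d934fd4b41dffab0b83c19b89
def l332 : ℕ := 0x3c8da335d0b6bf187014857fc7fa194bc400dc1c3e0e3b96e67a3ea75fcff31d9b82e1f98023dc1a745
def l333 : ℕ := 0x5718c962446f01fbdfb7d5087fecf33ec0388f57c10bc4d19480200652184a200952746301feff94a2
def l338 : ℕ := 0x33dd9340e235f2808a17b5ee63be1ecdf2242c114710cc1aedf6fe93ebfb7ebeb746c03c0f0c6e2340f
def l341 : ℕ := 0xf521700d1f51ec393d636fd376dff868320921b406d9794cc788ff8a0284c82983b15474364f6fff29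
def l342 : ℕ := 0x3e7c0321c279e17c5a1e80100bfe278ee3c4e4267c7df776d6349d436cd6f5fd4339d4b6bec816087d9
def l343 : ℕ := 0x3a5def5ce437d0180e058460bc051a49a400d3237b0e3b88e47a3e8f78d0368e0f89e3b91e7fd3f9001
def l344 : ℕ := 0x7c2849929c99f8fc9f481107fe9d2315c032cdec251dc7f2048b22c8c1b47d240a2228981606708bfe
def l346 : ℕ := 0x8620c881bc51ff804f9bdefb00ede344c0331e00201b0711e0761d47e1f4941f47a1d88216c5d0bbff
def l348 : ℕ := 0x3dbf048f157e0e635ae33f4f7bb6e2b8c07cb526fd8c0354e98141204125494344f521022e2f39ff858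
def l353 : ℕ := 0x3f702b6ddab57010a03b09918c0efa7bddd340ea450240fc1cc500ebe8e0f68c037808cb637cd022fd5
def l354 : ℕ := 0x357c775ddf37b0b8533fbb0017f92b1002a4601a43d01ba6de740d2b5ddaf67d070cc833ae53aa19853
def l355 : ℕ := 0x36dc0328e7b55f0c261307721867160581dccc3542be63afe9fb6e3341c8f10d735bd935ed67dd13850
def l356 : ℕ := 0x300ecf35c3bf910cbafc807e442f178b72f06b054870dff4f27cceeb99f63cfeff42ce776ec3dd1c85b
def l361 : ℕ := 0x346cf391d87d4fe4601ac05fc4281bcca301002afece237dd6754daf6adc35fd072fd0351d8f7a04c7e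
def l362 : ℕ := 0x300dabaafa3e2f7f8ff609136c561d84b38cd738406e23a3e2b8ddeb59c9f49da770db754d4b77ef48a
def l363 : ℕ := 0x311e0f1def3c20243111ff8fec49204b936d0028408ea792e0378e2f7de2b70daf58d5f5ad8382e9085
def l368 : ℕ := 0x3d1f3fed0dc94374fd3a4a40e7d0dc738ca74fe7c00174ab348c724431f175dc5300c836df18110d42f
def l369 : ℕ := 0x2ad6b41d3399285002742bf2bbdee761e4f73eb3f9168a6240701000b007aae0f6becc873a4991af6f
def l372 : ℕ := 0x3f2f2bc3ff4503108705750c5323e4ff50982806810fb3c9ebfd9188a5400ab08fa1ee7e80d84a18bfb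
def l373 : ℕ := 0x3eff80711e86d1808438cb625c6213801f0796dec233407f14431eb3bbc4b26c038fe9b95ddf80f0802
def l374 : ℕ := 0x3aee63adff46e351003848e0bbd6e7b87e33a8f4803098581c4761801ff6371c8701cc39301c4d1a84f
def l375 : ℕ := 0x753a8f23f0b00a3b3e13aaf53abf881e118590d3e8f338ded3ee0a87a0d0691e060efb5ac2b00ccb9b
def l377 : ℕ := 0x3772d87420091f0b85fbc43193fee4b5ec0350ea07f1f85b1585818c541bc731b8791e0611287c1c084
def l379 : ℕ := 0x3a0605a1500df03b9eb831033bdddf00e0370fcfc9118662008e2087b140662048d1e05a0c8270bc77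
def l381 : ℕ := 0x375168a02107900bdc01816f9bd2dc757d47a0e0c652041f0802e0b8562dc9a0a83b10c6e07c0e14500
def l384 : ℕ := 0x376318561d059f3f79fac7814812d6b26c0367f707b1e04b1645418c3f17055178821b0540fc701e88c
def l387 : ℕ := 0x3462e86d21864eaf660bc7d1e002e2f31c033df08a31d0701ac511dc4610c542246019c691648a1eccd
def l389 : ℕ := 0xa0f6c901c7f7eb7e204ffbfb3dedef00c1309c0043300bd314cb294ae0cc62198a427c792b03a27845
def l391 : ℕ := 0xe43a0e82b8b81c0672207c20c3dfdfd0f0bc5ed016130250d81b067c2e1f7ae4792ddf70d7732d4700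
def l393 : ℕ := 0x3d0127e6f84751301807bf9f9bdbf977ac0319f9c9d18c3a0b8160680e2841ff9bddf84602d8e11a81b
def l395 : ℕ := 0x357280681a042ef7b2f10a5207efc032be84491abfd0441a0902e1301f01445144360f443e4bf90a4fc
def l398 : ℕ := 0x19fcbbeeafc7fec672fd003a49001f7fcb32bdfbfc20cd43407efcf71c7302cf39d0103713c4604fe7
def l399 : ℕ := 0xde0338ed633efd82208c1ff93d4f13bfef7d2f2c2422ffd0483a1242a113ebfffd008cf9400d703306
def l400 : ℕ := 0x34e2905b1c43633c18feb96f2c2ef8bb4e5b85c006b3f42b06ffd0281611c3524044f844800fbb160e5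
def l403 : ℕ := 0x8e3f048f1330d6711d53d91b4e037c6df837ad27ea30c3400b8ed175deac2d1ccae37070fd791c0391
def l406 : ℕ := 0x6a2287f113cae2779fe0873dd00247e0d3716d740727ce928c1ed9700c17730548121c27eeb81ddf91
def l407 : ℕ := 0x33f403ecfbc2703ba7f1c4a0a3fdf07a5ee8370ebeffa80300c380440b020061c853107dc0b443e806a
def l410 : ℕ := 0xb911fffea354cbb00d0fdd0801f0381207c59133edd3355fb3d5050450a857348cf284881b013f3362
def l411 : ℕ := 0x363fb41d1a833d7300d701a05baed9fb30fc9d283e1d6f70e73e71289e08824328ee1f407e5fe5fc08c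
def l412 : ℕ := 0xfe97e5f2ffefa7d8fa036120100c44b2d500ff39af37c9f1bcef07cbf27daeb7a5f23b2ebb8ad5ff5
def l415 : ℕ := 0x3ffe8f90ff033044232b0e91f7a8c6b53fd0841b005f23aa110ab2dc12db700cbfb5fffea0c08b1abb4
def l416 : ℕ := 0x65ea7b0e43b5f9422ffbf3050151d48d400fdfb78aee3bcec7bcef3c4ee3bbe6b96edbbcedb80d3fa8
def l419 : ℕ := 0x3ae0785221c740abaafd0270b3dfddb62c774400c6d1144d1943909c1b0e8481dc5f0b8290e06d40017
def l422 : ℕ := 0x431fbfa0b028063c9f9c0201428f6b7bc3b00e74761a8260a4490b41514448184591044c184d723bbc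
def l424 : ℕ := 0x8ac00591d054f57b71085b0979eeffcf0fbfb033fc017fb0002507826f7fc5f3c3c08febf07cd38385
def l427 : ℕ := 0x382fa0041943602c0afa7b7e034ec7f06c032ae0c26248e43fcdd30c9f24c9122caa23c650e89a2f4a1
def l428 : ℕ := 0x3e22a46903fbada300cab9f028240affe0f444017b2e5b79f2828048220982f1d0b51e43103bbee8c7b
def l431 : ℕ := 0x6ff780dffca23ed0027bf5e0350dd7c000c2a0dc19fdff3ffc49250a317417e4f3ed5bbc1446314368
def l432 : ℕ := 0x312070351484308fddf2bccf07aee77a0ebbcafc41a1384211042110401585d1c85911840040141f900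
def l434 : ℕ := 0x2111803f335bc031fed459230b81b011fcffa0540afa7f8013d8e2761ed7ce17c9022c2bf8bb7ec824
def l435 : ℕ := 0x3cc12c5500ffb0c445130611f42df2376cb32fe70543a50026c36053abdd7b2faff60bc6113bf4047ef
def l439 : ℕ := 0x310f1c181382708404febdae6b93e5fa0ecbb3f3047190490e4250701c0540c0e475154430fc3b1f900
def l440 : ℕ := 0x3c4febf10d3ccd4f1cc736bf0bfe0e4752547208f98d1300d1bb20c07b1c847320fa0efa1cd79efb08f
def l441 : ℕ := 0x3f143f5e273ec0b22d90042349516fe1e3b7af2bc103c031102df23dff3ba40f5003a4bd177def43a6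
def l442 : ℕ := 0x26063fb00418f93fddaf24d8bcb0d4600affbfbb8ac73ed06802fd45728c90400e0193c5f1fc8f8c3f
def l443 : ℕ := 0xb7ed7d006c601382e1180b0e79dd2748d947d40004f33e52246c094320a01307401fc7f612cd33d783
def l448 : ℕ := 0x5c0c7cbe7764ccb52ef44024047fb792daf94103ebfd0611a82200819ffbe2010ab39d002f85f04370
def l451 : ℕ := 0x3aae5f95ec3e20946a2a0c72ec7ffff60c1b0cdbc0026cfb400baf5b67d7b3bd6b99f80221547919c59
def l452 : ℕ := 0xcd11fd0ef3d2fa8331483bff3b3e3f93ef8120e421fbff6078530e4640d413f57db0bc852804011f00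
def l453 : ℕ := 0x381f407a0650007bd2f1f54cab3fdf79ee93f0f57f90f41c230942208c2d896214bb127d90e81c15cf8
def l455 : ℕ := 0x36beec5e13c5c1380bf3f7ed7311e57a0fd7e0007fe05c251bc5e1f066190611b4a60e4120f44a1e500
def l457 : ℕ := 0x364e6384e3c32f783d354d815b9adff9cf53f410865294701a807087d3ddb00d2409140532f07316003
def l458 : ℕ := 0xef8ffb250ad0382114f91c037ee146101c11d6bb902800ff00f05016014040f82effb7ce689d2bc90
def l461 : ℕ := 0x326fc459190791841af7b9ccc313c37cffd7fcf1bf91d8471dc8823c8a22c87228ad120062287e21900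
def l464 : ℕ := 0x27003e4f337bde3a600c8839cfb400a616bdbef3f1047e1d9f59d136ed0331d8fc9f3fb6e4f7fcdba8
def l465 : ℕ := 0x3b80e03d1f829e573ec1b0fda83636900317d0e2795ebf9fd3b85e5011270ab3589407b50c9730eeca8
def l466 : ℕ := 0xda203bee4724c5f44ef83a1f039fcbacef40b0b411ef7bffbc10fc43cfd8301048a354bd17447f6300
def l467 : ℕ := 0x3d7fb0240645820c42f1faddf700cdba2f9430fd7f8074381244f1a05114c622203a03c4a154891e8ab
def l469 : ℕ := 0x46384bf1a3ef08c5c2ecce0e766cfbbd1f0c537847e1300c67ca360d813ba7cb716d6c0b06402ed742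
def l475 : ℕ := 0x5128857f5793c8757f34993287efcb61c034ce682515c4f3d864067d2e3364018d43c4ab09baef1f8c
def l476 : ℕ := 0xf318e33285e093e8e1368ee42918416ecb5bd57db1244410415eb3e40c86b25c830d7afc6700c7449
def l477 : ℕ := 0x336c0385fa0aa0e804de76ef142d2c0e91c440f8fd2fe7e40a753e17a9f002728c09dc725e505530cc4
def l478 : ℕ := 0x37fff7d5eef2ac1360d4bfff4ba6f402e08beefe3f1fe7f6e739d170b41a7d3324db400f615405f34bd
def l479 : ℕ := 0x3e40bcab38456e9b7eedf31d338af8c22fabc3f9bc2f6013fdfbd0d4862e45d380f724812d6f00e1c6f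
def l480 : ℕ := 0x3cb0af9ae6b7bf2fa1edc030d4b22a0721eb7cc03f918c24e8ff2fb3befc7f0edcb21241001394e000c
def l483 : ℕ := 0x3d403459188931f07102be5e4b63c0f34ddcb1403fdddff51b41d0681d0380e24741e3c2a0f0730e870
def l486 : ℕ := 0x9402381cc31fe3008269003d09701f84ce737e1ff11acc03287801b6dc5303dabe41d4ce32072fc381
def l487 : ℕ := 0x36a28810148151044303445f73b7c035eea07730fe0dd3df268230440f03c4019f9efe04e0a896f24a3
def l491 : ℕ := 0x631d86a23cc83cc742b8830e011f13ae058160c024ff03dfc45b03ba3efbafd2b45cd735e00050c700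
def l493 : ℕ := 0xa07774e7f90ea32fe502929900318911af7aca3e006811e9bc7ef784f07c8f04d3237acea38ae2f86
def l496 : ℕ := 0x3d41189d30c990b7acd1700c7f8706ca83e0f424815def17c1f52f5869348f731462f6376d2f5eefc1d
def l497 : ℕ := 0x32cdd7b9ec36ceb381e3f7ffb48925c2afebccf9fe20401905c30d87380644c2208a1ac43fec0d12900
def l499 : ℕ := 0x35ee281a1aca51e44e22758d4f59f3395e4b890a4331084219c4f10c330c85216c500881a11cb02a500
def l502 : ℕ := 0x6adb743d2ba11a90035c78f3769d4c011147911ff2fbf9cf17c9340760bfa3c6f0de2c5633cbd2af8a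
def l503 : ℕ := 0x33b0241e2a0cc25040f4b2aca359e6f79e5b72ef4161dcbf2c0ab298a12b8c72c05f00fbd0008127900
def l505 : ℕ := 0x100dbfb9093f3f6fe9fb041ee8002f091277ebc4bf023809fdbefdd3f4fdbf00085feb357d8fee30f25
def l508 : ℕ := 0x300c9feb0d89413809fcbc9160641a4620ac3b08be9f9fe7077b6e5368d0831f83c3da330df41c2f4c3
def l509 : ℕ := 0x4927c6f20c431b4c322040013bce9b5c0346f14814f7b98f289902c2bfd40fe4b00d6bd7ff7e8ee395
def l512 : ℕ := 0xfbf8fc1f4ff106427f33f605bfdfbbecf4412017f002fe20fc040580cfd4270b3d6f70110b04e06f00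
def l515 : ℕ := 0xfa06fcbc8b61f4021238a31a811f0facee3e8ffc1b043e510c571d41fef34fca7c1060ca3c85e07300
def l517 : ℕ := 0x7a10c0deabb4e4bc2e23890606a1b83ceff00ce3d71d4ac01fd804fdafec45204691a84905bdef03ee
def l518 : ℕ := 0x3ab2a82902c0005c2c0a86a0c77dc2b00ee0442a440eec3f050300ac1404bebf83e60d46f1f8b305026
def l522 : ℕ := 0x31af781c188610b3e9ef3a3e4f7bdcf81e8bd6fdbff07c3c1f87422092238971e054053e0f842d19100
def l523 : ℕ := 0x33cd2398f23d2f43cbec7baebbc0f73ff00008017f2f7bf7fa7eafec280a82f0b0250603706c5c29500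
def l526 : ℕ := 0x37fcab15c036dd9fb9f84020985f250981902904ffcfc3ede6369d737beb7a7f47fa114972d8ab1fc92
def l527 : ℕ := 0x346ed7ddfd7b4ea790dff7ee87d1fe81e120500cfe6ec7b7f53f202c1a144821f85e1584a0683f1b100
def l528 : ℕ := 0x3a8d5b94f8c2e0c81702807f4395dd382e67bafa42712068190681a85b0bbf80142509433204d24005a
def l529 : ℕ := 0x3bc400d52707b0fc020e49b25452e9738d5bb0f781c1e0953309a12becf27f213c79077a6f8be0eabfd
def l530 : ℕ := 0x368e9fe1db75bcbb3ee77ef0ec5c09be7f1fc4ff414fb03108007eef86e4bf1110c0290a614c0900d00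
def l532 : ℕ := 0x4509b5b0872ecff00df48a2bc810440105c79f5bcd0335cfefddf839eddbd21d89719fd1f446422347
def l535 : ℕ := 0x11d536ad1b00c676df340d0f8290f84c0b3f9f9fdbf27e6fc801f8bc1d67a3f801a218f11542f1706a
def l536 : ℕ := 0x3bce5b6ecaf7de739fcbb48cf7b52390036c7e08796d430fcb746e603f3b4bd13bf206c3408001feccb
def l537 : ℕ := 0x1915f9cec391c6b44e600b1a50031c39f0fb504018f2423003a8dff870a043134701680f0a861f87fd
def l539 : ℕ := 0x374ef75bd93b2f006704776e4bb4028871e7f5d9fca12840fe3e7f17b406ff5f63e508cb84004ef6087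
def l542 : ℕ := 0x38fd572aca3b10e0b31e7b3db3bdf6fb3e5bb607054f60a21300bfbfdef6f9cde773f3cc7400c813c44
def l543 : ℕ := 0x3a7f9381dabeee2fea0344110c96137d7d5360fb0b016ce403bc4e63c200c0c0483a07003400da0ec17
def l547 : ℕ := 0x39f18bd3ee7c4f1334d8844235001efc7edbc2f607419be1ff7f4f67b1f983713834003a22a4dc17f77
def l550 : ℕ := 0x351dbb6dd7b4cd3b55e7ff404c1e033ebf13c0f54040b4380fc2208bfaf68331b49532cc42cc8c20900
def l551 : ℕ := 0x69c0367dbb97e9fe0e1363de3dd1f0c02b86b0bfbed7f54d9794f6c0f25ca8123d9f90430ac3a1882f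
def l552 : ℕ := 0x35ac9b51e6fc4f63dbf8761c8328e23ed1385d14003e0babeec351ccd2400730f47d0ac8024cd2370e4
def l554 : ℕ := 0x46f67f1e3f00c9734e9c3e27cde35894103d7fb7a4e1fb3e3f88ddb6ee4bb9054091b456d733cc8ff3
def l555 : ℕ := 0x3a8fe45127c4e19c8f3003de7316c034df201a1b06b1986c1805b19c5610fcedbbc0f0c531f0902c42c
def l557 : ℕ := 0x39b160803b8b22d0ab0e805e2f19c0350ef42f1d4672389a1e86b1984e0d002fb01af13b21689a3ac38
def l559 : ℕ := 0x37821c80123de0405d2a89effb3ac034df584c1d8711b866118380e420f8f73c67b9ff0601e05311458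
def l561 : ℕ := 0x317f1c0c01fb0f0006027fef7fcffcff9eef7ee9010194c61e00cf1bc3f03b9eec181f48500fe406100
def l562 : ℕ := 0x319dff96ee7eff57d8ebfcefd80900bf7f5fe4fc3f307c240e0170500dff4450e43c0fc100cc5a29100
def l565 : ℕ := 0x57e632fd5b44f5041168711d028f2795eac5d2e464f37f2133f5fe3e1fbb94d8ba0f287b3150030f82
def l569 : ℕ := 0x341efece9749cf300db8322f4f42f48211004f47a5e8f84da370da35fd87bc0644a167f2d8724c2bcf
def l570 : ℕ := 0x305dcf6ee7f6bf1fba00007fcbccea3abf800f0d835fa41406c4a0c441067e4030581e09f2309d2b500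
def l571 : ℕ := 0x32ce3ba3e9bd3f0bb2e7394ed7ddf93e6f7bddfabfbfd02c0d82d09031190551d09b1d8481507e24d00
def l573 : ℕ := 0x3acf98c1390692044e367d7c4300e981e0f3e6eabed224ec0bc220945e0d42f08f74e6fdaff03b23c86
def l576 : ℕ := 0x3dfd94bf2e4a9290a41efead3b00cff7ef580918c5d0c45d184a92508d2244af5bafe83ef1b8892a887
def l578 : ℕ := 0x7308a707b71eb3aa1d45cff7b6f03fa1f8a11e008c7700c5fe018ccd25c0ee73abeb002f6784ddff0
def l579 : ℕ := 0x3e0e342e2349a2a4da28bc2d3b00c8387f9042240811e06b1988823c791c431ea380e0c34378f837c5d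
def l581 : ℕ := 0x7dfb701c6bd0fcba9cd40b324fd23c430546cfe79fdbf00f03f2fe40702bfe270a6073360442f0b339
def l584 : ℕ := 0xa4ea355d942d0d808ed4112284df57b5fa90032c23e371c0542905c0a0302811ff4e1fa1299002b332
def l588 : ℕ := 0xcc0c819eef82d13ac04c5f2e8e222c21f43aff2fdeffc2307be0da747c0381f6be60c41de8f81e0b60
def l589 : ℕ := 0x3c7d7301d2fc2ecbe002ff4f97e9ff4150bc2506bf701c04f840a02846023f9fa8570a45b2b5003d003
def l590 : ℕ := 0x3083aca12347d09fce0c8a615bd3d1703c4f4decc71314f033cb32181b033a9134a11d7e806ff9f6900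
def l592 : ℕ := 0x3b1eb8381802010ccb1f3bedd34ee5fc8da76417c5d10c5a0b80a0401100843e3300000b510c76fe08c
def l596 : ℕ := 0x3abd031fcdfa8e23c3f77d6fbc02fe801060200580cfefeafd0110640c0d8100485a16c4f2dcf640038
def l597 : ℕ := 0x7ff83abd5f00f07bf0644a1b0c533471ef39de93fc1784d1c3b5c8f57cdf54ef3adf608723fdddcb98
def l599 : ℕ := 0x369328d319041f8bc21a8a321829e5f43c035fee0572fccf2f0a612819dc3ca0684415c180fbd6ebcd7
def l601 : ℕ := 0x6ecd381e373ac6bac038060f024070413885efef52ea7bdf8fe8fa7e5f23aef97fa1f030f502e39f00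
def l605 : ℕ := 0x302f1c251a05e0e3f9f6fc7ed398e0b82e7bb7f982b13c7d19c61168591586e1a0540dc0c054652f100
def l606 : ℕ := 0x16c033ae0fab1a08f1ac18ef396ebfaeea7d00b0660986400c0cff014fc39ddc394f007b2c0a027bb3
def l607 : ℕ := 0x3e1c0339d73d0ed8130a7fcd974adf7c1f340302bf0f53f11505e258e72abbef6c5a1f4a0298bf2ec90
def l608 : ℕ := 0x3cbc03adefb11dff32e1c15254b21c3fcde743ee0be2f8ccf8f95ccb1fd0fc0f74360e4521443d307e5
def l609 : ℕ := 0x2901c19fc005d7b00c1f740848925c70137f1ef81d12b67e57d7fcbfc00bf6fd01310c1ee7fc50f461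
def l614 : ℕ := 0x33d187e7f8b7504c632a8a92140de0f69e93dcf084f310922d052fc35cc0349de7ae1f47d22814ea422
def l616 : ℕ := 0x9be876ff34a42150010777cf3c7f979ff1ca92a80ce5f4b0200702c5a3945ff1f64d43d3f98a61b7b0
def l619 : ℕ := 0x372c5700cc76be6fdf0141d0b4371003e0b0110241a05008f47c6eb7ace8fb8f63ee1048d31cd23188d
def l620 : ℕ := 0x382c3700d3379ebbed0240f03c150902a07c100381902002fa3e0f3fd2f23cef33fb0b88a30cd230c85
def l621 : ℕ := 0x32deac3801fef0a050160580c7dbddf35cc356f5ca7400fb21436fafb6ef40108423160bd1ec47118da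
def l622 : ℕ := 0x3dbddf80fbc683c900257fddff54d677bee01c1301c048311d4771802a027b0e0b7dee0292bcbe14399
def l623 : ℕ := 0x397c0342ecb94e0fa2ed7a1e5bcd0e46514c470f410ecfd7f1bc6e742905808ee0170d88520c9c2a46b
def l624 : ℕ := 0x39acef85fecac3acfe25fc7ddb00cb37df5010067e001425258b017c4c053b9d5799f00092acc41e3ee
def l627 : ℕ := 0x3782fbf5007d4e8b00d07b81f8890301b1b4a6043b40f753feff6f83ffff802130050c3c6f7c3c1ec61
def l630 : ℕ := 0x386f943005792d0f00c97bc164b12b87b073b6e9be802423f1baae6f87f6063268bb1fff1deba9004d6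
def l631 : ℕ := 0xc038ceb35cae2fc8e174400840afd3ddfbbfcfeff2ffc14fb43efcbecf53b8ee36cd8f44cff35cbb00
def l634 : ℕ := 0x36fc5f00c2b1ce47a6f8bddf1fd10303c134661140eeff85fcbaef4c2509815ff020180dc3a8bf2a4a3
def l637 : ℕ := 0x3aec034df6fde05801efb84ddfb0028501ac6d0b3dbe9b83f680e048380f01efc7bbfcc2a24cb42d424
def l638 : ℕ := 0x3a2cfb51ebf00cab5ffd0501f45f083e1ee7d10343e0303310c17f5b86ecfd2ff0592a8982609e25c85
def l639 : ℕ := 0x3e1ecbc61647f400cc1eff6e5770e03b7f980c0380606c261185821c3ffe394cf38de2ff51287313f81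
def l640 : ℕ := 0x332d2b69e87f100ff4f0b9be0797f6c30150470a7e9e640afc42e0a42f0303dfd01c084312a8df40036
def l643 : ℕ := 0x30c2207428881153faf7fe6f3f95da37bf03e8030151445a1ac6f1b0731dc5d1dc91033dbf382516d00
def l646 : ℕ := 0x373c0f5c07cd2400aef7343c1b27f00361644b083e7f17d3f781b0aca00b822e3f60dcbcd1eca62fbde
def l647 : ℕ := 0x35f1fc450ec33fabcc0782400fc1e0b7eebbe8068210d83c10c491345113c440f44516c04f90310c100
def l649 : ℕ := 0x3251d47817c6bfbfb610c390c7becf728defda0a040168711b47b1e4891c8681747914c1df2075400e4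
def l651 : ℕ := 0x3072007818c8407fe10e43f107c8c8b03d0bcb1186e21c88200842309a1d05f1c45825ff4034963dd00
def l654 : ℕ := 0x3312a4430b4e00cfa404068f2f86d2b27da3b50bc6c1b8371844c1545d1c02d1408716bdd0c8af13500
def l657 : ℕ := 0x36900fe9f3354c5300e3c43294a5173fff1fc9fc82e0ac33047cbdcf62e801623cf52fc1af4fdf0e0de
def l658 : ℕ := 0x3030a4981f89b22839f377cd334cd7b9df8c440fc130182c1b87d220912407b1cc5cfdbff0c8612b100
def l660 : ℕ := 0x33404c861a46715823fc388dab6be43c30340b033fe13c261304a150551705b148670b7ea0107423500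
def l662 : ℕ := 0x3f70abbbff02715858340f417b8ac1b00e301a2806d0c05a10079127d6d470cd1c0e1485a27489f3b6b
def l665 : ℕ := 0x31f0b85e160660e7e3f13c3ebb99e43a4f400c07c0b0b82d1585f1986c1bc6a19c6010bf4fd83420100
def l668 : ℕ := 0xdefc3e108098308b211baacc32ae03f81506f153e6e03a1f5c48335003701aecf6dd3fea1888809323
def l669 : ℕ := 0x32b04c2e120450e80cf5bc3ec3a3e93adeeffd018331304a12c4b1384f1484d190530bc150383711900
def l672 : ℕ := 0x322fcc3715c5712022f279de178ae63b7f1bfc080120f449158571645c174571d05904c0105c551fd00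
def l674 : ℕ := 0x210442e068641c49f2106d0d3eee7b50d4757f24502cd002687efc3a5e3783f87abf800a0700af87c8
def l676 : ℕ := 0x3170144e17c621642bf9faae2f7fe1794f57f70b82c118531685d1785d158521f85a03c0f09c7721100
def l678 : ℕ := 0x33105c411344e11023fc3b2e6792e5ba9f70030c4240ec441344e13c4e124431b45200c1a1104715100
def l680 : ℕ := 0x81cf7ca198ba14012e5799df3f41a8680ffd8debd80bc4206803ff7fe06c641d00bf036bec0384039f
def l683 : ℕ := 0x31ff8c1e1184a0fc2ff1baae5f95e6baaee7f407c3912c5015c5416058178541e43f0d4000a0591fd00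
def l685 : ℕ := 0x3682f810edf6fdf376d94172e8ca13bb9dcbfa0c3d8f9feffffdee1f2dd67e0fc4c825ff4f574ac006d
def l688 : ℕ := 0x31de7bf30883400beaf47beebfafea7a5ecfcefcc280fc5a1605712c411084714057158210585027100
def l690 : ℕ := 0x31becbf81340f10404f4fb1e8f99e6fa8f4bfc088190f84313c511584e11451148550d4260d46422900
def l692 : ℕ := 0x300e84211145f03000f2bb5eabb2ec3b8f68100d0390a8501986d1b4611a06a1c4801b4360d06b288c7
def l694 : ℕ := 0x32fa3f4d48261f4c240062e8bb8047e0def50db04a28ca32b06c020120438ad2b4ae08122c875113da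
def l697 : ℕ := 0x471e8bd3c50039cac16800e9b59cdb27cf770ee3f810c8a30cdb338a417000ec75cc7f05c4b3ddf7b3
def l698 : ℕ := 0x6a2b0e6400eb2c05bfffabd8b3ec8f26d1b7cf0bf60e8802e0dd36cc72644f03bacd4b1fc1718d138c
def l699 : ℕ := 0x3a502c3611817f4789d7f74f68451647d309003f468eaf57d074fd4f74f7c6c24c9e1e442ff7f600c6f
def l700 : ℕ := 0x362ed7d5f5bef0785e2a8c42e4bf2143c063cff2be9f9c18fcbc9d937fd472dc0365e3fccfc7ecfdcb8
def l701 : ℕ := 0x300f982f13c641804408bedf77cde6b6cdef7ef2be2fa8171046f0d8460802bfcfceeaf8ee9787e0cb7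
def l702 : ℕ := 0x39b174a22c4a21dc4407004010210d4371343e0e009f97bbe6f94def9eee3bcf63d4f23a6e6758c03ca
def l703 : ℕ := 0x3fddd337ccb4bdf7bdfc80bfa3b9f53dbf73d7f54130bc4a130611506c2284e0d44716861194722bd00
def l704 : ℕ := 0x300ed7fc04813fd3ccebfa0ebbcff77e7fdc0204007000120a0220dc4a12c59184541041f09c3308ca0
def l707 : ℕ := 0x36cc4704c9b85fdc63278b5268761bc650f01efe7fc007e5f23a4e6f8eddf46d937d0106d360d8400a9
def l709 : ℕ := 0x8fdf726c0318d77b1f7be0ed3adf3812ff80df9c4211c411b0641a466170df26c9a26496278962b0d6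
def l710 : ℕ := 0x3000e0460f40bf0b88e43f91286910bf101fe3113d80784f184591941c0cb8a1a4821c4641448422005
def l713 : ℕ := 0x41dbb25ce36ae97e0ff014fdba9ecbc2efbebffc3105c591948e1e085264711785712c491205420500
def l714 : ℕ := 0x3001385c05fd5e3f7ce0bbd074751cc310cbd0febe60ec651ec1e17824ff7d818494258921e487267e5
def l717 : ℕ := 0x69d9b2dc9b4fe0bb8f43fcfdbb40682208831fb8460c44c12c3d1584918877224912247b1e47420100
def l719 : ℕ := 0x80fd400038381585d083d9df72fc033dce386ee42aff46f2c8be3ecdc2dc6604fb4e4b89efbb2f2bff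
def l720 : ℕ := 0x100df36efb03813c6a0e43aefb4bf3069210921c053e1f87d6f57de3cb1b452f87b0eeb95ea3baf0c94
def l724 : ℕ := 0xd5f3bed138652309a21485330e41342300842143edf7bb3ed3b2e4b0acb784d8b00c5325c636e1073d
def l725 : ℕ := 0x300c938ae637fe57abdcba0f042b013f8f0ba8f33df128b31f473130101cc4e290252f8e12c4b42e8fb
def l729 : ℕ := 0x390d931bc8749e33c6f6bfb0a3d7e276dd8b87f07f303c5927cc13445c048320ec1c0e07324ce8400fd
def l730 : ℕ := 0x379e0fe7023fcf8bbcf57c0c03870b43605fd1e240d1185c0bff1010913987c1cc880e4290507839494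
def l733 : ℕ := 0x3c9e173fc2b39db3cf05bebe336eefbcff23a0e902d1686315c5f18ca84007e0804f2287b258a326cf9
def l735 : ℕ := 0x49158bb3e8f22a8871602b0182607c56234af1b3cfeab4dc7719de75cdff6dd2f35d4b46d274ddef00
def l736 : ℕ := 0x367d0759e33cd0202304400fabb6f240003c3b0f823ffbf3ff4080e4330d4360dbff00003034392c100
def l738 : ℕ := 0x38fdc33fd1b92f882f0f7f2ecbb0ef7d4fbfedff83b10c320f059194612d09e0a02a098321347524d00
def l740 : ℕ := 0xce2a473fdb82cef87ff010ff469f73afcc300d07d3184ee334961b3e30f810f78502d8b20d3daf1311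
def l741 : ℕ := 0x3b9ccb00cbfa405035ffc2009344f43de01838094230cc471947f2409622067170551c8701e0882f8ea
def l743 : ℕ := 0x38dd8b31d6bbd0340efa3ed00f860281c07c0d000280bc7317c581605d1c06b180942006e16c6020500
def l748 : ℕ := 0x9ae8b82dfb8ce87dafcc541c03b1f4b43149107c0207b90deb5ce8fbdebba9113fb164651d89440386
def l749 : ℕ := 0x349e679ce5b9deefe003c0800ffff8fd2eefb4f6c0b0844314c5411c3a0c822fe8180bc44154871fd00
def l751 : ℕ := 0x332e23a2e1b8beb7d903c06fd406febd1f1fb9f9c36118601b0701a86e170690bc4c1746b1e08a2f900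
def l753 : ℕ := 0x300c6b63ebbef078340a3fee9f96e4bbfff0210d4450cc2311451214892245318c2906c270e8643d8f2
def l754 : ℕ := 0x3b42c843f274ec1f00d8bd12ac70190a2077b8f6c060c84b1a46d0984d0e0ac30c861b48116874f44fb
def l757 : ℕ := 0x31af1b89e2396edbd1074110c4871c038fb3ca0442a110881fc6b0b8170ec691148e2848524cad1ed00
def l759 : ℕ := 0x300c9f82e77d50503c10806f83cfefbd0fe0040586420c5a1e87d270a01c8681043e0f0591ac93364f8
def l761 : ℕ := 0x300d1b4ee6be3038310f7f8ebbf1fd0030782c2304109c4e11c601dc8f2b08920040178411a898318f7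
def l763 : ℕ := 0x371c03b605c4810bf2f93a0ee3ac05c8325c5af2c320bc0b007edf842b0b4882ec90ffffbfcff419cb4
def l766 : ℕ := 0x37fd934ad535fe3bc50301f06c13fd3e3f73c0f4c01058321544f1103c0c0150382e0ec5319cac33100
def l768 : ℕ := 0x375e338be179df03eb02002f93e0fa3f2fffeffcc1e08426090220d83516c45114350e03a0ec4817d00
def l770 : ℕ := 0x38ad4b4fcbb41d8ba5f9440144400e002003b6e90351a488280ae16871094422048c294b72f8e43bd00
def l772 : ℕ := 0x337ca755ea7fa0f45e0fbf9f0f98eb7d90183411437fcc14050290f84a150980bbfbffc01ff44e28500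
def l773 : ℕ := 0x39422461f3f43c0305e63f10c47a2347c087bbfa40a0883912c3107c2c17c2d108971e0741784c0509a
def l775 : ℕ := 0x3b21a03bf1751c0303da0541006e17c3309bbcf282c1205b1a4841b86f13c2b17c7a1986816c711e0c8
def l778 : ℕ := 0x347c1764ff085364e01d813ea745c5b4adfbce0103d0584e1a49b29c8820032f9b56cf366e4c3f33900
def l779 : ℕ := 0x31d1c825e5708c6763e47f10486e0dc17f4b5d06c500bc501c06920c342cc301bc780782d1003b11500
def l782 : ℕ := 0x372d4b5ddffc30241c07bf2f1bde08458118610d42504400fa3fa0d41b2206c1405d118411285514100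
def l784 : ℕ := 0x37ec6b3ad67a3ff8181443c02fbafc84509c310ac1915864160652048e1e881184521706521c902ad00
def l787 : ℕ := 0x521285319c751c45705bcbcbb0cc6b77f802c103daeafc1028733a9003a03815406f73bfebb9bdc75f
def l788 : ℕ := 0x450fc36037f4f7fe3ef7fd00c80214e13e0db28488fdb77c7b00cef4fe77ee200161b0611741211fbd
def l789 : ℕ := 0xdf350c12343cf9fa7d573fdbbb3f7ff4f87c9f201f0f03e067ff01c41268a42d02610bdfe2f69d4700
def l790 : ℕ := 0x740fc1cf8f9bdd7b10b0cb334e14006ef5b75e1bdc1209c1b401e333fc6744e982c1d8551302d0bfa5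
def l791 : ℕ := 0x363da773e6baff3bdef6fb2f87e6fdff0020300d017008010382e0844b188670b0310f4461246b27d00
def l793 : ℕ := 0x349ce336d6b90f3ffcfdbf408c1bf97dd010410dc2f07c270e45717c4d1884f120451588a268a035500
def l795 : ℕ := 0x318d8f6ee7fbcf8bc5fb7c4ff3f306c120501d0803a0f46f0f84514c731dc6d168b418c651ac8225d00
def l797 : ℕ := 0x324c0302d179ffc83907c1611452f8fc801c71104620e4271d09b23063170741a84d2349f2c4cd3d4f9
def l799 : ℕ := 0x320cbb3bddfbbfd7e8fb3b3fffe607c370fc6219847158201303e22c992e4a5260821ec87244b432500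
def l801 : ℕ := 0x321d5c130e3f3f63d1f044a0ac8cfe392e83e90784b044972646f127f8fdc12180542081efb3e405100
def l804 : ℕ := 0x365e43a7ebf94e0f90efbe50702c12ffef53cefe8050b85e12c3706c0d0645d1603d18c541346d2b100
def l806 : ℕ := 0x353e97bbf0bb4ec7c3fa3fc0280206beef97ee0341a0d8300c4340d44012844128360dc370fc4c1d100
def l808 : ℕ := 0x398e176ad7f29caf44f10322508c0cc06f4bfe19023fe08c2a88d1afecfa85c1f8a32bcd23910037ce2
def l810 : ℕ := 0x36bdf786de35bcff5eef00305c23127f4fa4090483e28c35224631bc6b1d89321c8222084244b23dd00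
def l812 : ℕ := 0x336cb734daf9ff7bf9f94190cc0d0ac29fcfef11480f946c164631b8811606b1e055170691d89638100
def l815 : ℕ := 0x36ceb3bef53ace2b70de375f37c6fdbc4f1be7060150003a128360846c204681f45818c51144822bd00
def l817 : ℕ := 0x3c2e5fb4ebf97dff83ddfa4f5001f6bcaf3be4fb8230ec2d1747817c5a17c411843b1345a1b46f4009d
def l819 : ℕ := 0x388f97ddf3ba9e074be3b6df23ac02004fd80b0880a118420a43d10c741d87318079180621a47116100
def l821 : ℕ := 0x34ac1f00d0b92f8843240b82dca0143d6f0f98ebbd610c681102ff638fe0345d7faefe4291dce4348ef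
def l822 : ℕ := 0x1002982df97a8e5372d8f49fb826007eee77a5f8c571606728c0bf83f81985e208661a47320476f8b5e
def l823 : ℕ := 0x33de038fe77a2f6c21df755c034901ca129c24fe41eed465fa0303cc781741c0840806060268ff120cf
def l826 : ℕ := 0x339f940a033e9f139ae3795f8faf007fb0ac3012029f741a008231745214047110461143f0c83a13d00
def l829 : ℕ := 0x361ea79ef98140384fd5f82d5b70e6f8c0f04303416f03f90e84c400680f86318407fdff90001c1208b
def l832 : ℕ := 0x355e1781e93a9e9fa5ebbc0f4bf1fc00a09c3c0f020fabebfc003068330f0360c847104511588d2a100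
def l833 : ℕ := 0x37bdbfd2eefd4f4bdeed3ceecbcefbbdeeb78ae47e60942d178521a46522435124190600e0803e4006b
def l834 : ℕ := 0x300e434de1772da381f780210fbdd5b74e7b76d23b9f67d5f809e3249f123e8fa3e3f8fd9f540c3fd00
def l838 : ℕ := 0x351de79ae478fe3f9ce87d801c240ac12f83d4fe43e0d0581182006c380a8461685b1405a1847e29d00
def l839 : ℕ := 0x300e8be9f47fe05c6b13ccd0cc12f53f0f7bf6053b1e577aeebd00dc35e6383e6395ea3bcedf84ec8ce
def l840 : ℕ := 0xd9d3f00cf377f80352408a19fc5e07b2fdbede2ba0fdbc8098d03e83ffebf3fc3eefe0000386c29b7e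
def l843 : ℕ := 0xb9d5744d678cfaffc2249b2d7f4dafa101c0af5baefebab078f540019e9febfc80301c080208637383
def l846 : ℕ := 0x10036cb91d819f338add369efbc2f4b89d2b38da0151e8bf32c830dc4111ca31d46b08bf0e0b53cd316
def l847 : ℕ := 0x362ef3acea798e2b85e53a3f30140943b1085a1f023057f2fb811014311dc741a8781d080228821c900
def l849 : ℕ := 0x9323c1c11426ff7c1df74cde00e128b7400eb2144d01786d0b51e9feb20095198580dc30114860fb3a
def l850 : ℕ := 0x35fca77bcfb49d7f9ef006115450023bf0384c13c290c4271547507c0cfc43d1ac921d49228cc435500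
def l852 : ℕ := 0x33add3aade362d7ba1ef41d048410d4100681413c351bc650f4250c43116c7e1a8981f8812149c2dd00
def l854 : ℕ := 0x365c0326d2bb0fdc13f7fd4f4bfefb4330602fff44902820098491cc7f22866118140cc531f4bd35ca2
def l857 : ℕ := 0x367e9f91ecfaeebbbaec3c1f400d02427108490c0220dffffdc240f84f1304c13c4e1445717c6c1d100
def l858 : ℕ := 0x30f39089358700840aef3c0f103c0843e12818e67cf233acd4b81de3c7f9be8f57b9e9799e0b32c00d4
def l861 : ℕ := 0x2b3b90035056f4762cf76df2c5421070178350904f103f9e6b62dabb5110731a88a0bc1cf9bb8f0bb0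
def l863 : ℕ := 0x3dbc1f64e8796eafd90544404ba9d0743e63e0173b0ed029289003d49cf33ef06c2b13020f6c2b1cc34
def l864 : ℕ := 0x80fffd9f0fe3ff01bfefb1c2f19cbbc408c741a00cea393f64613d9003fc1efbfd6070140dc2800f8f
def l865 : ℕ := 0x3322d8901482befb63ca35ff40021383e1246a1c049064270b3c61345a0b826090280c8340e83e1b900
def l868 : ℕ := 0x34e2446703433f0b8fd4700e0002174441245f1a8520843800bfe15c560dc40104481145111457244e0
def l871 : ℕ := 0x34ae1c17fdfb2d3f09ca369028242ac31174964005af700406432fc43f2389c284a82b0c3318cd3acde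
def l873 : ℕ := 0x3720008413ff0df34bd3b9cedbe20485211c5a130500d04c078321d05e0f02f0bc3811c411204d1bd00
def l875 : ℕ := 0x3032cee28bf5ed00c2187a1a7d1e03b702c992b7a4d5b3300858e8371d47ecfcc04033f0e031ac0023
def l878 : ℕ := 0xd42607604bfff9fdee8b6dc8f31c1f69f1c110c7ebf6fce110a5400d53cc840fc0402c0602392e8f35
def l879 : ℕ := 0x37af7fd0f6362c8b00cab5afcc33247fb0e02709c6e1c8681e81df7c2c254b0288b52c0b1328d532cfe
def l881 : ℕ := 0x375d2751ed3c4f5ffb03445f27c5d3332d0f6be6bae08c462b0f6400af1b7bf0c3c9003d0f841f0f4ca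
def l882 : ℕ := 0x3b13cd003dc6ef5799e0bf1088390d7f60d4802a850023fbe3769df7d0f804e0ec16013eee5799ef456
def l884 : ℕ := 0x38c12854f37dcee36ed9f0001fbc0d47717c570c44830c6303bbd040962244514c451484d2309e3c868
def l887 : ℕ := 0x3d8ef7bdf3bef0b7cfdc700d7794040c01c7f4f380510461febb51d8b611c4b03c3603c4a0c43519c8a
def l890 : ℕ := 0x56107eef93a4dd72fcdf00e240c0d82a0e0661583d21037067faf9427210dc250e92a8a6290d625c0c
def l892 : ℕ := 0x6edf33bc0340e480f150b51dc1dd5f5fd7b61dffd6f58311b0c52cbf9e639e01fea1641f0c813f0c18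
def l893 : ℕ := 0x37b05462fb3d0def74c0381e17b80401f1001e10c3c13c3a064191046019c731b0601b46c1c06d1f8e5
def l895 : ℕ := 0x9e8790ebbcdf73c2cff3fcafb61684d1e833e84031e432fd8482b49d0c02604006014302a9003844a
def l897 : ℕ := 0x3282bc7c34889dc323c17810344af60100f47b1e847027d5fc3f90f8300841a058250b80f01c15fd500
def l901 : ℕ := 0x36defbadeeb9ae377eddb5bde77fe1ba1f9c2e18027ec7df0686c2bc9b2408c1f07e1e87a1e8af31900
def l902 : ℕ := 0x3c4cebd1eebb6e1f66ceb9fcef7ff5403f0fa3df3fe208832603a018aa2b499400d5304b319c8118887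
def l904 : ℕ := 0xeedfe1f97e003445100c2ebbc51008d360d439818ec75dcc752f8c21f4700f03b6fe8290884a13bfd
def l907 : ℕ := 0x34ee239ddf380ec7e501c29f63c3e87c2fe4120880ef97fd0886816846098010100503883230392fd00
def l908 : ℕ := 0x3c1f60110f82fff3b0e3b6a0b405e3f5cc030bc5fb5128c63f0cc2203e00c9b16c5e033d9e7fb3f9827
def l909 : ℕ := 0x33201fe9ebfb408486359003ac9ceb34eddfa0eb3b4e43bd02468efb6dddb49d6f5add372d8358cb49f
def l910 : ℕ := 0x300c8bc00745412c260a460260891143afafc1eab94f3004037d9e838fe6375ecba6e7b6de178f064a9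
def l911 : ℕ := 0x363f342f2d8850cfe9ed36c00432305002405415033e93bfed769f7bc3d9bb6e23aaf73d9eebe82ec35
def l913 : ℕ := 0x791ac5f24c57f475dc1f00c3b781d465208651245b1a412057f109c89208882347c2646d1f8903bfae
def l915 : ℕ := 0x7ccab00df3a3f94311dc62053a203c27fd7b6f4fcc164c319b8ff5c2b1d83c13010027e913874183fb
def l918 : ℕ := 0x80fd788cef5f04cc2400c41cfc5d8787e0faaf4bebf6beafe8480dffaedf94e8b99e83caf13a2f578b
def l919 : ℕ := 0x222f5002ac3103fa1e779312c48f140b138a82ac50c3746e642a16faedc39dee7e5f3c3df3b43f2fa4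
def l923 : ℕ := 0x82ecb2ed1b9efac5b1c872f9fa5ec300ebf54d37ba18c852209f104c81d0c8fb7cdfffcb0d49cfeba3
def l924 : ℕ := 0x7ac0334f6024fa81810c5312fdd0c40cf1bd1f5bc8fcc0bfa3a406ff3ed730ecbb7f6782f4be53b76f
def l928 : ℕ := 0x3690bc14f3fd70806b22d001804ef039feafcbf4be5f17d2fa056f2f93dab80e1790e2f94e4f6fdb458
def l929 : ℕ := 0x35cda3d6f3805130973690026c47f6be3ee7bcfa7cfeebc5f77e4eaf76d3b5ad6f57d4349d5354e708a
def l930 : ℕ := 0x32dd1c2030cd800f61d4f59128aa274801644c15423087e5f979af8b99e0829ff8700136cd58162c500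
def l932 : ℕ := 0x3fcc034ad73d3f200302bfcd9ba309444f0f68c8fac3d0db233adf58563747b0dbeb0780b2a4a91b07b
def l937 : ℕ := 0xf530c850fbddeeb97e537bf9fcde8337c570ed8bed254ed400d8124380409d118610bc5ee6b95d0316
def l938 : ℕ := 0xd42586b1684dfe3cbe9fbbee8011ac9a2384a05c31073cae3b70de7ed0dc0819c601c3d7fd00be3f00
def l939 : ℕ := 0xb0344ee1b813f0387d8f62ddfa611d00360820583c047a0db75ef4c311d44e2f4802bc2509388ecb3e
def l940 : ℕ := 0x36de3f88ebbb6f4bfe0040eecbd0ebbca064561e83bef3ee100681145a1384b1183b12c6c0f86921900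
def l942 : ℕ := 0x33fd4b5ed4b79eb3f108810fe3bbdef90fdc7e3303efc7ff1689a300b32488e1f46f23c8c290aa3a100
def l944 : ℕ := 0x300e5faa03012037e3e939be2ffb02bff01c2204425fc03e1a06412c6a19c831806d1484508c43150f5
def l947 : ℕ := 0x851b06304c33007cbe1f70dcf6dd4371c03cbe6c2a05c6d2f4b921c8f2b48c1c42dfa3e610f33eb37d
def l948 : ℕ := 0x387ebfc7f078ae4fa3ef3dbde79bfd06c130a42502c053bdf1c1916c7a2007b1cc751cc6d2409421500
def l950 : ℕ := 0x347f1be0f0783e179df0bd6e33a1fe8471886418c88f97daf503f18487224801f47c1e0761e47e34d00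
def l952 : ℕ := 0x360ed3cceeb97e87aaecbd3e37aefc03715851158350e3e4fac3b1947a1e8721cc6e1b0691b4792e900
def l955 : ℕ := 0x3d1f2c23da394e1773dabc1cdf90d7c32224d325873e97a70249c2508f2288b1f07f21c7a2848f34900
def l956 : ℕ := 0x347e7f0029c30efbf9fbb54fd75131837ef356e93be37cd116b50184c0314611c45e1a0100acb41945f
def l959 : ℕ := 0x3b9fdbdbf1785ec3a2ebb81f1b82f3441004801e41bfdfe309861138651846216858174581508a40074
def l961 : ℕ := 0x361f7ffdf9bcce576cd8375dc797fdc2e0d0650c843fd0031146419090204711a8641b85e1b4842cd00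
def l963 : ℕ := 0x3f4c8b6cd83c6ddba9ed010dcfa6f500f087f5fc44416421014340ac501bc0b0d01c0d80c0ad0027881
def l966 : ℕ := 0xe82486d09481053cbdb741cf344ce710f6f56e180416c9222cc034ca627d001642eff32c0df95e3f30
def l967 : ℕ := 0x35400c71b00c0b83c0b023e9feb0b4970c4ab08851f2790dfb89d97d613779090290e84ef9f90dcf6d
def l968 : ℕ := 0x300050792782bf5b64cd728ddc242946e07823050101943c10bcd09842238890c4460ec391744b078ba
def l970 : ℕ := 0xeb0743f0101dfffed013fd19c22fac3e1b47010c08f6bb3e7ba6fe7bad280bfe44607423fa7bf02700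
def l971 : ℕ := 0x39ff700ce395114831d3d7df7eb0f03afbc20fc04c0a3d1ef765090240803ef3bb3f5019194b008bc7
def l974 : ℕ := 0x70ca3a9f1bdce6b66d9771ecba5038a936c872306805bace1f9b1c0861e0952608d22c882f8e740035
def l976 : ℕ := 0x46ec300c8b7106c6c19013de7ca11c1cf3fcbf3c2e1d42af8b85fb020227e2f9be5f8bf6150f304fbb
def l979 : ℕ := 0x3891381bf9775e8fa4e53d4c33bb14c92400623c480fe3a6e5bb90d880230931e4841e0a72d4be32479
def l981 : ℕ := 0x3000c886283d3e6b2cc0f3ad7fd01dc74244730b8691400c0ac251306f158cd214851cc85208b5210c3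
def l983 : ℕ := 0x38f18813efb78e6fa1e23a1cabcf10879224831587a12bcaf28051746d1fc741c87e1ec8f2b0cc400a5
def l985 : ℕ := 0x4bec704c032df486c2a073f4fa1edfeee54080203b10019043f203445188030e43e150400ec950dc2c
def l986 : ℕ := 0x37cce7c918c68e7727d274f0d44615c0eec403f23ee0508a1dc03ef8170d4b41101003406075001ec23
def l990 : ℕ := 0x1a38d0025fe6048290b43ae5b7ae2c0cf585d0cc0cec3b1fdbd6120671b7d80b3fcfdc50ecf25dbf91
def l991 : ℕ := 0x3ede1300c3b00d63f91e8aa1277fc2706effc4fdfd9ff41a1f4fa3b0b8f836edcbad0e0a2140b9040e2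
def l992 : ℕ := 0x300e541313c840c3b4dc7a7ee009067edf5385df7ce164801bc4805c2612c3a1c82af9f8c037dd0bcfe
def l993 : ℕ := 0xaeedfe5e142bebb85c4b1fca7990e4b93fcab274940dbbfc8fc21e09430ccb2eca42c8c9400ea3cbc4
def l995 : ℕ := 0x150a3e00af9dec38be2b00d4bba13872124671585c06bdb0cbcc118731f4751e47a1e8a8224932501c
def l998 : ℕ := 0x12ea014f8842f737ec034fd1fcd1e0842a0760ec4312bf7eb3e71548d244782545f1b88a294a62d82d
def l1000 : ℕ := 0x3a9088230904cec333c0329d301f1c477124292683dfb0210a42a200741ac6b2186d1dc931dc8c2e881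
def l1003 : ℕ := 0xeb32445ef76de08101f87a27c36fcc160790022c30eeb6ddebbff038ad43b6eec251588e05bfbd633b
def l1004 : ℕ := 0x34feec093dc2cd0300c8f55f5f87144c305c32027cf1f01e0f42213851060430bc9c258b602828ffcc2
def l1008 : ℕ := 0x30fc6f45fc832037b5dbf9dfa00dfcbd8eb300efba30d8942d89e13428048410fbeaf0b9010cac364d6
def l1009 : ℕ := 0x4c1b855e739fe03a2e27d5c0373f449e2f08f3805104fbde57922b48d254a725c9621095358c729c0a
def l1011 : ℕ := 0x571fc4aed760d6b88e9f86cf743f04322c8753646805fc0ed3ff2150021096240872088922cbd3b455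
def l1013 : ℕ := 0xe6e8f46c0313dc008244a909f91e93aef5fe9f1c282984502780024090a01105c05ff800fc47828fd6
def l1016 : ℕ := 0x3e3057dbf1f5aeb42b2947d00738c0373f93b9f8beff93fa0c4a4334b8fffa6e0fb808067f1815f0c69
def l1017 : ℕ := 0x309822f880aee383c03a2c0bcf0ac8a2f06b34848f6fd6f8fb32689c26c99268882409b334b938c03
def l1019 : ℕ := 0x3cd034680a7d0e370bc3b00c83681b06d1988e31476f8bc907c032f4ef260a428c9c294ae294f93d07f
def l1022 : ℕ := 0x7ef1382c1f6cde3cf1a04e314700fc251dc150f02101418eb7d2ed783c03e3c943511c2b2607f147d0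
def l1023 : ℕ := 0x3d619bf50539edcf67c3bebc037af388a3589432035f87a4f84272ccad240b22d89c258ad360d92ec72
def l1027 : ℕ := 0x374d134eea7a7ecfaff17c30b427f3754dcbb205fc4fac542b88d2144b01fe2fe01ffd42efc07b3a900
def l1028 : ℕ := 0x8ffe038f37c1e7b98dbb8dc0335f94b210c7ef884825412ee7f40e0a8310862708227880258b13878d
def l1030 : ℕ := 0x31ded0272b8cc02b6ec470ad5bec1e09200ff2de00a2c85303f7a04c63400621a41b02411fd8912084c
def l1033 : ℕ := 0x34e0b4461006a1d8972dcdd2d86e0bbf9e675ddf7b70242dff3dfe935ccc76cd7f6bd476fcbf23c0037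
def l1034 : ℕ := 0x3cf130ab34ce2237f2dbb08c8ba916cea340d30fc62ff393c8700d63f42e8f423065f5f8bde7b605fd2
def l1035 : ℕ := 0x3fe01f94dc768dffacef3d5f9ff0e137cf78390c03100c21164691fc651a86015059150401b48440064
def l1037 : ℕ := 0x3aeefb88e277be5fa4ecba5f5bd9e877ff0c070181b0703713c4f15c681c067124460bc340d44734d00
def l1040 : ℕ := 0x37f11c10f7bfae8749c0303d1f93fc83f064090102210c4506c2216c87304992ac9a26c80260810bcd1
def l1043 : ℕ := 0x300fcc120603700be2f1bd4f7ff2fd401f1fb7fb81316443088100b04e19c4b0d82a0d0170401f01cc0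
def l1046 : ℕ := 0x337d9782eb3d3fd405ffbe6f37a6e4389e53b3f57e5fc02716c6d1f8791243903ff2fbc030a07028d00
def l1047 : ℕ := 0x315d536fe63d8fafeafcbdeedb98d8791e3b7eddfb307c030b8752a08b2145902003f83f80107f400f3
def l1048 : ℕ := 0xfe1585d1bbe6ee788cdb17cb730f4f90080a525c4bc2fee0241b16cad2d0b72349e20c7e2010000ff2
def l1052 : ℕ := 0x300caf61e7ff20f8681e45f0b004f7bbee9fa2ebc151a4661a4480a811fe7c6e379de7be607c74380dd
def l1054 : ℕ := 0x30fe0bd4fe7ecf73b6e2758cb751d839bf881a11049fd80906c40160852d8cb304931b8480b0261d500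
def l1056 : ℕ := 0x309df7b6f6fe5f3bc5f0fceeffbde238ae57bd07c0e0ac712088f248611043318063198351ac7126100
def l1059 : ℕ := 0x353de77ce9be10783402bd6e5362d0b4cdc79bf7bf3fc8651f0b1354b024c540efeafb819108992b900
def l1060 : ℕ := 0x322da81821417db70dd334be9bb5e9b84df7b7ee3d0fe7f81a074110681bcc3224d31902cf806333500
def l1063 : ℕ := 0xfe30c8810fd5dff49cd342db79cf13cef641410c02e97f919c31120601f8aa338e0398b314810e2f00
def l1064 : ℕ := 0x331e67dffb819037f4f5fa5e3389e8bc7f73e2f304f100391103d0d0451406719c6410c0a0c41d1e100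
def l1066 : ℕ := 0x324d4b93f68110cc10fbbc6e8791dfb6fe0f9bfe41f24c962948f1c85d1ec6217c500a8511a09c34100
def l1069 : ℕ := 0x32fd3396f4401ff3dff0f9adf76bda369da76ee7423274861b47e1986c1c88925c861743111c743b500
def l1071 : ℕ := 0x300fec2e0cc2b07bf9f0799e7b97f3c251846f010100efd9e9bb9030601b46c1244ffc405033d3f90dd
def P0 : List (Bool × ℕ) := []
def P1 : List (Bool × ℕ) := (true, l0) :: P0
def P2 : List (Bool × ℕ) := (true, l1) :: P1
def P3 : List (Bool × ℕ) := (true, l2) :: P2
def P4 : List (Bool × ℕ) := (true, l3) :: P3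
def P5 : List (Bool × ℕ) := (true, l4) :: P4
def P6 : List (Bool × ℕ) := (true, l5) :: P5
def P7 : List (Bool × ℕ) := (true, l6) :: P6
def P8 : List (Bool × ℕ) := (true, l7) :: P7
def P9 : List (Bool × ℕ) := (false, l7) :: P7
def P10 : List (Bool × ℕ) := (false, l6) :: P6
def P11 : List (Bool × ℕ) := (false, l5) :: P5
def P12 : List (Bool × ℕ) := (false, l4) :: P4
def P13 : List (Bool × ℕ) := (true, l12) :: P12
def P14 : List (Bool × ℕ) := (true, l13) :: P13
def P15 : List (Bool × ℕ) := (false, l13) :: P13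
def P16 : List (Bool × ℕ) := (false, l12) :: P12
def P17 : List (Bool × ℕ) := (true, l16) :: P16
def P18 : List (Bool × ℕ) := (false, l16) :: P16
def P19 : List (Bool × ℕ) := (true, l18) :: P18
def P20 : List (Bool × ℕ) := (false, l18) :: P18
def P21 : List (Bool × ℕ) := (false, l3) :: P3
def P22 : List (Bool × ℕ) := (true, l21) :: P21
def P23 : List (Bool × ℕ) := (true, l22) :: P22
def P24 : List (Bool × ℕ) := (true, l23) :: P23
def P25 : List (Bool × ℕ) := (true, l24) :: P24
def P26 : List (Bool × ℕ) := (false, l24) :: P24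
def P27 : List (Bool × ℕ) := (false, l23) :: P23
def P28 : List (Bool × ℕ) := (false, l22) :: P22
def P29 : List (Bool × ℕ) := (true, l28) :: P28
def P30 : List (Bool × ℕ) := (true, l29) :: P29
def P31 : List (Bool × ℕ) := (true, l30) :: P30
def P32 : List (Bool × ℕ) := (false, l30) :: P30
def P33 : List (Bool × ℕ) := (false, l29) :: P29
def P34 : List (Bool × ℕ) := (true, l33) :: P33
def P35 : List (Bool × ℕ) := (true, l34) :: P34
def P36 : List (Bool × ℕ) := (true, l35) :: P35
def P37 : List (Bool × ℕ) := (false, l35) :: P35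
def P38 : List (Bool × ℕ) := (false, l34) :: P34
def P39 : List (Bool × ℕ) := (true, l38) :: P38
def P40 : List (Bool × ℕ) := (false, l38) :: P38
def P41 : List (Bool × ℕ) := (false, l33) :: P33
def P42 : List (Bool × ℕ) := (true, l41) :: P41
def P43 : List (Bool × ℕ) := (true, l42) :: P42
def P44 : List (Bool × ℕ) := (true, l43) :: P43
def P45 : List (Bool × ℕ) := (false, l43) :: P43
def P46 : List (Bool × ℕ) := (true, l45) :: P45
def P47 : List (Bool × ℕ) := (false, l45) :: P45
def P48 : List (Bool × ℕ) := (false, l42) :: P42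
def P49 : List (Bool × ℕ) := (true, l48) :: P48
def P50 : List (Bool × ℕ) := (true, l49) :: P49
def P51 : List (Bool × ℕ) := (true, l50) :: P50
def P52 : List (Bool × ℕ) := (false, l50) :: P50
def P53 : List (Bool × ℕ) := (false, l49) :: P49
def P54 : List (Bool × ℕ) := (false, l48) :: P48
def P55 : List (Bool × ℕ) := (true, l54) :: P54
def P56 : List (Bool × ℕ) := (true, l55) :: P55
def P57 : List (Bool × ℕ) := (false, l55) :: P55
def P58 : List (Bool × ℕ) := (false, l54) :: P54
def P59 : List (Bool × ℕ) := (false, l41) :: P41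
def P60 : List (Bool × ℕ) := (true, l59) :: P59
def P61 : List (Bool × ℕ) := (false, l59) :: P59
def P62 : List (Bool × ℕ) := (false, l28) :: P28
def P63 : List (Bool × ℕ) := (true, l62) :: P62
def P64 : List (Bool × ℕ) := (true, l63) :: P63
def P65 : List (Bool × ℕ) := (false, l63) :: P63
def P66 : List (Bool × ℕ) := (false, l62) :: P62
def P67 : List (Bool × ℕ) := (true, l66) :: P66
def P68 : List (Bool × ℕ) := (false, l66) :: P66
def P69 : List (Bool × ℕ) := (true, l68) :: P68
def P70 : List (Bool × ℕ) := (true, l69) :: P69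
def P71 : List (Bool × ℕ) := (false, l69) :: P69
def P72 : List (Bool × ℕ) := (false, l68) :: P68
def P73 : List (Bool × ℕ) := (true, l72) :: P72
def P74 : List (Bool × ℕ) := (true, l73) :: P73
def P75 : List (Bool × ℕ) := (false, l73) :: P73
def P76 : List (Bool × ℕ) := (false, l72) :: P72
def P77 : List (Bool × ℕ) := (false, l21) :: P21
def P78 : List (Bool × ℕ) := (true, l77) :: P77
def P79 : List (Bool × ℕ) := (false, l77) :: P77
def P80 : List (Bool × ℕ) := (true, l79) :: P79
def P81 : List (Bool × ℕ) := (false, l79) :: P79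
def P82 : List (Bool × ℕ) := (true, l81) :: P81
def P83 : List (Bool × ℕ) := (false, l81) :: P81
def P84 : List (Bool × ℕ) := (false, l2) :: P2
def P85 : List (Bool × ℕ) := (true, l84) :: P84
def P86 : List (Bool × ℕ) := (true, l85) :: P85
def P87 : List (Bool × ℕ) := (true, l86) :: P86
def P88 : List (Bool × ℕ) := (false, l86) :: P86
def P89 : List (Bool × ℕ) := (false, l85) :: P85
def P90 : List (Bool × ℕ) := (true, l89) :: P89
def P91 : List (Bool × ℕ) := (false, l89) :: P89
def P92 : List (Bool × ℕ) := (true, l91) :: P91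
def P93 : List (Bool × ℕ) := (false, l91) :: P91
def P94 : List (Bool × ℕ) := (false, l84) :: P84
def P95 : List (Bool × ℕ) := (true, l94) :: P94
def P96 : List (Bool × ℕ) := (true, l95) :: P95
def P97 : List (Bool × ℕ) := (false, l95) :: P95
def P98 : List (Bool × ℕ) := (true, l97) :: P97
def P99 : List (Bool × ℕ) := (false, l97) :: P97
def P100 : List (Bool × ℕ) := (true, l99) :: P99
def P101 : List (Bool × ℕ) := (true, l100) :: P100
def P102 : List (Bool × ℕ) := (false, l100) :: P100
def P103 : List (Bool × ℕ) := (true, l102) :: P102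
def P104 : List (Bool × ℕ) := (false, l102) :: P102
def P105 : List (Bool × ℕ) := (true, l104) :: P104
def P106 : List (Bool × ℕ) := (false, l104) :: P104
def P107 : List (Bool × ℕ) := (false, l99) :: P99
def P108 : List (Bool × ℕ) := (true, l107) :: P107
def P109 : List (Bool × ℕ) := (false, l107) :: P107
def P110 : List (Bool × ℕ) := (true, l109) :: P109
def P111 : List (Bool × ℕ) := (true, l110) :: P110
def P112 : List (Bool × ℕ) := (false, l110) :: P110
def P113 : List (Bool × ℕ) := (false, l109) :: P109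
def P114 : List (Bool × ℕ) := (true, l113) :: P113
def P115 : List (Bool × ℕ) := (false, l113) :: P113
def P116 : List (Bool × ℕ) := (false, l94) :: P94
def P117 : List (Bool × ℕ) := (true, l116) :: P116
def P118 : List (Bool × ℕ) := (false, l116) :: P116
def P119 : List (Bool × ℕ) := (true, l118) :: P118
def P120 : List (Bool × ℕ) := (false, l118) :: P118
def P121 : List (Bool × ℕ) := (true, l120) :: P120
def P122 : List (Bool × ℕ) := (false, l120) :: P120
def P123 : List (Bool × ℕ) := (true, l122) :: P122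
def P124 : List (Bool × ℕ) := (false, l122) :: P122
def P125 : List (Bool × ℕ) := (false, l1) :: P1
def P126 : List (Bool × ℕ) := (true, l125) :: P125
def P127 : List (Bool × ℕ) := (true, l126) :: P126
def P128 : List (Bool × ℕ) := (true, l127) :: P127
def P129 : List (Bool × ℕ) := (true, l128) :: P128
def P130 : List (Bool × ℕ) := (true, l129) :: P129
def P131 : List (Bool × ℕ) := (true, l130) :: P130
def P132 : List (Bool × ℕ) := (true, l131) :: P131
def P133 : List (Bool × ℕ) := (true, l132) :: P132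
def P134 : List (Bool × ℕ) := (false, l132) :: P132
def P135 : List (Bool × ℕ) := (false, l131) :: P131
def P136 : List (Bool × ℕ) := (false, l130) :: P130
def P137 : List (Bool × ℕ) := (true, l136) :: P136
def P138 : List (Bool × ℕ) := (true, l137) :: P137
def P139 : List (Bool × ℕ) := (false, l137) :: P137
def P140 : List (Bool × ℕ) := (false, l136) :: P136
def P141 : List (Bool × ℕ) := (false, l129) :: P129
def P142 : List (Bool × ℕ) := (true, l141) :: P141
def P143 : List (Bool × ℕ) := (true, l142) :: P142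
def P144 : List (Bool × ℕ) := (true, l143) :: P143
def P145 : List (Bool × ℕ) := (true, l144) :: P144
def P146 : List (Bool × ℕ) := (true, l145) :: P145
def P147 : List (Bool × ℕ) := (false, l145) :: P145
def P148 : List (Bool × ℕ) := (false, l144) :: P144
def P149 : List (Bool × ℕ) := (false, l143) :: P143
def P150 : List (Bool × ℕ) := (true, l149) :: P149
def P151 : List (Bool × ℕ) := (false, l149) :: P149
def P152 : List (Bool × ℕ) := (false, l142) :: P142
def P153 : List (Bool × ℕ) := (true, l152) :: P152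
def P154 : List (Bool × ℕ) := (false, l152) :: P152
def P155 : List (Bool × ℕ) := (false, l141) :: P141
def P156 : List (Bool × ℕ) := (true, l155) :: P155
def P157 : List (Bool × ℕ) := (true, l156) :: P156
def P158 : List (Bool × ℕ) := (true, l157) :: P157
def P159 : List (Bool × ℕ) := (true, l158) :: P158
def P160 : List (Bool × ℕ) := (true, l159) :: P159
def P161 : List (Bool × ℕ) := (false, l159) :: P159
def P162 : List (Bool × ℕ) := (false, l158) :: P158
def P163 : List (Bool × ℕ) := (false, l157) :: P157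
def P164 : List (Bool × ℕ) := (true, l163) :: P163
def P165 : List (Bool × ℕ) := (false, l163) :: P163
def P166 : List (Bool × ℕ) := (true, l165) :: P165
def P167 : List (Bool × ℕ) := (true, l166) :: P166
def P168 : List (Bool × ℕ) := (false, l166) :: P166
def P169 : List (Bool × ℕ) := (false, l165) :: P165
def P170 : List (Bool × ℕ) := (true, l169) :: P169
def P171 : List (Bool × ℕ) := (false, l169) :: P169
def P172 : List (Bool × ℕ) := (false, l156) :: P156
def P173 : List (Bool × ℕ) := (true, l172) :: P172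
def P174 : List (Bool × ℕ) := (true, l173) :: P173
def P175 : List (Bool × ℕ) := (true, l174) :: P174
def P176 : List (Bool × ℕ) := (true, l175) :: P175
def P177 : List (Bool × ℕ) := (false, l175) :: P175
def P178 : List (Bool × ℕ) := (false, l174) :: P174
def P179 : List (Bool × ℕ) := (true, l178) :: P178
def P180 : List (Bool × ℕ) := (false, l178) :: P178
def P181 : List (Bool × ℕ) := (false, l173) :: P173
def P182 : List (Bool × ℕ) := (true, l181) :: P181
def P183 : List (Bool × ℕ) := (false, l181) :: P181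
def P184 : List (Bool × ℕ) := (false, l172) :: P172
def P185 : List (Bool × ℕ) := (true, l184) :: P184
def P186 : List (Bool × ℕ) := (true, l185) :: P185
def P187 : List (Bool × ℕ) := (true, l186) :: P186
def P188 : List (Bool × ℕ) := (true, l187) :: P187
def P189 : List (Bool × ℕ) := (false, l187) :: P187
def P190 : List (Bool × ℕ) := (false, l186) :: P186
def P191 : List (Bool × ℕ) := (false, l185) :: P185
def P192 : List (Bool × ℕ) := (true, l191) :: P191
def P193 : List (Bool × ℕ) := (true, l192) :: P192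
def P194 : List (Bool × ℕ) := (true, l193) :: P193
def P195 : List (Bool × ℕ) := (true, l194) :: P194
def P196 : List (Bool × ℕ) := (false, l194) :: P194
def P197 : List (Bool × ℕ) := (false, l193) :: P193
def P198 : List (Bool × ℕ) := (true, l197) :: P197
def P199 : List (Bool × ℕ) := (false, l197) :: P197
def P200 : List (Bool × ℕ) := (false, l192) :: P192
def P201 : List (Bool × ℕ) := (true, l200) :: P200
def P202 : List (Bool × ℕ) := (false, l200) :: P200
def P203 : List (Bool × ℕ) := (false, l191) :: P191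
def P204 : List (Bool × ℕ) := (false, l184) :: P184
def P205 : List (Bool × ℕ) := (true, l204) :: P204
def P206 : List (Bool × ℕ) := (true, l205) :: P205
def P207 : List (Bool × ℕ) := (true, l206) :: P206
def P208 : List (Bool × ℕ) := (false, l206) :: P206
def P209 : List (Bool × ℕ) := (false, l205) :: P205
def P210 : List (Bool × ℕ) := (false, l204) :: P204
def P211 : List (Bool × ℕ) := (false, l155) :: P155
def P212 : List (Bool × ℕ) := (true, l211) :: P211
def P213 : List (Bool × ℕ) := (true, l212) :: P212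
def P214 : List (Bool × ℕ) := (false, l212) :: P212
def P215 : List (Bool × ℕ) := (false, l211) :: P211
def P216 : List (Bool × ℕ) := (true, l215) :: P215
def P217 : List (Bool × ℕ) := (false, l215) :: P215
def P218 : List (Bool × ℕ) := (false, l128) :: P128
def P219 : List (Bool × ℕ) := (true, l218) :: P218
def P220 : List (Bool × ℕ) := (true, l219) :: P219
def P221 : List (Bool × ℕ) := (false, l219) :: P219
def P222 : List (Bool × ℕ) := (false, l218) :: P218
def P223 : List (Bool × ℕ) := (true, l222) :: P222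
def P224 : List (Bool × ℕ) := (false, l222) :: P222
def P225 : List (Bool × ℕ) := (true, l224) :: P224
def P226 : List (Bool × ℕ) := (false, l224) :: P224
def P227 : List (Bool × ℕ) := (false, l127) :: P127
def P228 : List (Bool × ℕ) := (true, l227) :: P227
def P229 : List (Bool × ℕ) := (true, l228) :: P228
def P230 : List (Bool × ℕ) := (true, l229) :: P229
def P231 : List (Bool × ℕ) := (true, l230) :: P230
def P232 : List (Bool × ℕ) := (true, l231) :: P231
def P233 : List (Bool × ℕ) := (false, l231) :: P231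
def P234 : List (Bool × ℕ) := (true, l233) :: P233
def P235 : List (Bool × ℕ) := (true, l234) :: P234
def P236 : List (Bool × ℕ) := (false, l234) :: P234
def P237 : List (Bool × ℕ) := (false, l233) :: P233
def P238 : List (Bool × ℕ) := (false, l230) :: P230
def P239 : List (Bool × ℕ) := (true, l238) :: P238
def P240 : List (Bool × ℕ) := (true, l239) :: P239
def P241 : List (Bool × ℕ) := (false, l239) :: P239
def P242 : List (Bool × ℕ) := (true, l241) :: P241
def P243 : List (Bool × ℕ) := (false, l241) :: P241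
def P244 : List (Bool × ℕ) := (false, l238) :: P238
def P245 : List (Bool × ℕ) := (true, l244) :: P244
def P246 : List (Bool × ℕ) := (false, l244) :: P244
def P247 : List (Bool × ℕ) := (false, l229) :: P229
def P248 : List (Bool × ℕ) := (true, l247) :: P247
def P249 : List (Bool × ℕ) := (true, l248) :: P248
def P250 : List (Bool × ℕ) := (true, l249) :: P249
def P251 : List (Bool × ℕ) := (true, l250) :: P250
def P252 : List (Bool × ℕ) := (true, l251) :: P251
def P253 : List (Bool × ℕ) := (false, l251) :: P251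
def P254 : List (Bool × ℕ) := (true, l253) :: P253
def P255 : List (Bool × ℕ) := (false, l253) :: P253
def P256 : List (Bool × ℕ) := (true, l255) :: P255
def P257 : List (Bool × ℕ) := (false, l255) :: P255
def P258 : List (Bool × ℕ) := (false, l250) :: P250
def P259 : List (Bool × ℕ) := (true, l258) :: P258
def P260 : List (Bool × ℕ) := (true, l259) :: P259
def P261 : List (Bool × ℕ) := (false, l259) :: P259
def P262 : List (Bool × ℕ) := (true, l261) :: P261
def P263 : List (Bool × ℕ) := (true, l262) :: P262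
def P264 : List (Bool × ℕ) := (false, l262) :: P262
def P265 : List (Bool × ℕ) := (false, l261) :: P261
def P266 : List (Bool × ℕ) := (false, l258) :: P258
def P267 : List (Bool × ℕ) := (true, l266) :: P266
def P268 : List (Bool × ℕ) := (true, l267) :: P267
def P269 : List (Bool × ℕ) := (false, l267) :: P267
def P270 : List (Bool × ℕ) := (false, l266) :: P266
def P271 : List (Bool × ℕ) := (true, l270) :: P270
def P272 : List (Bool × ℕ) := (false, l270) :: P270
def P273 : List (Bool × ℕ) := (false, l249) :: P249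
def P274 : List (Bool × ℕ) := (true, l273) :: P273
def P275 : List (Bool × ℕ) := (true, l274) :: P274
def P276 : List (Bool × ℕ) := (false, l274) :: P274
def P277 : List (Bool × ℕ) := (true, l276) :: P276
def P278 : List (Bool × ℕ) := (false, l276) :: P276
def P279 : List (Bool × ℕ) := (false, l273) :: P273
def P280 : List (Bool × ℕ) := (true, l279) :: P279
def P281 : List (Bool × ℕ) := (true, l280) :: P280
def P282 : List (Bool × ℕ) := (true, l281) :: P281
def P283 : List (Bool × ℕ) := (false, l281) :: P281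
def P284 : List (Bool × ℕ) := (true, l283) :: P283
def P285 : List (Bool × ℕ) := (false, l283) :: P283
def P286 : List (Bool × ℕ) := (false, l280) :: P280
def P287 : List (Bool × ℕ) := (false, l279) :: P279
def P288 : List (Bool × ℕ) := (false, l248) :: P248
def P289 : List (Bool × ℕ) := (true, l288) :: P288
def P290 : List (Bool × ℕ) := (true, l289) :: P289
def P291 : List (Bool × ℕ) := (true, l290) :: P290
def P292 : List (Bool × ℕ) := (true, l291) :: P291
def P293 : List (Bool × ℕ) := (false, l291) :: P291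
def P294 : List (Bool × ℕ) := (false, l290) :: P290
def P295 : List (Bool × ℕ) := (false, l289) :: P289
def P296 : List (Bool × ℕ) := (true, l295) :: P295
def P297 : List (Bool × ℕ) := (true, l296) :: P296
def P298 : List (Bool × ℕ) := (false, l296) :: P296
def P299 : List (Bool × ℕ) := (false, l295) :: P295
def P300 : List (Bool × ℕ) := (false, l288) :: P288
def P301 : List (Bool × ℕ) := (true, l300) :: P300
def P302 : List (Bool × ℕ) := (true, l301) :: P301
def P303 : List (Bool × ℕ) := (false, l301) :: P301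
def P304 : List (Bool × ℕ) := (false, l300) :: P300
def P305 : List (Bool × ℕ) := (true, l304) :: P304
def P306 : List (Bool × ℕ) := (false, l304) :: P304
def P307 : List (Bool × ℕ) := (true, l306) :: P306
def P308 : List (Bool × ℕ) := (false, l306) :: P306
def P309 : List (Bool × ℕ) := (false, l247) :: P247
def P310 : List (Bool × ℕ) := (true, l309) :: P309
def P311 : List (Bool × ℕ) := (true, l310) :: P310
def P312 : List (Bool × ℕ) := (true, l311) :: P311
def P313 : List (Bool × ℕ) := (false, l311) :: P311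
def P314 : List (Bool × ℕ) := (false, l310) :: P310
def P315 : List (Bool × ℕ) := (true, l314) :: P314
def P316 : List (Bool × ℕ) := (true, l315) :: P315
def P317 : List (Bool × ℕ) := (true, l316) :: P316
def P318 : List (Bool × ℕ) := (false, l316) :: P316
def P319 : List (Bool × ℕ) := (false, l315) :: P315
def P320 : List (Bool × ℕ) := (true, l319) :: P319
def P321 : List (Bool × ℕ) := (false, l319) :: P319
def P322 : List (Bool × ℕ) := (true, l321) :: P321
def P323 : List (Bool × ℕ) := (false, l321) :: P321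
def P324 : List (Bool × ℕ) := (true, l323) :: P323
def P325 : List (Bool × ℕ) := (false, l323) :: P323
def P326 : List (Bool × ℕ) := (true, l325) :: P325
def P327 : List (Bool × ℕ) := (false, l325) :: P325
def P328 : List (Bool × ℕ) := (false, l314) :: P314
def P329 : List (Bool × ℕ) := (false, l309) :: P309
def P330 : List (Bool × ℕ) := (true, l329) :: P329
def P331 : List (Bool × ℕ) := (true, l330) :: P330
def P332 : List (Bool × ℕ) := (true, l331) :: P331
def P333 : List (Bool × ℕ) := (true, l332) :: P332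
def P334 : List (Bool × ℕ) := (true, l333) :: P333
def P335 : List (Bool × ℕ) := (false, l333) :: P333
def P336 : List (Bool × ℕ) := (false, l332) :: P332
def P337 : List (Bool × ℕ) := (false, l331) :: P331
def P338 : List (Bool × ℕ) := (false, l330) :: P330
def P339 : List (Bool × ℕ) := (true, l338) :: P338
def P340 : List (Bool × ℕ) := (false, l338) :: P338
def P341 : List (Bool × ℕ) := (false, l329) :: P329
def P342 : List (Bool × ℕ) := (true, l341) :: P341
def P343 : List (Bool × ℕ) := (true, l342) :: P342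
def P344 : List (Bool × ℕ) := (true, l343) :: P343
def P345 : List (Bool × ℕ) := (true, l344) :: P344
def P346 : List (Bool × ℕ) := (false, l344) :: P344
def P347 : List (Bool × ℕ) := (true, l346) :: P346
def P348 : List (Bool × ℕ) := (false, l346) :: P346
def P349 : List (Bool × ℕ) := (true, l348) :: P348
def P350 : List (Bool × ℕ) := (false, l348) :: P348
def P351 : List (Bool × ℕ) := (false, l343) :: P343
def P352 : List (Bool × ℕ) := (false, l342) :: P342
def P353 : List (Bool × ℕ) := (false, l341) :: P341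
def P354 : List (Bool × ℕ) := (true, l353) :: P353
def P355 : List (Bool × ℕ) := (true, l354) :: P354
def P356 : List (Bool × ℕ) := (true, l355) :: P355
def P357 : List (Bool × ℕ) := (true, l356) :: P356
def P358 : List (Bool × ℕ) := (false, l356) :: P356
def P359 : List (Bool × ℕ) := (false, l355) :: P355
def P360 : List (Bool × ℕ) := (false, l354) :: P354
def P361 : List (Bool × ℕ) := (false, l353) :: P353
def P362 : List (Bool × ℕ) := (true, l361) :: P361
def P363 : List (Bool × ℕ) := (true, l362) :: P362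
def P364 : List (Bool × ℕ) := (true, l363) :: P363
def P365 : List (Bool × ℕ) := (false, l363) :: P363
def P366 : List (Bool × ℕ) := (false, l362) :: P362
def P367 : List (Bool × ℕ) := (false, l361) :: P361
def P368 : List (Bool × ℕ) := (false, l228) :: P228
def P369 : List (Bool × ℕ) := (true, l368) :: P368
def P370 : List (Bool × ℕ) := (true, l369) :: P369
def P371 : List (Bool × ℕ) := (false, l369) :: P369
def P372 : List (Bool × ℕ) := (false, l368) :: P368
def P373 : List (Bool × ℕ) := (true, l372) :: P372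
def P374 : List (Bool × ℕ) := (true, l373) :: P373
def P375 : List (Bool × ℕ) := (true, l374) :: P374
def P376 : List (Bool × ℕ) := (true, l375) :: P375
def P377 : List (Bool × ℕ) := (false, l375) :: P375
def P378 : List (Bool × ℕ) := (true, l377) :: P377
def P379 : List (Bool × ℕ) := (false, l377) :: P377
def P380 : List (Bool × ℕ) := (true, l379) :: P379
def P381 : List (Bool × ℕ) := (false, l379) :: P379
def P382 : List (Bool × ℕ) := (true, l381) :: P381
def P383 : List (Bool × ℕ) := (false, l381) :: P381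
def P384 : List (Bool × ℕ) := (false, l374) :: P374
def P385 : List (Bool × ℕ) := (true, l384) :: P384
def P386 : List (Bool × ℕ) := (false, l384) :: P384
def P387 : List (Bool × ℕ) := (false, l373) :: P373
def P388 : List (Bool × ℕ) := (true, l387) :: P387
def P389 : List (Bool × ℕ) := (false, l387) :: P387
def P390 : List (Bool × ℕ) := (true, l389) :: P389
def P391 : List (Bool × ℕ) := (false, l389) :: P389
def P392 : List (Bool × ℕ) := (true, l391) :: P391
def P393 : List (Bool × ℕ) := (false, l391) :: P391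
def P394 : List (Bool × ℕ) := (true, l393) :: P393
def P395 : List (Bool × ℕ) := (false, l393) :: P393
def P396 : List (Bool × ℕ) := (true, l395) :: P395
def P397 : List (Bool × ℕ) := (false, l395) :: P395
def P398 : List (Bool × ℕ) := (false, l372) :: P372
def P399 : List (Bool × ℕ) := (true, l398) :: P398
def P400 : List (Bool × ℕ) := (true, l399) :: P399
def P401 : List (Bool × ℕ) := (true, l400) :: P400
def P402 : List (Bool × ℕ) := (false, l400) :: P400
def P403 : List (Bool × ℕ) := (false, l399) :: P399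
def P404 : List (Bool × ℕ) := (true, l403) :: P403
def P405 : List (Bool × ℕ) := (false, l403) :: P403
def P406 : List (Bool × ℕ) := (false, l398) :: P398
def P407 : List (Bool × ℕ) := (true, l406) :: P406
def P408 : List (Bool × ℕ) := (true, l407) :: P407
def P409 : List (Bool × ℕ) := (false, l407) :: P407
def P410 : List (Bool × ℕ) := (false, l406) :: P406
def P411 : List (Bool × ℕ) := (true, l410) :: P410
def P412 : List (Bool × ℕ) := (true, l411) :: P411
def P413 : List (Bool × ℕ) := (true, l412) :: P412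
def P414 : List (Bool × ℕ) := (false, l412) :: P412
def P415 : List (Bool × ℕ) := (false, l411) :: P411
def P416 : List (Bool × ℕ) := (true, l415) :: P415
def P417 : List (Bool × ℕ) := (true, l416) :: P416
def P418 : List (Bool × ℕ) := (false, l416) :: P416
def P419 : List (Bool × ℕ) := (false, l415) :: P415
def P420 : List (Bool × ℕ) := (true, l419) :: P419
def P421 : List (Bool × ℕ) := (false, l419) :: P419
def P422 : List (Bool × ℕ) := (false, l410) :: P410
def P423 : List (Bool × ℕ) := (true, l422) :: P422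
def P424 : List (Bool × ℕ) := (false, l422) :: P422
def P425 : List (Bool × ℕ) := (true, l424) :: P424
def P426 : List (Bool × ℕ) := (false, l424) :: P424
def P427 : List (Bool × ℕ) := (false, l227) :: P227
def P428 : List (Bool × ℕ) := (true, l427) :: P427
def P429 : List (Bool × ℕ) := (true, l428) :: P428
def P430 : List (Bool × ℕ) := (false, l428) :: P428
def P431 : List (Bool × ℕ) := (false, l427) :: P427
def P432 : List (Bool × ℕ) := (true, l431) :: P431
def P433 : List (Bool × ℕ) := (true, l432) :: P432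
def P434 : List (Bool × ℕ) := (false, l432) :: P432
def P435 : List (Bool × ℕ) := (true, l434) :: P434
def P436 : List (Bool × ℕ) := (true, l435) :: P435
def P437 : List (Bool × ℕ) := (false, l435) :: P435
def P438 : List (Bool × ℕ) := (false, l434) :: P434
def P439 : List (Bool × ℕ) := (false, l431) :: P431
def P440 : List (Bool × ℕ) := (true, l439) :: P439
def P441 : List (Bool × ℕ) := (true, l440) :: P440
def P442 : List (Bool × ℕ) := (true, l441) :: P441
def P443 : List (Bool × ℕ) := (true, l442) :: P442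
def P444 : List (Bool × ℕ) := (true, l443) :: P443
def P445 : List (Bool × ℕ) := (false, l443) :: P443
def P446 : List (Bool × ℕ) := (false, l442) :: P442
def P447 : List (Bool × ℕ) := (false, l441) :: P441
def P448 : List (Bool × ℕ) := (false, l440) :: P440
def P449 : List (Bool × ℕ) := (true, l448) :: P448
def P450 : List (Bool × ℕ) := (false, l448) :: P448
def P451 : List (Bool × ℕ) := (false, l439) :: P439
def P452 : List (Bool × ℕ) := (true, l451) :: P451
def P453 : List (Bool × ℕ) := (true, l452) :: P452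
def P454 : List (Bool × ℕ) := (true, l453) :: P453
def P455 : List (Bool × ℕ) := (false, l453) :: P453
def P456 : List (Bool × ℕ) := (true, l455) :: P455
def P457 : List (Bool × ℕ) := (false, l455) :: P455
def P458 : List (Bool × ℕ) := (true, l457) :: P457
def P459 : List (Bool × ℕ) := (true, l458) :: P458
def P460 : List (Bool × ℕ) := (false, l458) :: P458
def P461 : List (Bool × ℕ) := (false, l457) :: P457
def P462 : List (Bool × ℕ) := (true, l461) :: P461
def P463 : List (Bool × ℕ) := (false, l461) :: P461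
def P464 : List (Bool × ℕ) := (false, l452) :: P452
def P465 : List (Bool × ℕ) := (true, l464) :: P464
def P466 : List (Bool × ℕ) := (true, l465) :: P465
def P467 : List (Bool × ℕ) := (true, l466) :: P466
def P468 : List (Bool × ℕ) := (true, l467) :: P467
def P469 : List (Bool × ℕ) := (false, l467) :: P467
def P470 : List (Bool × ℕ) := (true, l469) :: P469
def P471 : List (Bool × ℕ) := (false, l469) :: P469
def P472 : List (Bool × ℕ) := (false, l466) :: P466
def P473 : List (Bool × ℕ) := (false, l465) :: P465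
def P474 : List (Bool × ℕ) := (false, l464) :: P464
def P475 : List (Bool × ℕ) := (false, l451) :: P451
def P476 : List (Bool × ℕ) := (true, l475) :: P475
def P477 : List (Bool × ℕ) := (true, l476) :: P476
def P478 : List (Bool × ℕ) := (true, l477) :: P477
def P479 : List (Bool × ℕ) := (true, l478) :: P478
def P480 : List (Bool × ℕ) := (true, l479) :: P479
def P481 : List (Bool × ℕ) := (true, l480) :: P480
def P482 : List (Bool × ℕ) := (false, l480) :: P480
def P483 : List (Bool × ℕ) := (false, l479) :: P479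
def P484 : List (Bool × ℕ) := (true, l483) :: P483
def P485 : List (Bool × ℕ) := (false, l483) :: P483
def P486 : List (Bool × ℕ) := (false, l478) :: P478
def P487 : List (Bool × ℕ) := (true, l486) :: P486
def P488 : List (Bool × ℕ) := (true, l487) :: P487
def P489 : List (Bool × ℕ) := (false, l487) :: P487
def P490 : List (Bool × ℕ) := (false, l486) :: P486
def P491 : List (Bool × ℕ) := (false, l477) :: P477
def P492 : List (Bool × ℕ) := (true, l491) :: P491
def P493 : List (Bool × ℕ) := (false, l491) :: P491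
def P494 : List (Bool × ℕ) := (true, l493) :: P493
def P495 : List (Bool × ℕ) := (false, l493) :: P493
def P496 : List (Bool × ℕ) := (false, l476) :: P476
def P497 : List (Bool × ℕ) := (true, l496) :: P496
def P498 : List (Bool × ℕ) := (true, l497) :: P497
def P499 : List (Bool × ℕ) := (false, l497) :: P497
def P500 : List (Bool × ℕ) := (true, l499) :: P499
def P501 : List (Bool × ℕ) := (false, l499) :: P499
def P502 : List (Bool × ℕ) := (false, l496) :: P496
def P503 : List (Bool × ℕ) := (true, l502) :: P502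
def P504 : List (Bool × ℕ) := (true, l503) :: P503
def P505 : List (Bool × ℕ) := (false, l503) :: P503
def P506 : List (Bool × ℕ) := (true, l505) :: P505
def P507 : List (Bool × ℕ) := (false, l505) :: P505
def P508 : List (Bool × ℕ) := (false, l502) :: P502
def P509 : List (Bool × ℕ) := (true, l508) :: P508
def P510 : List (Bool × ℕ) := (true, l509) :: P509
def P511 : List (Bool × ℕ) := (false, l509) :: P509
def P512 : List (Bool × ℕ) := (false, l508) :: P508
def P513 : List (Bool × ℕ) := (true, l512) :: P512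
def P514 : List (Bool × ℕ) := (false, l512) :: P512
def P515 : List (Bool × ℕ) := (false, l475) :: P475
def P516 : List (Bool × ℕ) := (true, l515) :: P515
def P517 : List (Bool × ℕ) := (false, l515) :: P515
def P518 : List (Bool × ℕ) := (true, l517) :: P517
def P519 : List (Bool × ℕ) := (true, l518) :: P518
def P520 : List (Bool × ℕ) := (false, l518) :: P518
def P521 : List (Bool × ℕ) := (false, l517) :: P517
def P522 : List (Bool × ℕ) := (false, l126) :: P126
def P523 : List (Bool × ℕ) := (true, l522) :: P522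
def P524 : List (Bool × ℕ) := (true, l523) :: P523
def P525 : List (Bool × ℕ) := (false, l523) :: P523
def P526 : List (Bool × ℕ) := (false, l522) :: P522
def P527 : List (Bool × ℕ) := (true, l526) :: P526
def P528 : List (Bool × ℕ) := (true, l527) :: P527
def P529 : List (Bool × ℕ) := (true, l528) :: P528
def P530 : List (Bool × ℕ) := (true, l529) :: P529
def P531 : List (Bool × ℕ) := (true, l530) :: P530
def P532 : List (Bool × ℕ) := (false, l530) :: P530
def P533 : List (Bool × ℕ) := (true, l532) :: P532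
def P534 : List (Bool × ℕ) := (false, l532) :: P532
def P535 : List (Bool × ℕ) := (false, l529) :: P529
def P536 : List (Bool × ℕ) := (true, l535) :: P535
def P537 : List (Bool × ℕ) := (true, l536) :: P536
def P538 : List (Bool × ℕ) := (true, l537) :: P537
def P539 : List (Bool × ℕ) := (false, l537) :: P537
def P540 : List (Bool × ℕ) := (true, l539) :: P539
def P541 : List (Bool × ℕ) := (false, l539) :: P539
def P542 : List (Bool × ℕ) := (false, l536) :: P536
def P543 : List (Bool × ℕ) := (true, l542) :: P542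
def P544 : List (Bool × ℕ) := (true, l543) :: P543
def P545 : List (Bool × ℕ) := (false, l543) :: P543
def P546 : List (Bool × ℕ) := (false, l542) :: P542
def P547 : List (Bool × ℕ) := (false, l535) :: P535
def P548 : List (Bool × ℕ) := (true, l547) :: P547
def P549 : List (Bool × ℕ) := (false, l547) :: P547
def P550 : List (Bool × ℕ) := (false, l528) :: P528
def P551 : List (Bool × ℕ) := (true, l550) :: P550
def P552 : List (Bool × ℕ) := (true, l551) :: P551
def P553 : List (Bool × ℕ) := (true, l552) :: P552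
def P554 : List (Bool × ℕ) := (false, l552) :: P552
def P555 : List (Bool × ℕ) := (true, l554) :: P554
def P556 : List (Bool × ℕ) := (true, l555) :: P555
def P557 : List (Bool × ℕ) := (false, l555) :: P555
def P558 : List (Bool × ℕ) := (true, l557) :: P557
def P559 : List (Bool × ℕ) := (false, l557) :: P557
def P560 : List (Bool × ℕ) := (true, l559) :: P559
def P561 : List (Bool × ℕ) := (false, l559) :: P559
def P562 : List (Bool × ℕ) := (true, l561) :: P561
def P563 : List (Bool × ℕ) := (true, l562) :: P562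
def P564 : List (Bool × ℕ) := (false, l562) :: P562
def P565 : List (Bool × ℕ) := (false, l561) :: P561
def P566 : List (Bool × ℕ) := (true, l565) :: P565
def P567 : List (Bool × ℕ) := (false, l565) :: P565
def P568 : List (Bool × ℕ) := (false, l554) :: P554
def P569 : List (Bool × ℕ) := (false, l551) :: P551
def P570 : List (Bool × ℕ) := (true, l569) :: P569
def P571 : List (Bool × ℕ) := (true, l570) :: P570
def P572 : List (Bool × ℕ) := (true, l571) :: P571
def P573 : List (Bool × ℕ) := (false, l571) :: P571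
def P574 : List (Bool × ℕ) := (true, l573) :: P573
def P575 : List (Bool × ℕ) := (false, l573) :: P573
def P576 : List (Bool × ℕ) := (false, l570) :: P570
def P577 : List (Bool × ℕ) := (true, l576) :: P576
def P578 : List (Bool × ℕ) := (false, l576) :: P576
def P579 : List (Bool × ℕ) := (true, l578) :: P578
def P580 : List (Bool × ℕ) := (true, l579) :: P579
def P581 : List (Bool × ℕ) := (false, l579) :: P579
def P582 : List (Bool × ℕ) := (true, l581) :: P581
def P583 : List (Bool × ℕ) := (false, l581) :: P581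
def P584 : List (Bool × ℕ) := (false, l578) :: P578
def P585 : List (Bool × ℕ) := (true, l584) :: P584
def P586 : List (Bool × ℕ) := (false, l584) :: P584
def P587 : List (Bool × ℕ) := (false, l569) :: P569
def P588 : List (Bool × ℕ) := (false, l550) :: P550
def P589 : List (Bool × ℕ) := (true, l588) :: P588
def P590 : List (Bool × ℕ) := (true, l589) :: P589
def P591 : List (Bool × ℕ) := (true, l590) :: P590
def P592 : List (Bool × ℕ) := (false, l590) :: P590
def P593 : List (Bool × ℕ) := (true, l592) :: P592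
def P594 : List (Bool × ℕ) := (false, l592) :: P592
def P595 : List (Bool × ℕ) := (false, l589) :: P589
def P596 : List (Bool × ℕ) := (false, l588) :: P588
def P597 : List (Bool × ℕ) := (true, l596) :: P596
def P598 : List (Bool × ℕ) := (true, l597) :: P597
def P599 : List (Bool × ℕ) := (false, l597) :: P597
def P600 : List (Bool × ℕ) := (true, l599) :: P599
def P601 : List (Bool × ℕ) := (false, l599) :: P599
def P602 : List (Bool × ℕ) := (true, l601) :: P601
def P603 : List (Bool × ℕ) := (false, l601) :: P601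
def P604 : List (Bool × ℕ) := (false, l596) :: P596
def P605 : List (Bool × ℕ) := (false, l527) :: P527
def P606 : List (Bool × ℕ) := (true, l605) :: P605
def P607 : List (Bool × ℕ) := (true, l606) :: P606
def P608 : List (Bool × ℕ) := (true, l607) :: P607
def P609 : List (Bool × ℕ) := (true, l608) :: P608
def P610 : List (Bool × ℕ) := (true, l609) :: P609
def P611 : List (Bool × ℕ) := (false, l609) :: P609
def P612 : List (Bool × ℕ) := (false, l608) :: P608
def P613 : List (Bool × ℕ) := (false, l607) :: P607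
def P614 : List (Bool × ℕ) := (false, l606) :: P606
def P615 : List (Bool × ℕ) := (true, l614) :: P614
def P616 : List (Bool × ℕ) := (false, l614) :: P614
def P617 : List (Bool × ℕ) := (true, l616) :: P616
def P618 : List (Bool × ℕ) := (false, l616) :: P616
def P619 : List (Bool × ℕ) := (false, l605) :: P605
def P620 : List (Bool × ℕ) := (true, l619) :: P619
def P621 : List (Bool × ℕ) := (true, l620) :: P620
def P622 : List (Bool × ℕ) := (true, l621) :: P621
def P623 : List (Bool × ℕ) := (true, l622) :: P622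
def P624 : List (Bool × ℕ) := (true, l623) :: P623
def P625 : List (Bool × ℕ) := (true, l624) :: P624
def P626 : List (Bool × ℕ) := (false, l624) :: P624
def P627 : List (Bool × ℕ) := (false, l623) :: P623
def P628 : List (Bool × ℕ) := (true, l627) :: P627
def P629 : List (Bool × ℕ) := (false, l627) :: P627
def P630 : List (Bool × ℕ) := (false, l622) :: P622
def P631 : List (Bool × ℕ) := (true, l630) :: P630
def P632 : List (Bool × ℕ) := (true, l631) :: P631
def P633 : List (Bool × ℕ) := (false, l631) :: P631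
def P634 : List (Bool × ℕ) := (false, l630) :: P630
def P635 : List (Bool × ℕ) := (true, l634) :: P634
def P636 : List (Bool × ℕ) := (false, l634) :: P634
def P637 : List (Bool × ℕ) := (false, l621) :: P621
def P638 : List (Bool × ℕ) := (true, l637) :: P637
def P639 : List (Bool × ℕ) := (true, l638) :: P638
def P640 : List (Bool × ℕ) := (true, l639) :: P639
def P641 : List (Bool × ℕ) := (true, l640) :: P640
def P642 : List (Bool × ℕ) := (false, l640) :: P640
def P643 : List (Bool × ℕ) := (false, l639) :: P639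
def P644 : List (Bool × ℕ) := (true, l643) :: P643
def P645 : List (Bool × ℕ) := (false, l643) :: P643
def P646 : List (Bool × ℕ) := (false, l638) :: P638
def P647 : List (Bool × ℕ) := (true, l646) :: P646
def P648 : List (Bool × ℕ) := (true, l647) :: P647
def P649 : List (Bool × ℕ) := (false, l647) :: P647
def P650 : List (Bool × ℕ) := (true, l649) :: P649
def P651 : List (Bool × ℕ) := (false, l649) :: P649
def P652 : List (Bool × ℕ) := (true, l651) :: P651
def P653 : List (Bool × ℕ) := (false, l651) :: P651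
def P654 : List (Bool × ℕ) := (false, l646) :: P646
def P655 : List (Bool × ℕ) := (true, l654) :: P654
def P656 : List (Bool × ℕ) := (false, l654) :: P654
def P657 : List (Bool × ℕ) := (false, l637) :: P637
def P658 : List (Bool × ℕ) := (true, l657) :: P657
def P659 : List (Bool × ℕ) := (true, l658) :: P658
def P660 : List (Bool × ℕ) := (false, l658) :: P658
def P661 : List (Bool × ℕ) := (true, l660) :: P660
def P662 : List (Bool × ℕ) := (false, l660) :: P660
def P663 : List (Bool × ℕ) := (true, l662) :: P662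
def P664 : List (Bool × ℕ) := (false, l662) :: P662
def P665 : List (Bool × ℕ) := (false, l657) :: P657
def P666 : List (Bool × ℕ) := (true, l665) :: P665
def P667 : List (Bool × ℕ) := (false, l665) :: P665
def P668 : List (Bool × ℕ) := (false, l620) :: P620
def P669 : List (Bool × ℕ) := (true, l668) :: P668
def P670 : List (Bool × ℕ) := (true, l669) :: P669
def P671 : List (Bool × ℕ) := (false, l669) :: P669
def P672 : List (Bool × ℕ) := (false, l668) :: P668
def P673 : List (Bool × ℕ) := (true, l672) :: P672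
def P674 : List (Bool × ℕ) := (false, l672) :: P672
def P675 : List (Bool × ℕ) := (true, l674) :: P674
def P676 : List (Bool × ℕ) := (false, l674) :: P674
def P677 : List (Bool × ℕ) := (true, l676) :: P676
def P678 : List (Bool × ℕ) := (false, l676) :: P676
def P679 : List (Bool × ℕ) := (true, l678) :: P678
def P680 : List (Bool × ℕ) := (false, l678) :: P678
def P681 : List (Bool × ℕ) := (true, l680) :: P680
def P682 : List (Bool × ℕ) := (false, l680) :: P680
def P683 : List (Bool × ℕ) := (false, l619) :: P619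
def P684 : List (Bool × ℕ) := (true, l683) :: P683
def P685 : List (Bool × ℕ) := (false, l683) :: P683
def P686 : List (Bool × ℕ) := (true, l685) :: P685
def P687 : List (Bool × ℕ) := (false, l685) :: P685
def P688 : List (Bool × ℕ) := (false, l526) :: P526
def P689 : List (Bool × ℕ) := (true, l688) :: P688
def P690 : List (Bool × ℕ) := (false, l688) :: P688
def P691 : List (Bool × ℕ) := (true, l690) :: P690
def P692 : List (Bool × ℕ) := (false, l690) :: P690
def P693 : List (Bool × ℕ) := (true, l692) :: P692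
def P694 : List (Bool × ℕ) := (false, l692) :: P692
def P695 : List (Bool × ℕ) := (true, l694) :: P694
def P696 : List (Bool × ℕ) := (false, l694) :: P694
def P697 : List (Bool × ℕ) := (false, l125) :: P125
def P698 : List (Bool × ℕ) := (true, l697) :: P697
def P699 : List (Bool × ℕ) := (true, l698) :: P698
def P700 : List (Bool × ℕ) := (true, l699) :: P699
def P701 : List (Bool × ℕ) := (true, l700) :: P700
def P702 : List (Bool × ℕ) := (true, l701) :: P701
def P703 : List (Bool × ℕ) := (true, l702) :: P702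
def P704 : List (Bool × ℕ) := (true, l703) :: P703
def P705 : List (Bool × ℕ) := (true, l704) :: P704
def P706 : List (Bool × ℕ) := (false, l704) :: P704
def P707 : List (Bool × ℕ) := (false, l703) :: P703
def P708 : List (Bool × ℕ) := (true, l707) :: P707
def P709 : List (Bool × ℕ) := (false, l707) :: P707
def P710 : List (Bool × ℕ) := (true, l709) :: P709
def P711 : List (Bool × ℕ) := (true, l710) :: P710
def P712 : List (Bool × ℕ) := (false, l710) :: P710
def P713 : List (Bool × ℕ) := (false, l709) :: P709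
def P714 : List (Bool × ℕ) := (true, l713) :: P713
def P715 : List (Bool × ℕ) := (true, l714) :: P714
def P716 : List (Bool × ℕ) := (false, l714) :: P714
def P717 : List (Bool × ℕ) := (false, l713) :: P713
def P718 : List (Bool × ℕ) := (true, l717) :: P717
def P719 : List (Bool × ℕ) := (false, l717) :: P717
def P720 : List (Bool × ℕ) := (true, l719) :: P719
def P721 : List (Bool × ℕ) := (true, l720) :: P720
def P722 : List (Bool × ℕ) := (false, l720) :: P720
def P723 : List (Bool × ℕ) := (false, l719) :: P719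
def P724 : List (Bool × ℕ) := (false, l702) :: P702
def P725 : List (Bool × ℕ) := (true, l724) :: P724
def P726 : List (Bool × ℕ) := (true, l725) :: P725
def P727 : List (Bool × ℕ) := (false, l725) :: P725
def P728 : List (Bool × ℕ) := (false, l724) :: P724
def P729 : List (Bool × ℕ) := (false, l701) :: P701
def P730 : List (Bool × ℕ) := (true, l729) :: P729
def P731 : List (Bool × ℕ) := (true, l730) :: P730
def P732 : List (Bool × ℕ) := (false, l730) :: P730
def P733 : List (Bool × ℕ) := (false, l729) :: P729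
def P734 : List (Bool × ℕ) := (true, l733) :: P733
def P735 : List (Bool × ℕ) := (false, l733) :: P733
def P736 : List (Bool × ℕ) := (true, l735) :: P735
def P737 : List (Bool × ℕ) := (true, l736) :: P736
def P738 : List (Bool × ℕ) := (false, l736) :: P736
def P739 : List (Bool × ℕ) := (true, l738) :: P738
def P740 : List (Bool × ℕ) := (false, l738) :: P738
def P741 : List (Bool × ℕ) := (true, l740) :: P740
def P742 : List (Bool × ℕ) := (true, l741) :: P741
def P743 : List (Bool × ℕ) := (false, l741) :: P741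
def P744 : List (Bool × ℕ) := (true, l743) :: P743
def P745 : List (Bool × ℕ) := (false, l743) :: P743
def P746 : List (Bool × ℕ) := (false, l740) :: P740
def P747 : List (Bool × ℕ) := (false, l735) :: P735
def P748 : List (Bool × ℕ) := (false, l700) :: P700
def P749 : List (Bool × ℕ) := (true, l748) :: P748
def P750 : List (Bool × ℕ) := (true, l749) :: P749
def P751 : List (Bool × ℕ) := (false, l749) :: P749
def P752 : List (Bool × ℕ) := (true, l751) :: P751
def P753 : List (Bool × ℕ) := (false, l751) :: P751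
def P754 : List (Bool × ℕ) := (true, l753) :: P753
def P755 : List (Bool × ℕ) := (true, l754) :: P754
def P756 : List (Bool × ℕ) := (false, l754) :: P754
def P757 : List (Bool × ℕ) := (false, l753) :: P753
def P758 : List (Bool × ℕ) := (true, l757) :: P757
def P759 : List (Bool × ℕ) := (false, l757) :: P757
def P760 : List (Bool × ℕ) := (true, l759) :: P759
def P761 : List (Bool × ℕ) := (false, l759) :: P759
def P762 : List (Bool × ℕ) := (true, l761) :: P761
def P763 : List (Bool × ℕ) := (false, l761) :: P761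
def P764 : List (Bool × ℕ) := (true, l763) :: P763
def P765 : List (Bool × ℕ) := (false, l763) :: P763
def P766 : List (Bool × ℕ) := (false, l748) :: P748
def P767 : List (Bool × ℕ) := (true, l766) :: P766
def P768 : List (Bool × ℕ) := (false, l766) :: P766
def P769 : List (Bool × ℕ) := (true, l768) :: P768
def P770 : List (Bool × ℕ) := (false, l768) :: P768
def P771 : List (Bool × ℕ) := (true, l770) :: P770
def P772 : List (Bool × ℕ) := (false, l770) :: P770
def P773 : List (Bool × ℕ) := (true, l772) :: P772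
def P774 : List (Bool × ℕ) := (true, l773) :: P773
def P775 : List (Bool × ℕ) := (false, l773) :: P773
def P776 : List (Bool × ℕ) := (true, l775) :: P775
def P777 : List (Bool × ℕ) := (false, l775) :: P775
def P778 : List (Bool × ℕ) := (false, l772) :: P772
def P779 : List (Bool × ℕ) := (true, l778) :: P778
def P780 : List (Bool × ℕ) := (true, l779) :: P779
def P781 : List (Bool × ℕ) := (false, l779) :: P779
def P782 : List (Bool × ℕ) := (false, l778) :: P778
def P783 : List (Bool × ℕ) := (true, l782) :: P782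
def P784 : List (Bool × ℕ) := (false, l782) :: P782
def P785 : List (Bool × ℕ) := (true, l784) :: P784
def P786 : List (Bool × ℕ) := (false, l784) :: P784
def P787 : List (Bool × ℕ) := (false, l699) :: P699
def P788 : List (Bool × ℕ) := (true, l787) :: P787
def P789 : List (Bool × ℕ) := (true, l788) :: P788
def P790 : List (Bool × ℕ) := (true, l789) :: P789
def P791 : List (Bool × ℕ) := (true, l790) :: P790
def P792 : List (Bool × ℕ) := (true, l791) :: P791
def P793 : List (Bool × ℕ) := (false, l791) :: P791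
def P794 : List (Bool × ℕ) := (true, l793) :: P793
def P795 : List (Bool × ℕ) := (false, l793) :: P793
def P796 : List (Bool × ℕ) := (true, l795) :: P795
def P797 : List (Bool × ℕ) := (false, l795) :: P795
def P798 : List (Bool × ℕ) := (true, l797) :: P797
def P799 : List (Bool × ℕ) := (false, l797) :: P797
def P800 : List (Bool × ℕ) := (true, l799) :: P799
def P801 : List (Bool × ℕ) := (false, l799) :: P799
def P802 : List (Bool × ℕ) := (true, l801) :: P801
def P803 : List (Bool × ℕ) := (false, l801) :: P801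
def P804 : List (Bool × ℕ) := (false, l790) :: P790
def P805 : List (Bool × ℕ) := (true, l804) :: P804
def P806 : List (Bool × ℕ) := (false, l804) :: P804
def P807 : List (Bool × ℕ) := (true, l806) :: P806
def P808 : List (Bool × ℕ) := (false, l806) :: P806
def P809 : List (Bool × ℕ) := (true, l808) :: P808
def P810 : List (Bool × ℕ) := (false, l808) :: P808
def P811 : List (Bool × ℕ) := (true, l810) :: P810
def P812 : List (Bool × ℕ) := (false, l810) :: P810
def P813 : List (Bool × ℕ) := (true, l812) :: P812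
def P814 : List (Bool × ℕ) := (false, l812) :: P812
def P815 : List (Bool × ℕ) := (false, l789) :: P789
def P816 : List (Bool × ℕ) := (true, l815) :: P815
def P817 : List (Bool × ℕ) := (false, l815) :: P815
def P818 : List (Bool × ℕ) := (true, l817) :: P817
def P819 : List (Bool × ℕ) := (false, l817) :: P817
def P820 : List (Bool × ℕ) := (true, l819) :: P819
def P821 : List (Bool × ℕ) := (false, l819) :: P819
def P822 : List (Bool × ℕ) := (true, l821) :: P821
def P823 : List (Bool × ℕ) := (true, l822) :: P822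
def P824 : List (Bool × ℕ) := (true, l823) :: P823
def P825 : List (Bool × ℕ) := (false, l823) :: P823
def P826 : List (Bool × ℕ) := (false, l822) :: P822
def P827 : List (Bool × ℕ) := (true, l826) :: P826
def P828 : List (Bool × ℕ) := (false, l826) :: P826
def P829 : List (Bool × ℕ) := (false, l821) :: P821
def P830 : List (Bool × ℕ) := (true, l829) :: P829
def P831 : List (Bool × ℕ) := (false, l829) :: P829
def P832 : List (Bool × ℕ) := (false, l788) :: P788
def P833 : List (Bool × ℕ) := (true, l832) :: P832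
def P834 : List (Bool × ℕ) := (true, l833) :: P833
def P835 : List (Bool × ℕ) := (true, l834) :: P834
def P836 : List (Bool × ℕ) := (false, l834) :: P834
def P837 : List (Bool × ℕ) := (false, l833) :: P833
def P838 : List (Bool × ℕ) := (false, l832) :: P832
def P839 : List (Bool × ℕ) := (true, l838) :: P838
def P840 : List (Bool × ℕ) := (true, l839) :: P839
def P841 : List (Bool × ℕ) := (true, l840) :: P840
def P842 : List (Bool × ℕ) := (false, l840) :: P840
def P843 : List (Bool × ℕ) := (false, l839) :: P839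
def P844 : List (Bool × ℕ) := (true, l843) :: P843
def P845 : List (Bool × ℕ) := (false, l843) :: P843
def P846 : List (Bool × ℕ) := (false, l838) :: P838
def P847 : List (Bool × ℕ) := (true, l846) :: P846
def P848 : List (Bool × ℕ) := (true, l847) :: P847
def P849 : List (Bool × ℕ) := (false, l847) :: P847
def P850 : List (Bool × ℕ) := (true, l849) :: P849
def P851 : List (Bool × ℕ) := (true, l850) :: P850
def P852 : List (Bool × ℕ) := (false, l850) :: P850
def P853 : List (Bool × ℕ) := (true, l852) :: P852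
def P854 : List (Bool × ℕ) := (false, l852) :: P852
def P855 : List (Bool × ℕ) := (true, l854) :: P854
def P856 : List (Bool × ℕ) := (false, l854) :: P854
def P857 : List (Bool × ℕ) := (false, l849) :: P849
def P858 : List (Bool × ℕ) := (true, l857) :: P857
def P859 : List (Bool × ℕ) := (true, l858) :: P858
def P860 : List (Bool × ℕ) := (false, l858) :: P858
def P861 : List (Bool × ℕ) := (false, l857) :: P857
def P862 : List (Bool × ℕ) := (true, l861) :: P861
def P863 : List (Bool × ℕ) := (false, l861) :: P861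
def P864 : List (Bool × ℕ) := (true, l863) :: P863
def P865 : List (Bool × ℕ) := (true, l864) :: P864
def P866 : List (Bool × ℕ) := (true, l865) :: P865
def P867 : List (Bool × ℕ) := (false, l865) :: P865
def P868 : List (Bool × ℕ) := (false, l864) :: P864
def P869 : List (Bool × ℕ) := (true, l868) :: P868
def P870 : List (Bool × ℕ) := (false, l868) :: P868
def P871 : List (Bool × ℕ) := (false, l863) :: P863
def P872 : List (Bool × ℕ) := (true, l871) :: P871
def P873 : List (Bool × ℕ) := (false, l871) :: P871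
def P874 : List (Bool × ℕ) := (true, l873) :: P873
def P875 : List (Bool × ℕ) := (false, l873) :: P873
def P876 : List (Bool × ℕ) := (true, l875) :: P875
def P877 : List (Bool × ℕ) := (false, l875) :: P875
def P878 : List (Bool × ℕ) := (false, l846) :: P846
def P879 : List (Bool × ℕ) := (true, l878) :: P878
def P880 : List (Bool × ℕ) := (true, l879) :: P879
def P881 : List (Bool × ℕ) := (false, l879) :: P879
def P882 : List (Bool × ℕ) := (true, l881) :: P881
def P883 : List (Bool × ℕ) := (true, l882) :: P882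
def P884 : List (Bool × ℕ) := (false, l882) :: P882
def P885 : List (Bool × ℕ) := (true, l884) :: P884
def P886 : List (Bool × ℕ) := (false, l884) :: P884
def P887 : List (Bool × ℕ) := (false, l881) :: P881
def P888 : List (Bool × ℕ) := (true, l887) :: P887
def P889 : List (Bool × ℕ) := (false, l887) :: P887
def P890 : List (Bool × ℕ) := (false, l878) :: P878
def P891 : List (Bool × ℕ) := (true, l890) :: P890
def P892 : List (Bool × ℕ) := (false, l890) :: P890
def P893 : List (Bool × ℕ) := (true, l892) :: P892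
def P894 : List (Bool × ℕ) := (true, l893) :: P893
def P895 : List (Bool × ℕ) := (false, l893) :: P893
def P896 : List (Bool × ℕ) := (true, l895) :: P895
def P897 : List (Bool × ℕ) := (false, l895) :: P895
def P898 : List (Bool × ℕ) := (true, l897) :: P897
def P899 : List (Bool × ℕ) := (false, l897) :: P897
def P900 : List (Bool × ℕ) := (false, l892) :: P892
def P901 : List (Bool × ℕ) := (false, l787) :: P787
def P902 : List (Bool × ℕ) := (true, l901) :: P901
def P903 : List (Bool × ℕ) := (true, l902) :: P902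
def P904 : List (Bool × ℕ) := (false, l902) :: P902
def P905 : List (Bool × ℕ) := (true, l904) :: P904
def P906 : List (Bool × ℕ) := (false, l904) :: P904
def P907 : List (Bool × ℕ) := (false, l901) :: P901
def P908 : List (Bool × ℕ) := (true, l907) :: P907
def P909 : List (Bool × ℕ) := (true, l908) :: P908
def P910 : List (Bool × ℕ) := (true, l909) :: P909
def P911 : List (Bool × ℕ) := (true, l910) :: P910
def P912 : List (Bool × ℕ) := (true, l911) :: P911
def P913 : List (Bool × ℕ) := (false, l911) :: P911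
def P914 : List (Bool × ℕ) := (true, l913) :: P913
def P915 : List (Bool × ℕ) := (false, l913) :: P913
def P916 : List (Bool × ℕ) := (true, l915) :: P915
def P917 : List (Bool × ℕ) := (false, l915) :: P915
def P918 : List (Bool × ℕ) := (false, l910) :: P910
def P919 : List (Bool × ℕ) := (true, l918) :: P918
def P920 : List (Bool × ℕ) := (true, l919) :: P919
def P921 : List (Bool × ℕ) := (false, l919) :: P919
def P922 : List (Bool × ℕ) := (false, l918) :: P918
def P923 : List (Bool × ℕ) := (false, l909) :: P909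
def P924 : List (Bool × ℕ) := (true, l923) :: P923
def P925 : List (Bool × ℕ) := (true, l924) :: P924
def P926 : List (Bool × ℕ) := (false, l924) :: P924
def P927 : List (Bool × ℕ) := (false, l923) :: P923
def P928 : List (Bool × ℕ) := (false, l908) :: P908
def P929 : List (Bool × ℕ) := (true, l928) :: P928
def P930 : List (Bool × ℕ) := (true, l929) :: P929
def P931 : List (Bool × ℕ) := (true, l930) :: P930
def P932 : List (Bool × ℕ) := (false, l930) :: P930
def P933 : List (Bool × ℕ) := (true, l932) :: P932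
def P934 : List (Bool × ℕ) := (false, l932) :: P932
def P935 : List (Bool × ℕ) := (false, l929) :: P929
def P936 : List (Bool × ℕ) := (false, l928) :: P928
def P937 : List (Bool × ℕ) := (false, l907) :: P907
def P938 : List (Bool × ℕ) := (true, l937) :: P937
def P939 : List (Bool × ℕ) := (true, l938) :: P938
def P940 : List (Bool × ℕ) := (true, l939) :: P939
def P941 : List (Bool × ℕ) := (true, l940) :: P940
def P942 : List (Bool × ℕ) := (false, l940) :: P940
def P943 : List (Bool × ℕ) := (true, l942) :: P942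
def P944 : List (Bool × ℕ) := (false, l942) :: P942
def P945 : List (Bool × ℕ) := (true, l944) :: P944
def P946 : List (Bool × ℕ) := (false, l944) :: P944
def P947 : List (Bool × ℕ) := (false, l939) :: P939
def P948 : List (Bool × ℕ) := (true, l947) :: P947
def P949 : List (Bool × ℕ) := (true, l948) :: P948
def P950 : List (Bool × ℕ) := (false, l948) :: P948
def P951 : List (Bool × ℕ) := (true, l950) :: P950
def P952 : List (Bool × ℕ) := (false, l950) :: P950
def P953 : List (Bool × ℕ) := (true, l952) :: P952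
def P954 : List (Bool × ℕ) := (false, l952) :: P952
def P955 : List (Bool × ℕ) := (false, l947) :: P947
def P956 : List (Bool × ℕ) := (true, l955) :: P955
def P957 : List (Bool × ℕ) := (true, l956) :: P956
def P958 : List (Bool × ℕ) := (false, l956) :: P956
def P959 : List (Bool × ℕ) := (false, l955) :: P955
def P960 : List (Bool × ℕ) := (true, l959) :: P959
def P961 : List (Bool × ℕ) := (false, l959) :: P959
def P962 : List (Bool × ℕ) := (true, l961) :: P961
def P963 : List (Bool × ℕ) := (false, l961) :: P961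
def P964 : List (Bool × ℕ) := (true, l963) :: P963
def P965 : List (Bool × ℕ) := (false, l963) :: P963
def P966 : List (Bool × ℕ) := (false, l938) :: P938
def P967 : List (Bool × ℕ) := (true, l966) :: P966
def P968 : List (Bool × ℕ) := (true, l967) :: P967
def P969 : List (Bool × ℕ) := (true, l968) :: P968
def P970 : List (Bool × ℕ) := (false, l968) :: P968
def P971 : List (Bool × ℕ) := (true, l970) :: P970
def P972 : List (Bool × ℕ) := (true, l971) :: P971
def P973 : List (Bool × ℕ) := (false, l971) :: P971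
def P974 : List (Bool × ℕ) := (false, l970) :: P970
def P975 : List (Bool × ℕ) := (true, l974) :: P974
def P976 : List (Bool × ℕ) := (false, l974) :: P974
def P977 : List (Bool × ℕ) := (true, l976) :: P976
def P978 : List (Bool × ℕ) := (false, l976) :: P976
def P979 : List (Bool × ℕ) := (false, l967) :: P967
def P980 : List (Bool × ℕ) := (true, l979) :: P979
def P981 : List (Bool × ℕ) := (false, l979) :: P979
def P982 : List (Bool × ℕ) := (true, l981) :: P981
def P983 : List (Bool × ℕ) := (false, l981) :: P981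
def P984 : List (Bool × ℕ) := (true, l983) :: P983
def P985 : List (Bool × ℕ) := (false, l983) :: P983
def P986 : List (Bool × ℕ) := (true, l985) :: P985
def P987 : List (Bool × ℕ) := (true, l986) :: P986
def P988 : List (Bool × ℕ) := (false, l986) :: P986
def P989 : List (Bool × ℕ) := (false, l985) :: P985
def P990 : List (Bool × ℕ) := (false, l966) :: P966
def P991 : List (Bool × ℕ) := (true, l990) :: P990
def P992 : List (Bool × ℕ) := (true, l991) :: P991
def P993 : List (Bool × ℕ) := (true, l992) :: P992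
def P994 : List (Bool × ℕ) := (true, l993) :: P993
def P995 : List (Bool × ℕ) := (false, l993) :: P993
def P996 : List (Bool × ℕ) := (true, l995) :: P995
def P997 : List (Bool × ℕ) := (false, l995) :: P995
def P998 : List (Bool × ℕ) := (false, l992) :: P992
def P999 : List (Bool × ℕ) := (true, l998) :: P998
def P1000 : List (Bool × ℕ) := (false, l998) :: P998
def P1001 : List (Bool × ℕ) := (true, l1000) :: P1000
def P1002 : List (Bool × ℕ) := (false, l1000) :: P1000
def P1003 : List (Bool × ℕ) := (false, l991) :: P991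
def P1004 : List (Bool × ℕ) := (true, l1003) :: P1003
def P1005 : List (Bool × ℕ) := (true, l1004) :: P1004
def P1006 : List (Bool × ℕ) := (false, l1004) :: P1004
def P1007 : List (Bool × ℕ) := (false, l1003) :: P1003
def P1008 : List (Bool × ℕ) := (false, l990) :: P990
def P1009 : List (Bool × ℕ) := (true, l1008) :: P1008
def P1010 : List (Bool × ℕ) := (true, l1009) :: P1009
def P1011 : List (Bool × ℕ) := (false, l1009) :: P1009
def P1012 : List (Bool × ℕ) := (true, l1011) :: P1011
def P1013 : List (Bool × ℕ) := (false, l1011) :: P1011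
def P1014 : List (Bool × ℕ) := (true, l1013) :: P1013
def P1015 : List (Bool × ℕ) := (false, l1013) :: P1013
def P1016 : List (Bool × ℕ) := (false, l1008) :: P1008
def P1017 : List (Bool × ℕ) := (true, l1016) :: P1016
def P1018 : List (Bool × ℕ) := (true, l1017) :: P1017
def P1019 : List (Bool × ℕ) := (false, l1017) :: P1017
def P1020 : List (Bool × ℕ) := (true, l1019) :: P1019
def P1021 : List (Bool × ℕ) := (false, l1019) :: P1019
def P1022 : List (Bool × ℕ) := (false, l1016) :: P1016
def P1023 : List (Bool × ℕ) := (true, l1022) :: P1022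
def P1024 : List (Bool × ℕ) := (true, l1023) :: P1023
def P1025 : List (Bool × ℕ) := (false, l1023) :: P1023
def P1026 : List (Bool × ℕ) := (false, l1022) :: P1022
def P1027 : List (Bool × ℕ) := (false, l937) :: P937
def P1028 : List (Bool × ℕ) := (true, l1027) :: P1027
def P1029 : List (Bool × ℕ) := (true, l1028) :: P1028
def P1030 : List (Bool × ℕ) := (false, l1028) :: P1028
def P1031 : List (Bool × ℕ) := (true, l1030) :: P1030
def P1032 : List (Bool × ℕ) := (false, l1030) :: P1030
def P1033 : List (Bool × ℕ) := (false, l1027) :: P1027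
def P1034 : List (Bool × ℕ) := (true, l1033) :: P1033
def P1035 : List (Bool × ℕ) := (true, l1034) :: P1034
def P1036 : List (Bool × ℕ) := (true, l1035) :: P1035
def P1037 : List (Bool × ℕ) := (false, l1035) :: P1035
def P1038 : List (Bool × ℕ) := (true, l1037) :: P1037
def P1039 : List (Bool × ℕ) := (false, l1037) :: P1037
def P1040 : List (Bool × ℕ) := (false, l1034) :: P1034
def P1041 : List (Bool × ℕ) := (true, l1040) :: P1040
def P1042 : List (Bool × ℕ) := (false, l1040) :: P1040
def P1043 : List (Bool × ℕ) := (false, l1033) :: P1033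
def P1044 : List (Bool × ℕ) := (true, l1043) :: P1043
def P1045 : List (Bool × ℕ) := (false, l1043) :: P1043
def P1046 : List (Bool × ℕ) := (false, l698) :: P698
def P1047 : List (Bool × ℕ) := (true, l1046) :: P1046
def P1048 : List (Bool × ℕ) := (true, l1047) :: P1047
def P1049 : List (Bool × ℕ) := (true, l1048) :: P1048
def P1050 : List (Bool × ℕ) := (false, l1048) :: P1048
def P1051 : List (Bool × ℕ) := (false, l1047) :: P1047
def P1052 : List (Bool × ℕ) := (false, l1046) :: P1046
def P1053 : List (Bool × ℕ) := (true, l1052) :: P1052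
def P1054 : List (Bool × ℕ) := (false, l1052) :: P1052
def P1055 : List (Bool × ℕ) := (true, l1054) :: P1054
def P1056 : List (Bool × ℕ) := (false, l1054) :: P1054
def P1057 : List (Bool × ℕ) := (true, l1056) :: P1056
def P1058 : List (Bool × ℕ) := (false, l1056) :: P1056
def P1059 : List (Bool × ℕ) := (false, l697) :: P697
def P1060 : List (Bool × ℕ) := (true, l1059) :: P1059
def P1061 : List (Bool × ℕ) := (true, l1060) :: P1060
def P1062 : List (Bool × ℕ) := (false, l1060) :: P1060
def P1063 : List (Bool × ℕ) := (false, l1059) :: P1059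
def P1064 : List (Bool × ℕ) := (true, l1063) :: P1063
def P1065 : List (Bool × ℕ) := (true, l1064) :: P1064
def P1066 : List (Bool × ℕ) := (false, l1064) :: P1064
def P1067 : List (Bool × ℕ) := (true, l1066) :: P1066
def P1068 : List (Bool × ℕ) := (false, l1066) :: P1066
def P1069 : List (Bool × ℕ) := (false, l1063) :: P1063
def P1070 : List (Bool × ℕ) := (true, l1069) :: P1069
def P1071 : List (Bool × ℕ) := (false, l1069) :: P1069
def P1072 : List (Bool × ℕ) := (true, l1071) :: P1071
def P1073 : List (Bool × ℕ) := (false, l1071) :: P1071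

end Pool.Agent.AutoConv.C685
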